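import Mathlib

/-!
The maximal number of complete extensions of an argumentation framework with `n` arguments.
-/

namespace Pool.Agent.Results.MP_acab80_co.CompleteExtensions

open Finset

/-! ### The notions of the problem -/

section Framework

variable {A : Type*}

/-- `S` is conflict-free in the argumentation framework `(A, R)`. -/
def ConflictFree (R : A → A → Prop) (S : Set A) : Prop := ∀ a ∈ S, ∀ b ∈ S, ¬ R a b

/-- `S` defends `a` in `(A, R)`: every attacker of `a` is attacked by a member of `S`. -/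
def Defends (R : A → A → Prop) (S : Set A) (a : A) : Prop := ∀ b, R b a → ∃ c ∈ S, R c b

/-- `S` is admissible. -/
def Admissible (R : A → A → Prop) (S : Set A) : Prop :=
  ConflictFree R S ∧ ∀ a ∈ S, Defends R S a

/-- `S` is a complete extension. -/
def Complete (R : A → A → Prop) (S : Set A) : Prop :=
  Admissible R S ∧ ∀ a, Defends R S a → a ∈ S

/-- The set of complete extensions. -/
def com (R : A → A → Prop) : Set (Set A) := {S | Complete R S}

end Framework

/-- The maximal number of complete extensions over all argumentation frameworks with `n`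
arguments. -/
noncomputable def sigmaMax (n : ℕ) : ℕ :=
  sSup {m : ℕ | ∃ R : Fin n → Fin n → Prop, m = (com R).ncard}

/-- The conjectured value. -/
def conj (n : ℕ) : ℕ :=
  if n ≤ 1 then 1 else if n % 2 = 0 then 3 ^ (n / 2) else 4 * 3 ^ ((n - 3) / 2)

/-! ### The numerical bound `B` -/

/-- The potential. -/
def B (n s : ℕ) : ℚ :=
  3 ^ (n / 2) * (4 / 3) ^ (s / 2) * (if n % 2 = 0 then 1 else if s % 2 = 0 then 3 / 2 else 2)

lemma B_n2 (n s : ℕ) : B (n + 2) s = 3 * B n s := by
  unfold B
  rw [show (n + 2) / 2 = n / 2 + 1 by omega, show (n + 2) % 2 = n % 2 by omega, pow_succ]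
  ring

lemma B_s2 (n s : ℕ) : B n (s + 2) = 4 / 3 * B n s := by
  unfold B
  rw [show (s + 2) / 2 = s / 2 + 1 by omega, show (s + 2) % 2 = s % 2 by omega, pow_succ]
  ring

lemma B_ev_n {n s : ℕ} (h : (n + s) % 2 = 0) : B (n + 1) s = 3 / 2 * B n s := by
  unfold B
  rcases Nat.mod_two_eq_zero_or_one n with h1 | h1
  · have h2 : s % 2 = 0 := by omega
    rw [show (n + 1) / 2 = n / 2 by omega, show (n + 1) % 2 = 1 by omega, h1, h2]
    norm_num
    ring
  · have h2 : s % 2 = 1 := by omega
    rw [show (n + 1) / 2 = n / 2 + 1 by omega, show (n + 1) % 2 = 0 by omega, h1, h2, pow_succ]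
    norm_num
    ring

lemma B_od_n {n s : ℕ} (h : (n + s) % 2 = 1) : B (n + 1) s = 2 * B n s := by
  unfold B
  rcases Nat.mod_two_eq_zero_or_one n with h1 | h1
  · have h2 : s % 2 = 1 := by omega
    rw [show (n + 1) / 2 = n / 2 by omega, show (n + 1) % 2 = 1 by omega, h1, h2]
    norm_num
    ring
  · have h2 : s % 2 = 0 := by omega
    rw [show (n + 1) / 2 = n / 2 + 1 by omega, show (n + 1) % 2 = 0 by omega, h1, h2, pow_succ]
    norm_num
    ring

lemma B_ev_s {n s : ℕ} (h : (n + s) % 2 = 0) : B n (s + 1) = B n s := by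
  unfold B
  rcases Nat.mod_two_eq_zero_or_one n with h1 | h1
  · have h2 : s % 2 = 0 := by omega
    rw [show (s + 1) / 2 = s / 2 by omega, show (s + 1) % 2 = 1 by omega, h1, h2]
    norm_num
  · have h2 : s % 2 = 1 := by omega
    rw [show (s + 1) / 2 = s / 2 + 1 by omega, show (s + 1) % 2 = 0 by omega, h1, h2, pow_succ]
    norm_num
    ring

lemma B_od_s {n s : ℕ} (h : (n + s) % 2 = 1) : B n (s + 1) = 4 / 3 * B n s := by
  unfold B
  rcases Nat.mod_two_eq_zero_or_one n with h1 | h1
  · have h2 : s % 2 = 1 := by omega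
    rw [show (s + 1) / 2 = s / 2 + 1 by omega, show (s + 1) % 2 = 0 by omega, h1, h2, pow_succ]
    norm_num
    ring
  · have h2 : s % 2 = 0 := by omega
    rw [show (s + 1) / 2 = s / 2 by omega, show (s + 1) % 2 = 1 by omega, h1, h2]
    norm_num
    ring

lemma B_diag (n s : ℕ) : B (n + 1) (s + 1) = 2 * B n s := by
  rcases Nat.mod_two_eq_zero_or_one (n + s) with h | h
  · rw [B_od_n (by omega), B_ev_s h]
  · rw [B_ev_n (by omega), B_od_s h]
    ring

lemma B_pos (n s : ℕ) : 0 < B n s := by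
  unfold B
  split_ifs <;> positivity

lemma B_zz : B 0 0 = 1 := by norm_num [B]

lemma B_mono_n1 (n s : ℕ) : B n s ≤ B (n + 1) s := by
  have hp := B_pos n s
  rcases Nat.mod_two_eq_zero_or_one (n + s) with h | h
  · rw [B_ev_n h]; linarith
  · rw [B_od_n h]; linarith

lemma B_mono_s1 (n s : ℕ) : B n s ≤ B n (s + 1) := by
  have hp := B_pos n s
  rcases Nat.mod_two_eq_zero_or_one (n + s) with h | h
  · rw [B_ev_s h]
  · rw [B_od_s h]; linarith

lemma B_mono {n n' s s' : ℕ} (hn : n ≤ n') (hs : s ≤ s') : B n s ≤ B n' s' := by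
  calc B n s ≤ B n' s := monotone_nat_of_le_succ (f := fun n => B n s) (fun n => B_mono_n1 n s) hn
    _ ≤ B n' s' := monotone_nat_of_le_succ (f := fun s => B n' s) (fun s => B_mono_s1 n' s) hs

/-- Turning a normal argument into a self-attacking one multiplies the potential by `2/3`. -/
lemma B_conv1 (n s : ℕ) : B n (s + 1) = 2 / 3 * B (n + 1) s := by
  have h1 := B_diag (n + 1) s
  have h2 := B_n2 n (s + 1)
  have h3 : n + 1 + 1 = n + 2 := rfl
  rw [h3, h2] at h1
  linarith

lemma B_conv (n s j : ℕ) : B n (s + j) ≤ B (n + j) s := by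
  induction j generalizing n with
  | zero => simp
  | succ j ih =>
    have h := B_conv1 n (s + j)
    have h2 := ih (n + 1)
    have h3 := B_pos (n + 1) (s + j)
    have h4 : n + (j + 1) = n + 1 + j := by omega
    have h5 : s + (j + 1) = s + j + 1 := by omega
    rw [h4, h5, h]
    linarith

lemma two_pow_le_of_le {n s : ℕ} (h : n ≤ s) : (2 : ℚ) ^ n ≤ B n s := by
  induction n generalizing s with
  | zero =>
    have := B_mono (le_refl 0) (Nat.zero_le s)
    rw [B_zz] at this
    simpa using this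
  | succ n ih =>
    obtain ⟨s', rfl⟩ : ∃ s', s = s' + 1 := ⟨s - 1, by omega⟩
    rw [B_diag, pow_succ]
    have := ih (s := s') (by omega)
    linarith

lemma two_pow_le_of_ge {n s : ℕ} (h : s ≤ n) : (2 : ℚ) ^ s ≤ B n s := by
  induction s generalizing n with
  | zero =>
    have := B_mono (Nat.zero_le n) (le_refl 0)
    rw [B_zz] at this
    simpa using this
  | succ s ih =>
    obtain ⟨n', rfl⟩ : ∃ n', n = n' + 1 := ⟨n - 1, by omega⟩
    rw [B_diag, pow_succ]
    have := ih (n := n') (by omega)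
    linarith

/-- The general branching inequality. -/
lemma B_branch (m s p : ℕ) (hp : 2 ≤ p) :
    (1 + p) * B m s + B m (s + p) ≤ B (m + 1 + p) s := by
  induction p using Nat.strong_induction_on with
  | _ p ih =>
    have hB := B_pos m s
    rcases Nat.lt_or_ge p 4 with h4 | h4
    · have hB1 := B_pos m (s + 1)
      have e2 : B m (s + 2) = 4 / 3 * B m s := B_s2 m s
      have e3 : B m (s + 3) = 4 / 3 * B m (s + 1) := B_s2 m (s + 1)
      have e4 : B (m + 1 + 2) s = 3 * B (m + 1) s := B_n2 (m + 1) s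
      have e5 : B (m + 1 + 3) s = 9 * B m s := by
        rw [show m + 1 + 3 = m + 2 + 2 by omega, B_n2, B_n2]; ring
      have hle : B m (s + 1) ≤ 4 / 3 * B m s := by
        rcases Nat.mod_two_eq_zero_or_one (m + s) with h | h
        · rw [B_ev_s h]; linarith
        · rw [B_od_s h]
      have hge : 3 / 2 * B m s ≤ B (m + 1) s := by
        rcases Nat.mod_two_eq_zero_or_one (m + s) with h | h
        · rw [B_ev_n h]
        · rw [B_od_n h]; linarith
      interval_cases p
      · rw [e2, e4]; push_cast; linarith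
      · rw [e3, e5]; push_cast; linarith
    · obtain ⟨p', rfl⟩ : ∃ p', p = p' + 2 := ⟨p - 2, by omega⟩
      have h := ih p' (by omega) (by omega)
      have hB2 := B_pos m (s + p')
      rw [show s + (p' + 2) = s + p' + 2 by omega, B_s2,
        show m + 1 + (p' + 2) = m + 1 + p' + 2 by omega, B_n2]
      push_cast
      have hp0 : (0 : ℚ) ≤ p' := by positivity
      nlinarith [mul_nonneg hp0 hB.le]

lemma B_branch3 (m p : ℕ) (hp : 3 ≤ p) :
    (1 + p) * B m 0 + B m p ≤ 8 / 9 * B (m + 1 + p) 0 := by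
  induction p using Nat.strong_induction_on with
  | _ p ih =>
    have hB := B_pos m 0
    rcases Nat.lt_or_ge p 5 with h4 | h4
    · have hB1 := B_pos m 1
      have e3 : B m 3 = 4 / 3 * B m 1 := B_s2 m 1
      have e4 : B m 4 = 16 / 9 * B m 0 := by
        rw [show (4 : ℕ) = 0 + 2 + 2 from rfl, B_s2, B_s2]; ring
      have e5 : B (m + 1 + 3) 0 = 9 * B m 0 := by
        rw [show m + 1 + 3 = m + 2 + 2 by omega, B_n2, B_n2]; ring
      have e6 : B (m + 1 + 4) 0 = 9 * B (m + 1) 0 := by
        rw [show m + 1 + 4 = m + 1 + 2 + 2 by omega, B_n2, B_n2]; ring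
      have hle : B m 1 ≤ 4 / 3 * B m 0 := by
        rcases Nat.mod_two_eq_zero_or_one (m + 0) with h | h
        · rw [show (1 : ℕ) = 0 + 1 from rfl, B_ev_s h]; linarith
        · rw [show (1 : ℕ) = 0 + 1 from rfl, B_od_s h]
      have hge : 3 / 2 * B m 0 ≤ B (m + 1) 0 := by
        rcases Nat.mod_two_eq_zero_or_one (m + 0) with h | h
        · rw [B_ev_n h]
        · rw [B_od_n h]; linarith
      interval_cases p
      · rw [e3, e5]; push_cast; linarith
      · rw [e4, e6]; push_cast; linarith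
    · obtain ⟨p', rfl⟩ : ∃ p', p = p' + 2 := ⟨p - 2, by omega⟩
      have h := ih p' (by omega) (by omega)
      have hB2 := B_pos m p'
      rw [B_s2, show m + 1 + (p' + 2) = m + 1 + p' + 2 by omega, B_n2]
      push_cast
      have hp0 : (0 : ℚ) ≤ p' := by positivity
      nlinarith [mul_nonneg hp0 hB.le]

/-! ### States: normal arguments `N`, arguments `Z` that are never accepted -/

section Count

variable {V : Type*} (R : V → V → Prop)

open scoped Classical

/-- The complete sets of a state `(N, Z)`. -/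
noncomputable def cmp (N Z : Finset V) : Finset (Finset V) :=
  N.powerset.filter (fun S => (∀ s ∈ S, ∀ t ∈ S, ¬ R s t) ∧
    ∀ v ∈ N, (v ∈ S ↔ ∀ u ∈ N ∪ Z, R u v → ∃ s ∈ S, R s u))

/-- The elements of `X` that are different from `c` and unrelated to `c`. -/
noncomputable def del (c : V) (X : Finset V) : Finset V :=
  X.filter (fun v => v ≠ c ∧ ¬ R c v ∧ ¬ R v c)

/-- The neighbours of `c` in `X`. -/
noncomputable def nb (c : V) (X : Finset V) : Finset V :=
  X.filter (fun v => v ≠ c ∧ (R c v ∨ R v c))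

variable {R}

lemma mem_cmp {N Z S : Finset V} : S ∈ cmp R N Z ↔ S ⊆ N ∧ (∀ s ∈ S, ∀ t ∈ S, ¬ R s t) ∧
    ∀ v ∈ N, (v ∈ S ↔ ∀ u ∈ N ∪ Z, R u v → ∃ s ∈ S, R s u) := by
  unfold cmp
  rw [mem_filter, mem_powerset]

lemma mem_del {c v : V} {X : Finset V} : v ∈ del R c X ↔ v ∈ X ∧ v ≠ c ∧ ¬ R c v ∧ ¬ R v c := by
  unfold del
  rw [mem_filter]

lemma mem_nb {c v : V} {X : Finset V} : v ∈ nb R c X ↔ v ∈ X ∧ v ≠ c ∧ (R c v ∨ R v c) := by
  unfold nb
  rw [mem_filter]

lemma key {N Z N' Z' S0 S : Finset V} (hS : S ∈ cmp R N Z) (hN' : N' ⊆ N)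
    (hsub : N' ∪ Z' ⊆ N ∪ Z) (hSN : S \ S0 ⊆ N') (hd : Disjoint N' S0)
    (h4 : ∀ v ∈ N', ∀ u ∈ N ∪ Z, R u v → u ∈ N' ∪ Z' ∨ ∃ s ∈ S, R s u)
    (h5 : ∀ s ∈ S0, ∀ u ∈ N' ∪ Z', ¬ R s u) : S \ S0 ∈ cmp R N' Z' := by
  rw [mem_cmp] at hS ⊢
  obtain ⟨h1, h2, h3⟩ := hS
  refine ⟨hSN, fun s hs t ht => h2 s (mem_sdiff.mp hs).1 t (mem_sdiff.mp ht).1, ?_⟩
  intro v hv
  have hv0 : v ∉ S0 := fun h => (Finset.disjoint_left.mp hd hv) h
  constructor
  · intro hvS u hu huv
    obtain ⟨s, hs, hsu⟩ := (h3 v (hN' hv)).mp (mem_sdiff.mp hvS).1 u (hsub hu) huv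
    refine ⟨s, mem_sdiff.mpr ⟨hs, fun hs0 => h5 s hs0 u hu hsu⟩, hsu⟩
  · intro h
    refine mem_sdiff.mpr ⟨(h3 v (hN' hv)).mpr ?_, hv0⟩
    intro u hu huv
    rcases h4 v hv u hu huv with h6 | h6
    · obtain ⟨s, hs, hsu⟩ := h u h6 huv
      exact ⟨s, (mem_sdiff.mp hs).1, hsu⟩
    · exact h6

/-- An accepted argument can be removed with all its neighbours. -/
lemma cmp_in {N Z S : Finset V} {a : V} (hS : S ∈ cmp R N Z) (ha : a ∈ S) :
    S \ {a} ∈ cmp R (del R a N) (del R a Z) := by
  have hS' := mem_cmp.mp hS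
  obtain ⟨h1, h2, h3⟩ := hS'
  apply key hS
  · intro v hv
    exact (mem_del.mp hv).1
  · intro v hv
    rw [mem_union, mem_del, mem_del] at hv
    rw [mem_union]
    tauto
  · intro s hs
    rw [mem_sdiff, mem_singleton] at hs
    exact mem_del.mpr ⟨h1 hs.1, hs.2, h2 a ha s hs.1, h2 s hs.1 a ha⟩
  · rw [disjoint_singleton_right]
    intro h
    exact (mem_del.mp h).2.1 rfl
  · intro v hv u hu huv
    obtain ⟨hv1, hv2, hv3, hv4⟩ := mem_del.mp hv
    by_cases hua : u = a
    · exact absurd (hua ▸ huv) hv3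
    by_cases hau : R a u
    · exact Or.inr ⟨a, ha, hau⟩
    by_cases hua' : R u a
    · exact Or.inr ((h3 a (h1 ha)).mp ha u hu hua')
    · left
      rw [mem_union] at hu ⊢
      rw [mem_del, mem_del]
      tauto
  · intro s hs u hu
    rw [mem_singleton] at hs
    subst hs
    rw [mem_union, mem_del, mem_del] at hu
    tauto

/-- An undecided argument can be removed if its neighbours are declared not acceptable. -/
lemma cmp_un {N Z S : Finset V} {c : V} (hS : S ∈ cmp R N Z) (hc : c ∈ N ∪ Z) (hcS : c ∉ S)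
    (hatt : ∀ s ∈ S, ¬ R s c) : S ∈ cmp R (del R c N) (Z.erase c ∪ nb R c N) := by
  have hS' := mem_cmp.mp hS
  obtain ⟨h1, h2, h3⟩ := hS'
  have h := key (S0 := ∅) (N' := del R c N) (Z' := Z.erase c ∪ nb R c N) hS ?_ ?_ ?_ ?_ ?_ ?_
  · simpa using h
  · intro v hv
    exact (mem_del.mp hv).1
  · intro v hv
    rw [mem_union, mem_union, mem_del, mem_nb, mem_erase] at hv
    rw [mem_union]
    tauto
  · intro s hs
    rw [mem_sdiff] at hs
    refine mem_del.mpr ⟨h1 hs.1, ?_, ?_, hatt s hs.1⟩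
    · rintro rfl
      exact hcS hs.1
    · intro hcs
      obtain ⟨t, ht, htc⟩ := (h3 s (h1 hs.1)).mp hs.1 c hc hcs
      exact hatt t ht htc
  · exact disjoint_empty_right _
  · intro v hv u hu huv
    left
    obtain ⟨hv1, hv2, hv3, hv4⟩ := mem_del.mp hv
    have huc : u ≠ c := by
      rintro rfl
      exact hv3 huv
    rw [mem_union] at hu
    rw [mem_union, mem_union, mem_del, mem_nb, mem_erase]
    tauto
  · intro s hs
    simp at hs

/-- A rejected argument can be removed. -/
lemma cmp_out {N Z S : Finset V} {c : V} (hS : S ∈ cmp R N Z) (hatt : ∃ s ∈ S, R s c) :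
    S ∈ cmp R (N.erase c) (Z.erase c) := by
  have hS' := mem_cmp.mp hS
  obtain ⟨h1, h2, h3⟩ := hS'
  have h := key (S0 := ∅) (N' := N.erase c) (Z' := Z.erase c) hS ?_ ?_ ?_ ?_ ?_ ?_
  · simpa using h
  · exact erase_subset _ _
  · exact union_subset_union (erase_subset _ _) (erase_subset _ _)
  · intro s hs
    rw [mem_sdiff] at hs
    refine mem_erase.mpr ⟨?_, h1 hs.1⟩
    rintro rfl
    obtain ⟨t, ht, hts⟩ := hatt
    exact h2 t ht s hs.1 hts
  · exact disjoint_empty_right _
  · intro v hv u hu huv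
    by_cases huc : u = c
    · subst huc
      exact Or.inr hatt
    · left
      rw [mem_union] at hu ⊢
      rw [mem_erase, mem_erase]
      tauto
  · intro s hs
    simp at hs

lemma count {N Z N' Z' : Finset V} (S0 : Finset V) (P : Finset V → Prop) [DecidablePred P]
    (h : ∀ S ∈ cmp R N Z, P S → S0 ⊆ S ∧ S \ S0 ∈ cmp R N' Z') :
    ((cmp R N Z).filter P).card ≤ (cmp R N' Z').card := by
  apply Finset.card_le_card_of_injOn (fun S => S \ S0)
  · intro S hS
    rw [Finset.mem_coe, mem_filter] at hS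
    exact (h S hS.1 hS.2).2
  · intro S hS T hT hST
    rw [Finset.mem_coe, mem_filter] at hS hT
    have e1 := (h S hS.1 hS.2).1
    have e2 := (h T hT.1 hT.2).1
    simp only at hST
    rw [← Finset.sdiff_union_of_subset e1, ← Finset.sdiff_union_of_subset e2, hST]

lemma count0 {N Z N' Z' : Finset V} (P : Finset V → Prop) [DecidablePred P]
    (h : ∀ S ∈ cmp R N Z, P S → S ∈ cmp R N' Z') :
    ((cmp R N Z).filter P).card ≤ (cmp R N' Z').card :=
  count ∅ P (fun S hS hP => ⟨empty_subset _, by simpa using h S hS hP⟩)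

/-! cardinalities -/

lemma card_del_mem {N : Finset V} {a : V} (ha : a ∈ N) :
    (del R a N).card + (nb R a N).card + 1 = N.card := by
  have h : N = insert a (del R a N ∪ nb R a N) := by
    ext v
    rw [mem_insert, mem_union, mem_del, mem_nb]
    by_cases hv : v = a
    · subst hv; tauto
    · tauto
  have hd : Disjoint (del R a N) (nb R a N) := by
    rw [Finset.disjoint_left]
    intro v
    rw [mem_del, mem_nb]
    tauto
  have ha' : a ∉ del R a N ∪ nb R a N := by
    rw [mem_union, mem_del, mem_nb]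
    tauto
  conv_rhs => rw [h]
  rw [card_insert_of_notMem ha', card_union_of_disjoint hd]

lemma card_del_notMem {N : Finset V} {a : V} (ha : a ∉ N) :
    (del R a N).card + (nb R a N).card = N.card := by
  have h : N = (del R a N ∪ nb R a N) := by
    ext v
    rw [mem_union, mem_del, mem_nb]
    by_cases hv : v = a
    · subst hv; tauto
    · tauto
  have hd : Disjoint (del R a N) (nb R a N) := by
    rw [Finset.disjoint_left]
    intro v
    rw [mem_del, mem_nb]
    tauto
  conv_rhs => rw [h]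
  rw [card_union_of_disjoint hd]

lemma card_del_le (N : Finset V) (a : V) : (del R a N).card + (nb R a N).card ≤ N.card := by
  by_cases ha : a ∈ N
  · have := card_del_mem (R := R) ha; omega
  · exact (card_del_notMem ha).le

lemma card_un_le (N Z : Finset V) (c : V) :
    (Z.erase c ∪ nb R c N).card ≤ Z.card + (nb R c N).card :=
  (card_union_le _ _).trans (Nat.add_le_add_right (card_le_card (erase_subset _ _)) _)

lemma card_un_le' {N Z : Finset V} {c : V} (hc : c ∈ Z) :
    (Z.erase c ∪ nb R c N).card + 1 ≤ Z.card + (nb R c N).card := by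
  have h1 := card_union_le (Z.erase c) (nb R c N)
  have h2 := card_erase_add_one hc
  omega

lemma nb_symm {N : Finset V} {a c : V} (hc : c ∈ nb R a N) (ha : a ∈ N) : a ∈ nb R c N := by
  rw [mem_nb] at hc ⊢
  exact ⟨ha, hc.2.1.symm, hc.2.2.symm⟩

/-! ### The bound by `B` -/

lemma caseA {N Z : Finset V} (h : ∀ v ∈ N, nb R v N = ∅) (hirr : ∀ v ∈ N, ¬ R v v) :
    ((cmp R N Z).card : ℚ) ≤ B N.card Z.card := by
  have h1 : (cmp R N Z).card ≤ 2 ^ N.card := by
    rw [← card_powerset]
    exact card_le_card (filter_subset _ _)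
  have h2 : (cmp R N Z).card ≤ 2 ^ Z.card := by
    rw [← card_powerset]
    apply card_le_card_of_injOn (fun S => Z.filter (fun u => ∃ s ∈ S, R s u))
    · intro S _
      rw [Finset.mem_coe, mem_powerset]
      exact filter_subset _ _
    · intro S hS T hT hST
      rw [Finset.mem_coe] at hS hT
      obtain ⟨s1, s2, s3⟩ := mem_cmp.mp hS
      obtain ⟨t1, t2, t3⟩ := mem_cmp.mp hT
      have hatt : ∀ u ∈ Z, (∃ s ∈ S, R s u) ↔ ∃ s ∈ T, R s u := by
        intro u hu
        have := congrArg (fun X => u ∈ X) hST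
        simp only [mem_filter, hu, true_and, eq_iff_iff] at this
        exact this
      have hz : ∀ v ∈ N, ∀ u ∈ N ∪ Z, R u v → u ∈ Z := by
        intro v hv u hu huv
        rcases mem_union.mp hu with h3 | h3
        · exfalso
          have h4 : u ∈ nb R v N := by
            rw [mem_nb]
            refine ⟨h3, ?_, Or.inr huv⟩
            rintro rfl
            exact hirr _ hv huv
          rw [h v hv] at h4
          simp at h4
        · exact h3
      ext v
      by_cases hv : v ∈ N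
      · rw [s3 v hv, t3 v hv]
        constructor
        · intro h5 u hu huv
          exact (hatt u (hz v hv u hu huv)).mp (h5 u hu huv)
        · intro h5 u hu huv
          exact (hatt u (hz v hv u hu huv)).mpr (h5 u hu huv)
      · constructor
        · intro h5; exact absurd (s1 h5) hv
        · intro h5; exact absurd (t1 h5) hv
  rcases le_total N.card Z.card with h3 | h3
  · calc ((cmp R N Z).card : ℚ) ≤ ((2 ^ N.card : ℕ) : ℚ) := by exact_mod_cast h1
      _ = 2 ^ N.card := by push_cast; ring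
      _ ≤ _ := two_pow_le_of_le h3
  · calc ((cmp R N Z).card : ℚ) ≤ ((2 ^ Z.card : ℕ) : ℚ) := by exact_mod_cast h2
      _ = 2 ^ Z.card := by push_cast; ring
      _ ≤ _ := two_pow_le_of_ge h3

/-- The covering inequality of the basic branching. -/
lemma cover {N Z : Finset V} {a : V} (ha : a ∈ N) (hirr : ¬ R a a) :
    (cmp R N Z).card ≤ ((cmp R N Z).filter (fun S => a ∈ S)).card +
      (∑ c ∈ nb R a N, ((cmp R N Z).filter (fun S => c ∈ S)).card) +
      ((cmp R N Z).filter (fun S => a ∉ S ∧ ∀ s ∈ S, ¬ R s a)).card := by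
  have hsub : cmp R N Z ⊆ ((cmp R N Z).filter (fun S => a ∈ S)) ∪
      ((nb R a N).biUnion (fun c => (cmp R N Z).filter (fun S => c ∈ S))) ∪
      ((cmp R N Z).filter (fun S => a ∉ S ∧ ∀ s ∈ S, ¬ R s a)) := by
    intro S hS
    obtain ⟨h1, h2, h3⟩ := mem_cmp.mp hS
    rw [mem_union, mem_union, mem_filter, mem_biUnion, mem_filter]
    by_cases haS : a ∈ S
    · exact Or.inl (Or.inl ⟨hS, haS⟩)
    by_cases hc : ∃ s ∈ S, R s a
    · obtain ⟨s, hs, hsa⟩ := hc
      refine Or.inl (Or.inr ⟨s, ?_, ?_⟩)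
      · rw [mem_nb]
        refine ⟨h1 hs, ?_, Or.inr hsa⟩
        rintro rfl
        exact haS hs
      · rw [mem_filter]
        exact ⟨hS, hs⟩
    · push Not at hc
      exact Or.inr ⟨hS, haS, hc⟩
  refine (card_le_card hsub).trans ?_
  refine (card_union_le _ _).trans ?_
  refine Nat.add_le_add_right ?_ _
  refine (card_union_le _ _).trans ?_
  refine Nat.add_le_add_left ?_ _
  exact card_biUnion_le

section Step

/-- the induction hypothesis -/
def IH (R : V → V → Prop) (N : Finset V) : Prop :=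
  ∀ N' Z' : Finset V, N' ⊆ N → N'.card < N.card → ((cmp R N' Z').card : ℚ) ≤ B N'.card Z'.card

lemma del_subset (N : Finset V) (a : V) : del R a N ⊆ N := filter_subset _ _

lemma card_del_lt {N : Finset V} {a : V} (ha : a ∈ N) : (del R a N).card < N.card := by
  have := card_del_mem (R := R) ha
  omega

lemma in_bound {N Z : Finset V} (ih : IH R N) {c : V} (hc : c ∈ N) {m t : ℕ}
    (hm : (del R c N).card ≤ m) (ht : (del R c Z).card ≤ t) :
    (((cmp R N Z).filter (fun S => c ∈ S)).card : ℚ) ≤ B m t := by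
  have h1 : ((cmp R N Z).filter (fun S => c ∈ S)).card ≤
      (cmp R (del R c N) (del R c Z)).card :=
    count {c} (fun S => c ∈ S) (fun S hS (hcS : c ∈ S) =>
      ⟨singleton_subset_iff.mpr hcS, cmp_in hS hcS⟩)
  have h2 := ih (del R c N) (del R c Z) (del_subset N c) (card_del_lt hc)
  calc (((cmp R N Z).filter (fun S => c ∈ S)).card : ℚ)
      ≤ ((cmp R (del R c N) (del R c Z)).card : ℚ) := by exact_mod_cast h1
    _ ≤ _ := h2
    _ ≤ _ := B_mono hm ht

lemma un_bound {N Z : Finset V} (ih : IH R N) {a : V} (ha : a ∈ N) {m t : ℕ}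
    (hm : (del R a N).card ≤ m) (ht : Z.card + (nb R a N).card ≤ t) :
    (((cmp R N Z).filter (fun S => a ∉ S ∧ ∀ s ∈ S, ¬ R s a)).card : ℚ) ≤ B m t := by
  have h1 : ((cmp R N Z).filter (fun S => a ∉ S ∧ ∀ s ∈ S, ¬ R s a)).card ≤
      (cmp R (del R a N) (Z.erase a ∪ nb R a N)).card :=
    count0 (fun S => a ∉ S ∧ ∀ s ∈ S, ¬ R s a)
      (fun S hS hP => cmp_un hS (mem_union_left _ ha) hP.1 hP.2)
  have h2 := ih (del R a N) (Z.erase a ∪ nb R a N) (del_subset N a) (card_del_lt ha)
  calc (((cmp R N Z).filter (fun S => a ∉ S ∧ ∀ s ∈ S, ¬ R s a)).card : ℚ)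
      ≤ ((cmp R (del R a N) (Z.erase a ∪ nb R a N)).card : ℚ) := by exact_mod_cast h1
    _ ≤ _ := h2
    _ ≤ _ := B_mono hm ((card_un_le N Z a).trans ht)

/-- Branching for a vertex with `p` neighbours. -/
lemma basic {N Z : Finset V} (ih : IH R N) {a : V} (ha : a ∈ N) (hirr : ¬ R a a)
    (m p : ℕ) (hp : (nb R a N).card = p) (hm : m + 1 + p = N.card)
    (hc : ∀ c ∈ nb R a N, p ≤ (nb R c N).card) :
    ((cmp R N Z).card : ℚ) ≤ (1 + p) * B m Z.card + B m (Z.card + p) := by
  have h := cover (Z := Z) ha hirr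
  have hda := card_del_mem (R := R) ha
  have h1 : (((cmp R N Z).filter (fun S => a ∈ S)).card : ℚ) ≤ B m Z.card :=
    in_bound ih ha (by omega) (card_le_card (del_subset Z a))
  have h2 : ∀ c ∈ nb R a N, (((cmp R N Z).filter (fun S => c ∈ S)).card : ℚ) ≤ B m Z.card := by
    intro c hcc
    have hcN : c ∈ N := (mem_nb.mp hcc).1
    have hdc := card_del_mem (R := R) hcN
    have := hc c hcc
    exact in_bound ih hcN (by omega) (card_le_card (del_subset Z c))
  have h3 : (((cmp R N Z).filter (fun S => a ∉ S ∧ ∀ s ∈ S, ¬ R s a)).card : ℚ) ≤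
      B m (Z.card + p) := un_bound ih ha (by omega) (by omega)
  have h4 : (∑ c ∈ nb R a N, (((cmp R N Z).filter (fun S => c ∈ S)).card : ℚ)) ≤
      p * B m Z.card := by
    calc _ ≤ ∑ c ∈ nb R a N, B m Z.card := Finset.sum_le_sum h2
      _ = _ := by rw [sum_const, hp, nsmul_eq_mul]
  have h5 : ((cmp R N Z).card : ℚ) ≤ (((cmp R N Z).filter (fun S => a ∈ S)).card : ℚ) +
      (∑ c ∈ nb R a N, (((cmp R N Z).filter (fun S => c ∈ S)).card : ℚ)) +
      (((cmp R N Z).filter (fun S => a ∉ S ∧ ∀ s ∈ S, ¬ R s a)).card : ℚ) := by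
    exact_mod_cast h
  linarith

/-- Membership in the neighbourhood of `c` after removing `a`, whose only neighbour is `c`. -/
lemma nb_del_eq {N : Finset V} {a c : V} (ha : a ∈ N) (hac : nb R a N = {c}) :
    nb R c N = insert a (nb R c (del R a N)) := by
  have hc : c ∈ nb R a N := by rw [hac]; exact mem_singleton_self c
  have hca := nb_symm hc ha
  ext v
  rw [mem_insert, mem_nb, mem_nb, mem_del]
  constructor
  · rintro ⟨h1, h2, h3⟩
    by_cases hva : v = a
    · exact Or.inl hva
    · right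
      refine ⟨⟨h1, hva, ?_⟩, h2, h3⟩
      by_contra hcon
      have : v ∈ nb R a N := by
        rw [mem_nb]
        refine ⟨h1, hva, ?_⟩
        tauto
      rw [hac, mem_singleton] at this
      exact h2 this
  · rintro (rfl | ⟨⟨h1, h2⟩, h3⟩)
    · rw [mem_nb] at hca
      exact hca
    · exact ⟨h1, h3⟩

lemma card_nb_del {N : Finset V} {a c : V} (ha : a ∈ N) (hac : nb R a N = {c}) :
    (nb R c N).card = (nb R c (del R a N)).card + 1 := by
  rw [nb_del_eq ha hac, card_insert_of_notMem]
  rw [mem_nb, mem_del]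
  tauto

/-- Two undecided arguments. -/
lemma un2 {N Z S : Finset V} {a c : V} (hS : S ∈ cmp R N Z) (ha : a ∈ N)
    (hc : c ∈ Z.erase a ∪ nb R a N) (haS : a ∉ S) (hcS : c ∉ S) (haa : ∀ s ∈ S, ¬ R s a)
    (hcc : ∀ s ∈ S, ¬ R s c) :
    S ∈ cmp R (del R c (del R a N)) ((Z.erase a ∪ nb R a N).erase c ∪ nb R c (del R a N)) := by
  have h1 := cmp_un hS (mem_union_left _ ha) haS haa
  exact cmp_un h1 (mem_union_right _ hc) hcS hcc

lemma nb_notMem_del {N : Finset V} {a c : V} (hc : c ∈ nb R a N) : c ∉ del R a N := by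
  rw [mem_nb] at hc
  rw [mem_del]
  tauto

/-- First part of the undecided branch: `a` and `c` undecided. -/
lemma U1_bound {N Z : Finset V} (ih : IH R N) {a c : V} (ha : a ∈ N) (hac : nb R a N = {c})
    {m : ℕ} (hm : N.card = m + 2) :
    (((cmp R N Z).filter (fun S => a ∉ S ∧ c ∉ S ∧ (∀ s ∈ S, ¬ R s a) ∧ ∀ s ∈ S, ¬ R s c)).card : ℚ)
      ≤ (if (nb R c (del R a N)).card = 0 then 1 else 2 / 3) * B m Z.card := by
  have hc : c ∈ nb R a N := by rw [hac]; exact mem_singleton_self c
  set N3 := del R c (del R a N) with hN3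
  set Z3 := (Z.erase a ∪ nb R a N).erase c ∪ nb R c (del R a N) with hZ3
  have h1 : ((cmp R N Z).filter
      (fun S => a ∉ S ∧ c ∉ S ∧ (∀ s ∈ S, ¬ R s a) ∧ ∀ s ∈ S, ¬ R s c)).card ≤
      (cmp R N3 Z3).card :=
    count0 (fun S => a ∉ S ∧ c ∉ S ∧ (∀ s ∈ S, ¬ R s a) ∧ ∀ s ∈ S, ¬ R s c)
      (fun S hS hP => un2 hS ha (mem_union_right _ hc) hP.1 hP.2.1 hP.2.2.1 hP.2.2.2)
  have hda := card_del_mem (R := R) ha
  have hna : (nb R a N).card = 1 := by rw [hac]; exact card_singleton c
  have hdc := card_del_notMem (R := R) (nb_notMem_del hc)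
  have hz2 := card_un_le (R := R) N Z a
  have hz3 := card_un_le' (R := R) (N := del R a N) (Z := Z.erase a ∪ nb R a N) (c := c)
    (mem_union_right _ hc)
  rw [← hN3] at hdc
  rw [← hZ3] at hz3
  have h2 := ih N3 Z3 ((del_subset _ c).trans (del_subset N a)) (by omega)
  have h3 : (((cmp R N Z).filter
      (fun S => a ∉ S ∧ c ∉ S ∧ (∀ s ∈ S, ¬ R s a) ∧ ∀ s ∈ S, ¬ R s c)).card : ℚ) ≤
      B N3.card Z3.card := le_trans (by exact_mod_cast h1) h2
  refine h3.trans ?_
  split_ifs with h0
  · rw [one_mul]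
    exact B_mono (by omega) (by omega)
  · obtain ⟨r', hr'⟩ : ∃ r', (nb R c (del R a N)).card = r' + 1 :=
      ⟨(nb R c (del R a N)).card - 1, by omega⟩
    obtain ⟨m', rfl⟩ : ∃ m', m = m' + 1 := ⟨m - 1, by omega⟩
    calc B N3.card Z3.card ≤ B N3.card (Z.card + 1 + r') := B_mono le_rfl (by omega)
      _ ≤ B (N3.card + r') (Z.card + 1) := B_conv _ _ _
      _ ≤ B m' (Z.card + 1) := B_mono (by omega) le_rfl
      _ = 2 / 3 * B (m' + 1) Z.card := B_conv1 _ _

/-- In the second part of the undecided branch some attacker of `a` outside `N` is undecided. -/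
lemma U2_attacker {N Z S : Finset V} (hirr : ∀ v ∈ N, ¬ R v v) {a c : V} (ha : a ∈ N)
    (hac : nb R a N = {c}) (hS : S ∈ cmp R N Z) (haS : a ∉ S) (hcc : ∃ s ∈ S, R s c) :
    ∃ b ∈ nb R a Z, b ∉ N ∧ b ∉ S ∧ (∀ s ∈ S, ¬ R s b) := by
  obtain ⟨h1, h2, h3⟩ := mem_cmp.mp hS
  have h4 : ¬ ∀ u ∈ N ∪ Z, R u a → ∃ s ∈ S, R s u := fun h => haS ((h3 a ha).mpr h)
  push Not at h4
  obtain ⟨b, hb, hba, hbS⟩ := h4
  have hbc : b ≠ c := by
    rintro rfl
    obtain ⟨s, hs, hsb⟩ := hcc
    exact hbS s hs hsb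
  have hba' : b ≠ a := by
    rintro rfl
    exact hirr _ ha hba
  have hbN : b ∉ N := by
    intro hbN
    have : b ∈ nb R a N := mem_nb.mpr ⟨hbN, hba', Or.inr hba⟩
    rw [hac, mem_singleton] at this
    exact hbc this
  have hbZ : b ∈ Z := by
    rcases mem_union.mp hb with h | h
    · exact absurd h hbN
    · exact h
  exact ⟨b, mem_nb.mpr ⟨hbZ, hba', Or.inr hba⟩, hbN, fun h => hbN (h1 h), hbS⟩

/-- In the second part `c` is attacked by a member of `S` among its other neighbours. -/
lemma U2_d {N Z S : Finset V} (hirr : ∀ v ∈ N, ¬ R v v) {a c : V} (ha : a ∈ N)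
    (hac : nb R a N = {c}) (hS : S ∈ cmp R N Z) (haS : a ∉ S) (hcc : ∃ s ∈ S, R s c) :
    ∃ d ∈ nb R c (del R a N), d ∈ S := by
  obtain ⟨h1, h2, h3⟩ := mem_cmp.mp hS
  obtain ⟨d, hd, hdc⟩ := hcc
  refine ⟨d, ?_, hd⟩
  have hcN : c ∈ N := by
    have : c ∈ nb R a N := by rw [hac]; exact mem_singleton_self c
    exact (mem_nb.mp this).1
  have hd' : d ∈ nb R c N := by
    rw [mem_nb]
    refine ⟨h1 hd, ?_, Or.inr hdc⟩
    rintro rfl
    exact hirr _ hcN hdc
  rw [nb_del_eq ha hac, mem_insert] at hd'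
  rcases hd' with rfl | hd'
  · exact absurd hd haS
  · exact hd'

lemma U2_mem {N Z S : Finset V} {a b c : V} (ha : a ∈ N)
    (hS : S ∈ cmp R N Z) (haS : a ∉ S) (haa : ∀ s ∈ S, ¬ R s a) (hcc : ∃ s ∈ S, R s c)
    (hb : b ∈ nb R a Z) (hbS : b ∉ S) (hbb : ∀ s ∈ S, ¬ R s b) :
    S ∈ cmp R ((del R b (del R a N)).erase c)
      (((Z.erase a ∪ nb R a N).erase b ∪ nb R b (del R a N)).erase c) := by
  have hb' : b ∈ Z.erase a := mem_erase.mpr ⟨(mem_nb.mp hb).2.1, (mem_nb.mp hb).1⟩
  exact cmp_out (un2 hS ha (mem_union_left _ hb') haS hbS haa hbb) hcc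

/-- Second part of the undecided branch. -/
lemma U2_bound {N Z : Finset V} (ih : IH R N) (hirr : ∀ v ∈ N, ¬ R v v) {a c : V} (ha : a ∈ N)
    (hac : nb R a N = {c}) {m : ℕ} (hm : N.card = m + 2) (hodd : (m + Z.card) % 2 = 1)
    (hq : (nb R a Z).card ≤ 1) :
    (((cmp R N Z).filter (fun S => a ∉ S ∧ c ∉ S ∧ (∀ s ∈ S, ¬ R s a) ∧ ∃ s ∈ S, R s c)).card : ℚ)
      ≤ (if (nb R c (del R a N)).card = 0 then 0 else
          if (nb R c (del R a N)).card = 1 then 1 / 2 else 1) * B m Z.card := by
  have hBp := B_pos m Z.card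
  have hc : c ∈ nb R a N := by rw [hac]; exact mem_singleton_self c
  have hcN : c ∈ N := (mem_nb.mp hc).1
  by_cases hemp : ((cmp R N Z).filter
      (fun S => a ∉ S ∧ c ∉ S ∧ (∀ s ∈ S, ¬ R s a) ∧ ∃ s ∈ S, R s c)) = ∅
  · rw [hemp, card_empty]
    push_cast
    split_ifs <;> positivity
  obtain ⟨S0, hS0⟩ := Finset.nonempty_iff_ne_empty.mpr hemp
  rw [mem_filter] at hS0
  obtain ⟨hS0, hS1, hS2, hS3, hS4⟩ := hS0
  obtain ⟨b, hb, hbN, -, -⟩ := U2_attacker hirr ha hac hS0 hS1 hS4
  obtain ⟨d, hd, -⟩ := U2_d hirr ha hac hS0 hS1 hS4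
  have hb1 : nb R a Z = {b} := by
    have h0 : 0 < (nb R a Z).card := card_pos.mpr ⟨b, hb⟩
    obtain ⟨x, hx⟩ := card_eq_one.mp (show (nb R a Z).card = 1 by omega)
    rw [hx, mem_singleton] at hb
    rw [hx, hb]
  have hr0 : (nb R c (del R a N)).card ≠ 0 := by
    have : 0 < (nb R c (del R a N)).card := card_pos.mpr ⟨d, hd⟩
    omega
  rw [if_neg hr0]
  have hbZ : b ∈ Z := (mem_nb.mp hb).1
  have hba : b ≠ a := (mem_nb.mp hb).2.1
  have hcb : c ≠ b := by
    rintro rfl
    exact hbN hcN
  -- all `S` in the branch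
  have hall : ∀ S ∈ cmp R N Z, (a ∉ S ∧ c ∉ S ∧ (∀ s ∈ S, ¬ R s a) ∧ ∃ s ∈ S, R s c) →
      S ∈ cmp R ((del R b (del R a N)).erase c)
      (((Z.erase a ∪ nb R a N).erase b ∪ nb R b (del R a N)).erase c) := by
    rintro S hS ⟨h1, h2, h3, h4⟩
    obtain ⟨b', hb', hbN', hbS', hbb'⟩ := U2_attacker hirr ha hac hS h1 h4
    have : b' = b := by
      rw [hb1, mem_singleton] at hb'
      exact hb'
    subst this
    exact U2_mem ha hS h1 h3 h4 hb' hbS' hbb'
  set N3 := (del R b (del R a N)).erase c with hN3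
  set Z3 := ((Z.erase a ∪ nb R a N).erase b ∪ nb R b (del R a N)).erase c with hZ3
  -- cardinalities
  have hda := card_del_mem (R := R) ha
  have hna : (nb R a N).card = 1 := by rw [hac]; exact card_singleton c
  have hbdel : b ∉ del R a N := fun h => hbN (del_subset N a h)
  have hdb := card_del_notMem (R := R) hbdel
  have hcdel : c ∉ del R b (del R a N) := fun h => nb_notMem_del hc (del_subset _ b h)
  have hN3c : N3.card = (del R b (del R a N)).card := by
    rw [hN3, erase_eq_of_notMem hcdel]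
  have hz2 := card_un_le (R := R) N Z a
  have hbZ2 : b ∈ Z.erase a ∪ nb R a N := mem_union_left _ (mem_erase.mpr ⟨hba, hbZ⟩)
  have hz3 := card_un_le' (R := R) (N := del R a N) hbZ2
  have hcz : c ∈ (Z.erase a ∪ nb R a N).erase b ∪ nb R b (del R a N) :=
    mem_union_left _ (mem_erase.mpr ⟨hcb, mem_union_right _ hc⟩)
  have hz4 := card_erase_add_one hcz
  rw [← hZ3] at hz4
  have hsz : 0 < Z.card := card_pos.mpr ⟨b, hbZ⟩
  obtain ⟨t, ht⟩ : ∃ t, Z.card = t + 1 := ⟨Z.card - 1, by omega⟩
  split_ifs with h1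
  · -- `r = 1`
    obtain ⟨d', hd'⟩ := card_eq_one.mp h1
    have hdd : d' = d := by
      rw [hd', mem_singleton] at hd
      exact hd.symm
    subst hdd
    have hcnt : ((cmp R N Z).filter
        (fun S => a ∉ S ∧ c ∉ S ∧ (∀ s ∈ S, ¬ R s a) ∧ ∃ s ∈ S, R s c)).card ≤
        (cmp R (del R d' N3) (del R d' Z3)).card := by
      refine count {d'} (fun S => a ∉ S ∧ c ∉ S ∧ (∀ s ∈ S, ¬ R s a) ∧ ∃ s ∈ S, R s c) ?_
      intro S hS hP
      obtain ⟨e, he, heS⟩ := U2_d hirr ha hac hS hP.1 hP.2.2.2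
      rw [hd', mem_singleton] at he
      subst he
      exact ⟨singleton_subset_iff.mpr heS, cmp_in (hall S hS hP) heS⟩
    -- `d'` belongs to `N3`
    have hdN3 : d' ∈ N3 := by
      obtain ⟨e, he, heS⟩ := U2_d hirr ha hac hS0 hS1 hS4
      rw [hd', mem_singleton] at he
      subst he
      exact (mem_cmp.mp (hall S0 hS0 ⟨hS1, hS2, hS3, hS4⟩)).1 heS
    have hlt := card_del_mem (R := R) hdN3
    have hNsub : del R d' N3 ⊆ N := by
      refine (del_subset _ _).trans ?_
      refine (erase_subset _ _).trans ?_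
      exact (del_subset _ _).trans (del_subset _ _)
    have h2 := ih (del R d' N3) (del R d' Z3) hNsub (by omega)
    have h3 : (del R d' Z3).card ≤ Z3.card := card_le_card (del_subset _ _)
    obtain ⟨m', rfl⟩ : ∃ m', m = m' + 1 := ⟨m - 1, by omega⟩
    calc _ ≤ ((cmp R (del R d' N3) (del R d' Z3)).card : ℚ) := by exact_mod_cast hcnt
      _ ≤ B (del R d' N3).card (del R d' Z3).card := h2
      _ ≤ B (del R d' N3).card (t + (nb R b (del R a N)).card) := B_mono le_rfl (by omega)
      _ ≤ B ((del R d' N3).card + (nb R b (del R a N)).card) t := B_conv _ _ _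
      _ ≤ B m' t := B_mono (by omega) le_rfl
      _ = 1 / 2 * B (m' + 1) Z.card := by rw [ht, B_diag]; ring
  · -- `r ≥ 2`
    have hcnt : ((cmp R N Z).filter
        (fun S => a ∉ S ∧ c ∉ S ∧ (∀ s ∈ S, ¬ R s a) ∧ ∃ s ∈ S, R s c)).card ≤
        (cmp R N3 Z3).card :=
      count0 (fun S => a ∉ S ∧ c ∉ S ∧ (∀ s ∈ S, ¬ R s a) ∧ ∃ s ∈ S, R s c) hall
    have hNsub : N3 ⊆ N := (erase_subset _ _).trans ((del_subset _ _).trans (del_subset _ _))
    have h2 := ih N3 Z3 hNsub (by omega)
    calc _ ≤ ((cmp R N3 Z3).card : ℚ) := by exact_mod_cast hcnt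
      _ ≤ B N3.card Z3.card := h2
      _ ≤ B N3.card (t + (nb R b (del R a N)).card) := B_mono le_rfl (by omega)
      _ ≤ B (N3.card + (nb R b (del R a N)).card) t := B_conv _ _ _
      _ ≤ B m t := B_mono (by omega) le_rfl
      _ = 1 * B m Z.card := by
        rw [ht, one_mul, B_ev_s (by omega)]

/-- The odd class, a normal argument with exactly one normal neighbour. -/
lemma stepOdd {N Z : Finset V} (ih : IH R N) (hirr : ∀ v ∈ N, ¬ R v v) {a c : V} (ha : a ∈ N)
    (hac : nb R a N = {c}) {m : ℕ} (hm : N.card = m + 2) (hodd : (m + Z.card) % 2 = 1)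
    (hmin : ∀ v ∈ N, (nb R v N).card = 1 → (nb R a Z).card ≤ (nb R v Z).card) :
    ((cmp R N Z).card : ℚ) ≤ 3 * B m Z.card := by
  have hBp := B_pos m Z.card
  have hc : c ∈ nb R a N := by rw [hac]; exact mem_singleton_self c
  have hcN : c ∈ N := (mem_nb.mp hc).1
  have hda := card_del_mem (R := R) ha
  have hna : (nb R a N).card = 1 := by rw [hac]; exact card_singleton c
  have hdc := card_del_mem (R := R) hcN
  have hnc := card_nb_del ha hac
  have hzc := card_del_le (R := R) Z c
  have hza := card_del_le (R := R) Z a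
  have hun : (((cmp R N Z).filter (fun S => a ∉ S ∧ ∀ s ∈ S, ¬ R s a)).card : ℚ) ≤
      B m (Z.card + 1) := un_bound ih ha (by omega) (by omega)
  have hBs : B m (Z.card + 1) = 4 / 3 * B m Z.card := B_od_s hodd
  have hin : (((cmp R N Z).filter (fun S => a ∈ S)).card : ℚ) ≤ B m Z.card :=
    in_bound ih ha (by omega) (by omega)
  rcases Nat.lt_or_ge (nb R a Z).card 2 with hq | hq
  · by_cases hca : R c a
    · -- four branches
      have hcov : (cmp R N Z).card ≤ ((cmp R N Z).filter (fun S => a ∈ S)).card +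
          ((cmp R N Z).filter (fun S => c ∈ S)).card +
          ((cmp R N Z).filter
            (fun S => a ∉ S ∧ c ∉ S ∧ (∀ s ∈ S, ¬ R s a) ∧ ∀ s ∈ S, ¬ R s c)).card +
          ((cmp R N Z).filter
            (fun S => a ∉ S ∧ c ∉ S ∧ (∀ s ∈ S, ¬ R s a) ∧ ∃ s ∈ S, R s c)).card := by
        have hsub : cmp R N Z ⊆ ((cmp R N Z).filter (fun S => a ∈ S)) ∪
          ((cmp R N Z).filter (fun S => c ∈ S)) ∪
          ((cmp R N Z).filter
            (fun S => a ∉ S ∧ c ∉ S ∧ (∀ s ∈ S, ¬ R s a) ∧ ∀ s ∈ S, ¬ R s c)) ∪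
          ((cmp R N Z).filter
            (fun S => a ∉ S ∧ c ∉ S ∧ (∀ s ∈ S, ¬ R s a) ∧ ∃ s ∈ S, R s c)) := by
          intro S hS
          rw [mem_union, mem_union, mem_union, mem_filter, mem_filter, mem_filter, mem_filter]
          by_cases haS : a ∈ S
          · exact Or.inl (Or.inl (Or.inl ⟨hS, haS⟩))
          by_cases hcS : c ∈ S
          · exact Or.inl (Or.inl (Or.inr ⟨hS, hcS⟩))
          have haa : ∀ s ∈ S, ¬ R s a := by
            intro s hs hsa
            have h1 : s ∈ nb R a N := by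
              rw [mem_nb]
              refine ⟨(mem_cmp.mp hS).1 hs, ?_, Or.inr hsa⟩
              rintro rfl
              exact haS hs
            rw [hac, mem_singleton] at h1
            rw [h1] at hs
            exact hcS hs
          by_cases hcc : ∃ s ∈ S, R s c
          · exact Or.inr ⟨hS, haS, hcS, haa, hcc⟩
          · push Not at hcc
            exact Or.inl (Or.inr ⟨hS, haS, hcS, haa, hcc⟩)
        refine (card_le_card hsub).trans ?_
        refine (card_union_le _ _).trans ?_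
        refine Nat.add_le_add_right ?_ _
        refine (card_union_le _ _).trans ?_
        refine Nat.add_le_add_right ?_ _
        exact card_union_le _ _
      have hcov' : ((cmp R N Z).card : ℚ) ≤ (((cmp R N Z).filter (fun S => a ∈ S)).card : ℚ) +
          (((cmp R N Z).filter (fun S => c ∈ S)).card : ℚ) +
          (((cmp R N Z).filter
            (fun S => a ∉ S ∧ c ∉ S ∧ (∀ s ∈ S, ¬ R s a) ∧ ∀ s ∈ S, ¬ R s c)).card : ℚ) +
          (((cmp R N Z).filter
            (fun S => a ∉ S ∧ c ∉ S ∧ (∀ s ∈ S, ¬ R s a) ∧ ∃ s ∈ S, R s c)).card : ℚ) := by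
        exact_mod_cast hcov
      have hU1 := U1_bound (Z := Z) ih ha hac hm
      have hU2 := U2_bound (Z := Z) ih hirr ha hac hm hodd (by omega)
      rcases Nat.lt_or_ge (nb R c (del R a N)).card 1 with h0 | h0
      · have h0' : (nb R c (del R a N)).card = 0 := by omega
        rw [if_pos h0'] at hU1 hU2
        have h3 : (((cmp R N Z).filter (fun S => c ∈ S)).card : ℚ) ≤ B m Z.card :=
          in_bound ih hcN (by omega) (by omega)
        linarith
      · rw [if_neg (by omega : (nb R c (del R a N)).card ≠ 0)] at hU1 hU2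
        obtain ⟨m', rfl⟩ : ∃ m', m = m' + 1 := ⟨m - 1, by omega⟩
        have hev : B (m' + 1) Z.card = 3 / 2 * B m' Z.card := B_ev_n (by omega)
        by_cases h1 : (nb R c (del R a N)).card = 1
        · rw [if_pos h1] at hU2
          have h3 : (((cmp R N Z).filter (fun S => c ∈ S)).card : ℚ) ≤ B m' Z.card :=
            in_bound ih hcN (by omega) (by omega)
          linarith
        · rw [if_neg h1] at hU2
          obtain ⟨m'', rfl⟩ : ∃ m'', m' = m'' + 1 := ⟨m' - 1, by omega⟩
          have hev2 : B (m'' + 1 + 1) Z.card = 3 * B m'' Z.card := B_n2 m'' Z.card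
          have h3 : (((cmp R N Z).filter (fun S => c ∈ S)).card : ℚ) ≤ B m'' Z.card :=
            in_bound ih hcN (by omega) (by omega)
          linarith
    · -- `c` does not attack `a`
      have hcov : (cmp R N Z).card ≤ ((cmp R N Z).filter (fun S => a ∈ S)).card +
          ((cmp R N Z).filter (fun S => a ∉ S ∧ ∀ s ∈ S, ¬ R s a)).card := by
        have hsub : cmp R N Z ⊆ ((cmp R N Z).filter (fun S => a ∈ S)) ∪
          ((cmp R N Z).filter (fun S => a ∉ S ∧ ∀ s ∈ S, ¬ R s a)) := by
          intro S hS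
          rw [mem_union, mem_filter, mem_filter]
          by_cases haS : a ∈ S
          · exact Or.inl ⟨hS, haS⟩
          refine Or.inr ⟨hS, haS, ?_⟩
          intro s hs hsa
          have h1 : s ∈ nb R a N := by
            rw [mem_nb]
            refine ⟨(mem_cmp.mp hS).1 hs, ?_, Or.inr hsa⟩
            rintro rfl
            exact haS hs
          rw [hac, mem_singleton] at h1
          rw [h1] at hsa
          exact hca hsa
        exact (card_le_card hsub).trans (card_union_le _ _)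
      have hcov' : ((cmp R N Z).card : ℚ) ≤ (((cmp R N Z).filter (fun S => a ∈ S)).card : ℚ) +
          (((cmp R N Z).filter (fun S => a ∉ S ∧ ∀ s ∈ S, ¬ R s a)).card : ℚ) := by
        exact_mod_cast hcov
      linarith
  · -- at least two neighbours in `Z`
    obtain ⟨t, ht⟩ : ∃ t, Z.card = t + 2 := ⟨Z.card - 2, by omega⟩
    have hB2 : B m (t + 2) = 4 / 3 * B m t := B_s2 m t
    have h := cover (Z := Z) ha (hirr a ha)
    rw [hac, sum_singleton] at h
    have h' : ((cmp R N Z).card : ℚ) ≤ (((cmp R N Z).filter (fun S => a ∈ S)).card : ℚ) +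
        (((cmp R N Z).filter (fun S => c ∈ S)).card : ℚ) +
        (((cmp R N Z).filter (fun S => a ∉ S ∧ ∀ s ∈ S, ¬ R s a)).card : ℚ) := by
      exact_mod_cast h
    have hin2 : (((cmp R N Z).filter (fun S => a ∈ S)).card : ℚ) ≤ B m t :=
      in_bound ih ha (by omega) (by omega)
    have hinc : (((cmp R N Z).filter (fun S => c ∈ S)).card : ℚ) ≤ 3 / 4 * B m Z.card := by
      by_cases hp1 : (nb R c N).card = 1
      · have h5 := hmin c hcN hp1
        have h6 : (((cmp R N Z).filter (fun S => c ∈ S)).card : ℚ) ≤ B m t :=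
          in_bound ih hcN (by omega) (by omega)
        rw [ht, hB2]
        linarith
      · obtain ⟨m', rfl⟩ : ∃ m', m = m' + 1 := ⟨m - 1, by omega⟩
        have h6 : (((cmp R N Z).filter (fun S => c ∈ S)).card : ℚ) ≤ B m' Z.card :=
          in_bound ih hcN (by omega) (by omega)
        have hev : B (m' + 1) Z.card = 3 / 2 * B m' Z.card := B_ev_n (by omega)
        linarith
    rw [ht] at hun hBs hinc hBp ⊢
    linarith

/-- The bound by the potential. -/
theorem main (k : ℕ) : ∀ N Z : Finset V, N.card = k → (∀ v ∈ N, ¬ R v v) →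
    ((cmp R N Z).card : ℚ) ≤ B N.card Z.card := by
  induction k using Nat.strong_induction_on with
  | _ k ihk =>
  intro N Z hN hirr
  have ih : IH R N := by
    intro N' Z' hsub hlt
    exact ihk N'.card (hN ▸ hlt) N' Z' rfl (fun v hv => hirr v (hsub hv))
  by_cases hA : ∀ v ∈ N, nb R v N = ∅
  · exact caseA hA hirr
  push Not at hA
  obtain ⟨v0, hv0, hv0'⟩ := hA
  have hPne : (N.filter (fun v => (nb R v N).Nonempty)).Nonempty :=
    ⟨v0, mem_filter.mpr ⟨hv0, hv0'⟩⟩
  obtain ⟨a, haP, hmin⟩ := exists_min_image _ (fun v => (nb R v N).card) hPne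
  rw [mem_filter] at haP
  obtain ⟨ha, hane⟩ := haP
  have hp0 : 0 < (nb R a N).card := card_pos.mpr hane
  have hda := card_del_mem (R := R) ha
  rcases Nat.lt_or_ge (nb R a N).card 2 with hp | hp
  · -- exactly one neighbour
    have hp1 : (nb R a N).card = 1 := by omega
    have hPne1 : (N.filter (fun v => (nb R v N).card = 1)).Nonempty :=
      ⟨a, mem_filter.mpr ⟨ha, hp1⟩⟩
    obtain ⟨a', haP', hmin'⟩ := exists_min_image _ (fun v => (nb R v Z).card) hPne1
    rw [mem_filter] at haP'
    obtain ⟨ha', ha1'⟩ := haP'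
    obtain ⟨c, hac⟩ := card_eq_one.mp ha1'
    have hda' := card_del_mem (R := R) ha'
    obtain ⟨m, hm⟩ : ∃ m, N.card = m + 2 := ⟨N.card - 2, by omega⟩
    rw [hm, B_n2]
    rcases Nat.mod_two_eq_zero_or_one (m + Z.card) with hpar | hpar
    · have h := basic (Z := Z) ih ha' (hirr a' ha') m 1 ha1' (by omega) (by
        intro c' hc'
        have hc'N : c' ∈ N := (mem_nb.mp hc').1
        have : 0 < (nb R c' N).card := card_pos.mpr ⟨a', nb_symm hc' ha'⟩
        omega)
      rw [B_ev_s hpar] at h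
      push_cast at h
      linarith
    · exact stepOdd ih hirr ha' hac hm hpar
        (fun v hv hv1 => hmin' v (mem_filter.mpr ⟨hv, hv1⟩))
  · obtain ⟨m, hm⟩ : ∃ m, N.card = m + 1 + (nb R a N).card :=
      ⟨N.card - 1 - (nb R a N).card, by omega⟩
    have h := basic (Z := Z) ih ha (hirr a ha) m _ rfl hm.symm (by
        intro c' hc'
        have hc'N : c' ∈ N := (mem_nb.mp hc').1
        exact hmin c' (mem_filter.mpr ⟨hc'N, ⟨a, nb_symm hc' ha⟩⟩))
    have h2 := B_branch m Z.card _ hp
    rw [← hm] at h2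
    exact h.trans h2

/-! ### The sharper bound for an odd number of arguments, none attacking itself -/

/-- The value for `2 k + 1` arguments. -/
def T : ℕ → ℚ
  | 0 => 1
  | (k + 1) => 4 * 3 ^ k

lemma B_two_mul (k : ℕ) : B (2 * k) 0 = 3 ^ k := by
  unfold B
  have h1 : 2 * k / 2 = k := by omega
  have h2 : 2 * k % 2 = 0 := by omega
  rw [h1, h2]
  norm_num

lemma B_le_T (k : ℕ) : B (2 * k) 0 ≤ T k := by
  rw [B_two_mul]
  cases k with
  | zero => norm_num [T]
  | succ k =>
    have : (0 : ℚ) < 3 ^ k := by positivity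
    simp only [T, pow_succ]
    linarith

lemma T_step (k : ℕ) : 3 * T k ≤ T (k + 1) := by
  cases k with
  | zero => norm_num [T]
  | succ k =>
    simp only [T, pow_succ]
    linarith

lemma del_empty (a : V) : del R a (∅ : Finset V) = ∅ := by
  unfold del
  exact filter_empty _

lemma IH_of_main {N : Finset V} (hirr : ∀ v ∈ N, ¬ R v v) : IH R N := by
  intro N' Z' hsub _
  exact main N'.card N' Z' rfl (fun v hv => hirr v (hsub hv))

/-- an isolated argument -/
lemma isolated {N : Finset V} (hirr : ∀ v ∈ N, ¬ R v v) {a : V} (ha : a ∈ N)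
    (h0 : nb R a N = ∅) : ((cmp R N ∅).card : ℚ) ≤ B (N.card - 1) 0 := by
  have ih := IH_of_main hirr
  have hda := card_del_mem (R := R) ha
  have h1 : ((cmp R N ∅).filter (fun S => a ∈ S)) = cmp R N ∅ := by
    rw [filter_eq_self]
    intro S hS
    obtain ⟨h1, h2, h3⟩ := mem_cmp.mp hS
    rw [h3 a ha]
    intro u hu hua
    exfalso
    rw [union_empty] at hu
    have : u ∈ nb R a N := by
      rw [mem_nb]
      refine ⟨hu, ?_, Or.inr hua⟩
      rintro rfl
      exact hirr _ ha hua
    rw [h0] at this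
    simp at this
  have h2 : (((cmp R N ∅).filter (fun S => a ∈ S)).card : ℚ) ≤ B (N.card - 1) 0 := by
    refine in_bound ih ha ?_ ?_
    · rw [h0, card_empty] at hda
      omega
    · rw [del_empty, card_empty]
  rw [h1] at h2
  exact h2

/-- `in` branch with the sharper bound -/
lemma in_bound_T {k : ℕ} (ihk : ∀ N : Finset V, N.card = 2 * k + 1 → (∀ v ∈ N, ¬ R v v) →
    ((cmp R N ∅).card : ℚ) ≤ T k) {N : Finset V} (hirr : ∀ v ∈ N, ¬ R v v) {c : V}
    (hc : c ∈ N) (hN : N.card = 2 * k + 3) (h1 : 1 ≤ (nb R c N).card) :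
    (((cmp R N ∅).filter (fun S => c ∈ S)).card : ℚ) ≤ T k := by
  have hdc := card_del_mem (R := R) hc
  by_cases hp1 : (nb R c N).card = 1
  · have h1 : ((cmp R N ∅).filter (fun S => c ∈ S)).card ≤
        (cmp R (del R c N) (del R c ∅)).card :=
      count {c} (fun S => c ∈ S) (fun S hS (hcS : c ∈ S) =>
        ⟨singleton_subset_iff.mpr hcS, cmp_in hS hcS⟩)
    rw [del_empty] at h1
    have h2 := ihk (del R c N) (by omega) (fun v hv => hirr v (del_subset N c hv))
    exact le_trans (by exact_mod_cast h1) h2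
  · refine le_trans (in_bound (m := 2 * k) (t := 0) (IH_of_main hirr) hc (by omega) ?_) (B_le_T k)
    rw [del_empty, card_empty]

/-- the case of a vertex with one neighbour -/
lemma oddOne {k : ℕ} (ihk : ∀ N : Finset V, N.card = 2 * k + 1 → (∀ v ∈ N, ¬ R v v) →
    ((cmp R N ∅).card : ℚ) ≤ T k) {N : Finset V} (hirr : ∀ v ∈ N, ¬ R v v) {a c : V}
    (ha : a ∈ N) (hN : N.card = 2 * k + 3) (hac : nb R a N = {c}) :
    ((cmp R N ∅).card : ℚ) ≤ 3 * T k := by
  have ih := IH_of_main hirr
  have hc : c ∈ nb R a N := by rw [hac]; exact mem_singleton_self c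
  have hcN : c ∈ N := (mem_nb.mp hc).1
  have hna : (nb R a N).card = 1 := by rw [hac]; exact card_singleton c
  have hnc := card_nb_del ha hac
  have hda := card_del_mem (R := R) ha
  have h1 := in_bound_T ihk hirr ha hN (by omega)
  have h2 := in_bound_T ihk hirr hcN hN (by omega)
  have hsub : cmp R N ∅ ⊆ ((cmp R N ∅).filter (fun S => a ∈ S)) ∪
      ((cmp R N ∅).filter (fun S => c ∈ S)) ∪
      ((cmp R N ∅).filter
        (fun S => a ∉ S ∧ c ∉ S ∧ (∀ s ∈ S, ¬ R s a) ∧ ∀ s ∈ S, ¬ R s c)) := by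
    intro S hS
    rw [mem_union, mem_union, mem_filter, mem_filter, mem_filter]
    by_cases haS : a ∈ S
    · exact Or.inl (Or.inl ⟨hS, haS⟩)
    by_cases hcS : c ∈ S
    · exact Or.inl (Or.inr ⟨hS, hcS⟩)
    have haa : ∀ s ∈ S, ¬ R s a := by
      intro s hs hsa
      have h1 : s ∈ nb R a N := by
        rw [mem_nb]
        refine ⟨(mem_cmp.mp hS).1 hs, ?_, Or.inr hsa⟩
        rintro rfl
        exact haS hs
      rw [hac, mem_singleton] at h1
      rw [h1] at hs
      exact hcS hs
    refine Or.inr ⟨hS, haS, hcS, haa, ?_⟩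
    by_contra hcc
    push Not at hcc
    obtain ⟨b, hb, -⟩ := U2_attacker hirr ha hac hS haS hcc
    rw [mem_nb] at hb
    simp at hb
  have hcov : (cmp R N ∅).card ≤ ((cmp R N ∅).filter (fun S => a ∈ S)).card +
      ((cmp R N ∅).filter (fun S => c ∈ S)).card +
      ((cmp R N ∅).filter
        (fun S => a ∉ S ∧ c ∉ S ∧ (∀ s ∈ S, ¬ R s a) ∧ ∀ s ∈ S, ¬ R s c)).card := by
    refine (card_le_card hsub).trans ?_
    refine (card_union_le _ _).trans ?_
    refine Nat.add_le_add_right ?_ _
    exact card_union_le _ _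
  have hcov' : ((cmp R N ∅).card : ℚ) ≤ (((cmp R N ∅).filter (fun S => a ∈ S)).card : ℚ) +
      (((cmp R N ∅).filter (fun S => c ∈ S)).card : ℚ) +
      (((cmp R N ∅).filter
        (fun S => a ∉ S ∧ c ∉ S ∧ (∀ s ∈ S, ¬ R s a) ∧ ∀ s ∈ S, ¬ R s c)).card : ℚ) := by
    exact_mod_cast hcov
  have h3 : (((cmp R N ∅).filter
      (fun S => a ∉ S ∧ c ∉ S ∧ (∀ s ∈ S, ¬ R s a) ∧ ∀ s ∈ S, ¬ R s c)).card : ℚ) ≤ T k := by
    by_cases h0 : (nb R c (del R a N)).card = 0
    · have hcnt : ((cmp R N ∅).filter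
          (fun S => a ∉ S ∧ c ∉ S ∧ (∀ s ∈ S, ¬ R s a) ∧ ∀ s ∈ S, ¬ R s c)).card ≤
          (cmp R (del R c (del R a N)) ∅).card := by
        refine count0 (fun S => a ∉ S ∧ c ∉ S ∧ (∀ s ∈ S, ¬ R s a) ∧ ∀ s ∈ S, ¬ R s c) ?_
        intro S hS hP
        have h := un2 hS ha (mem_union_right _ hc) hP.1 hP.2.1 hP.2.2.1 hP.2.2.2
        have e1 : nb R c (del R a N) = ∅ := card_eq_zero.mp h0
        rw [e1, hac] at h
        have e2 : ((∅ : Finset V).erase a ∪ {c}).erase c ∪ ∅ = ∅ := by
          ext v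
          simp
        rw [e2] at h
        exact h
      have hdc := card_del_notMem (R := R) (nb_notMem_del hc)
      have h4 := ihk (del R c (del R a N)) (by omega)
        (fun v hv => hirr v (del_subset _ _ (del_subset _ _ hv)))
      exact le_trans (by exact_mod_cast hcnt) h4
    · have h5 := U1_bound (Z := ∅) ih ha hac (m := 2 * k + 1) (by omega)
      rw [if_neg h0, card_empty, B_ev_n (by omega)] at h5
      have h6 := B_le_T k
      linarith
  linarith

/-- in the undecided branch the neighbours are not accepted -/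
lemma un_nb {N Z S : Finset V} {a b : V} (hS : S ∈ cmp R N Z) (ha : a ∈ N)
    (haa : ∀ s ∈ S, ¬ R s a) (hb : b ∈ nb R a N) : b ∉ S := by
  intro hbS
  obtain ⟨h1, h2, h3⟩ := mem_cmp.mp hS
  rcases (mem_nb.mp hb).2.2 with h | h
  · obtain ⟨s, hs, hsa⟩ := (h3 b (h1 hbS)).mp hbS a (mem_union_left _ ha) h
    exact haa s hs hsa
  · exact haa b hbS h

/-- the undecided branch for a vertex with two neighbours of degree two -/
lemma oddTwoUn {k : ℕ} {N : Finset V} (hirr : ∀ v ∈ N, ¬ R v v) {a b c : V}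
    (ha : a ∈ N) (hN : N.card = 2 * k + 3) (hbc : b ≠ c) (hab : nb R a N = {b, c})
    (hb2 : (nb R b N).card = 2) (hc2 : (nb R c N).card = 2)
    (hmin : ∀ v ∈ N, 2 ≤ (nb R v N).card) :
    (((cmp R N ∅).filter (fun S => a ∉ S ∧ ∀ s ∈ S, ¬ R s a)).card : ℚ) ≤ B (2 * k) 0 := by
  have ih := IH_of_main hirr
  have hb : b ∈ nb R a N := by rw [hab]; exact mem_insert_self _ _
  have hc : c ∈ nb R a N := by
    rw [hab]
    exact mem_insert_of_mem (mem_singleton_self _)
  have hbN : b ∈ N := (mem_nb.mp hb).1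
  have hcN : c ∈ N := (mem_nb.mp hc).1
  have hna : (nb R a N).card = 2 := by rw [hab]; exact card_pair hbc
  have hda := card_del_mem (R := R) ha
  have habm := nb_symm hb ha
  have hacm := nb_symm hc ha
  have hba : b ≠ a := (mem_nb.mp hb).2.1
  have hca : c ≠ a := (mem_nb.mp hc).2.1
  have hZ2 : (∅ : Finset V).erase a ∪ nb R a N = {b, c} := by
    rw [erase_empty, empty_union, hab]
  -- description of neighbourhoods inside `del R a N`
  have hdesc : ∀ x : V, x ∈ nb R a N → ∀ y : V, y ∈ nb R x N → y = a ∨ y = b ∨ y = c ∨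
      y ∈ nb R x (del R a N) := by
    intro x _ y hy
    by_cases h1 : y = a
    · exact Or.inl h1
    by_cases h2 : y ∈ nb R a N
    · rw [hab, mem_insert, mem_singleton] at h2
      tauto
    · right; right; right
      rw [mem_nb] at hy h2 ⊢
      rw [mem_del]
      tauto
  -- attackers
  have hatt : ∀ S ∈ cmp R N ∅, a ∉ S → (∀ s ∈ S, ¬ R s a) →
      (∀ s ∈ S, ¬ R s b) ∨ (∀ s ∈ S, ¬ R s c) := by
    intro S hS haS _
    obtain ⟨h1, h2, h3⟩ := mem_cmp.mp hS
    have h4 : ¬ ∀ u ∈ N ∪ ∅, R u a → ∃ s ∈ S, R s u := fun h => haS ((h3 a ha).mpr h)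
    push Not at h4
    obtain ⟨u, hu, hua, huS⟩ := h4
    rw [union_empty] at hu
    have h5 : u ∈ nb R a N := by
      rw [mem_nb]
      refine ⟨hu, ?_, Or.inr hua⟩
      rintro rfl
      exact hirr _ ha hua
    rw [hab, mem_insert, mem_singleton] at h5
    rcases h5 with rfl | rfl
    · exact Or.inl huS
    · exact Or.inr huS
  -- counting `Q1`
  have hQ1 : (((cmp R N ∅).filter
      (fun S => a ∉ S ∧ (∀ s ∈ S, ¬ R s a) ∧ ∀ s ∈ S, ¬ R s b)).card : ℚ) ≤
      B (2 * k - (nb R b (del R a N)).card) (1 + (nb R b (del R a N)).card) := by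
    have hcnt : ((cmp R N ∅).filter
        (fun S => a ∉ S ∧ (∀ s ∈ S, ¬ R s a) ∧ ∀ s ∈ S, ¬ R s b)).card ≤
        (cmp R (del R b (del R a N)) (({b, c} : Finset V).erase b ∪ nb R b (del R a N))).card := by
      refine count0 (fun S => a ∉ S ∧ (∀ s ∈ S, ¬ R s a) ∧ ∀ s ∈ S, ¬ R s b) ?_
      intro S hS hP
      have h := un2 (c := b) hS ha (mem_union_right _ hb) hP.1 (un_nb hS ha hP.2.1 hb) hP.2.1
        hP.2.2
      rw [hZ2] at h
      exact h
    have hdb := card_del_notMem (R := R) (nb_notMem_del hb)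
    have h2 := ih (del R b (del R a N)) (({b, c} : Finset V).erase b ∪ nb R b (del R a N))
      ((del_subset _ _).trans (del_subset _ _)) (by omega)
    refine le_trans (by exact_mod_cast hcnt) (h2.trans (B_mono (by omega) ?_))
    refine (card_union_le _ _).trans (Nat.add_le_add_right ?_ _)
    have : (({b, c} : Finset V).erase b) ⊆ {c} := by
      intro v hv
      rw [mem_erase, mem_insert] at hv
      tauto
    exact (card_le_card this).trans (card_singleton c).le
  by_cases hadj : c ∈ nb R b N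
  · -- triangle
    have hnb : nb R b N = {a, c} := by
      symm
      apply eq_of_subset_of_card_le
      · intro v hv
        rw [mem_insert, mem_singleton] at hv
        rcases hv with rfl | rfl
        · exact habm
        · exact hadj
      · rw [hb2, card_pair hca.symm]
    have hr : nb R b (del R a N) = ∅ := by
      rw [eq_empty_iff_forall_notMem]
      intro v hv
      have h1 : v ∈ nb R b N := by
        rw [mem_nb] at hv ⊢
        exact ⟨del_subset N a hv.1, hv.2⟩
      rw [hnb, mem_insert, mem_singleton] at h1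
      have h2 := (mem_nb.mp hv).1
      rcases h1 with rfl | rfl
      · exact (mem_del.mp h2).2.1 rfl
      · exact nb_notMem_del hc h2
    rw [hr, card_empty, Nat.sub_zero, Nat.add_zero, show (1 : ℕ) = 0 + 1 from rfl,
      B_ev_s (by omega)] at hQ1
    refine le_trans ?_ hQ1
    have hle : ((cmp R N ∅).filter (fun S => a ∉ S ∧ ∀ s ∈ S, ¬ R s a)).card ≤
        ((cmp R N ∅).filter
          (fun S => a ∉ S ∧ (∀ s ∈ S, ¬ R s a) ∧ ∀ s ∈ S, ¬ R s b)).card := by
      apply card_le_card
      intro S hS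
      rw [mem_filter] at hS ⊢
      obtain ⟨hS, haS, haa⟩ := hS
      refine ⟨hS, haS, haa, ?_⟩
      intro s hs hsb
      have h1 : s ∈ nb R b N := by
        rw [mem_nb]
        refine ⟨(mem_cmp.mp hS).1 hs, ?_, Or.inr hsb⟩
        rintro rfl
        exact un_nb hS ha haa hb hs
      rw [hnb, mem_insert, mem_singleton] at h1
      rcases h1 with rfl | rfl
      · exact haS hs
      · exact un_nb hS ha haa hc hs
    exact_mod_cast hle
  · -- `b` and `c` are not adjacent
    have hr : (nb R b (del R a N)).card = 1 := by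
      have h1 : nb R b N = insert a (nb R b (del R a N)) := by
        ext v
        rw [mem_insert]
        constructor
        · intro hv
          rcases hdesc b hb v hv with h | h | h | h
          · exact Or.inl h
          · subst h
            exact absurd rfl (mem_nb.mp hv).2.1
          · subst h
            exact absurd hv hadj
          · exact Or.inr h
        · rintro (rfl | hv)
          · exact habm
          · rw [mem_nb] at hv ⊢
            exact ⟨del_subset N a hv.1, hv.2⟩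
      rw [h1, card_insert_of_notMem] at hb2
      · omega
      · intro h
        have := (mem_nb.mp h).1
        exact (mem_del.mp this).2.1 rfl
    obtain ⟨b', hb'⟩ := card_eq_one.mp hr
    have hb'm : b' ∈ nb R b (del R a N) := by rw [hb']; exact mem_singleton_self _
    have hb'd : b' ∈ del R a N := (mem_nb.mp hb'm).1
    have hb'N : b' ∈ N := del_subset N a hb'd
    obtain ⟨k', rfl⟩ : ∃ k', k = k' + 1 := by
      have hp : 0 < (del R a N).card := card_pos.mpr ⟨b', hb'd⟩
      exact ⟨k - 1, by omega⟩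
    have hθ : B (2 * (k' + 1)) 0 = 3 * B (2 * k') 0 := B_n2 (2 * k') 0
    have hθ1 : B (2 * k' + 1) 0 = 3 / 2 * B (2 * k') 0 := B_ev_n (by omega)
    have hBp := B_pos (2 * k') 0
    have hQ1' : (((cmp R N ∅).filter
        (fun S => a ∉ S ∧ (∀ s ∈ S, ¬ R s a) ∧ ∀ s ∈ S, ¬ R s b)).card : ℚ) ≤
        2 * B (2 * k') 0 := by
      rw [hr] at hQ1
      have e1 : 2 * (k' + 1) - 1 = 2 * k' + 1 := by omega
      have e2 : B (2 * k' + 1) (1 + 1) = 4 / 3 * B (2 * k' + 1) 0 := B_s2 _ 0
      rw [e1, e2, hθ1] at hQ1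
      linarith
    -- `Q2`
    have hQ2 : (((cmp R N ∅).filter
        (fun S => a ∉ S ∧ (∀ s ∈ S, ¬ R s a) ∧ (∃ s ∈ S, R s b) ∧ ∀ s ∈ S, ¬ R s c)).card : ℚ) ≤
        B (2 * k') 0 := by
      by_cases hemp : ((cmp R N ∅).filter
        (fun S => a ∉ S ∧ (∀ s ∈ S, ¬ R s a) ∧ (∃ s ∈ S, R s b) ∧ ∀ s ∈ S, ¬ R s c)) = ∅
      · rw [hemp, card_empty]
        push_cast
        exact hBp.le
      have hb'S : ∀ S ∈ cmp R N ∅, (a ∉ S ∧ (∀ s ∈ S, ¬ R s a) ∧ (∃ s ∈ S, R s b) ∧
          ∀ s ∈ S, ¬ R s c) → b' ∈ S := by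
        rintro S hS ⟨haS, haa, ⟨s, hs, hsb⟩, hcc⟩
        have h1 : s ∈ nb R b N := by
          rw [mem_nb]
          refine ⟨(mem_cmp.mp hS).1 hs, ?_, Or.inr hsb⟩
          rintro rfl
          exact un_nb hS ha haa hb hs
        rcases hdesc b hb s h1 with h | h | h | h
        · subst h; exact absurd hs haS
        · subst h; exact absurd hs (un_nb hS ha haa hb)
        · subst h; exact absurd hs (un_nb hS ha haa hc)
        · rw [hb', mem_singleton] at h
          rw [← h]
          exact hs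
      have hmemS : ∀ S ∈ cmp R N ∅, (a ∉ S ∧ (∀ s ∈ S, ¬ R s a) ∧ (∃ s ∈ S, R s b) ∧
          ∀ s ∈ S, ¬ R s c) → S ∈ cmp R ((del R c (del R a N)).erase b)
            ((({b, c} : Finset V).erase c ∪ nb R c (del R a N)).erase b) := by
        rintro S hS ⟨haS, haa, hbb, hcc⟩
        have h := un2 (c := c) hS ha (mem_union_right _ hc) haS (un_nb hS ha haa hc) haa hcc
        rw [hZ2] at h
        exact cmp_out h hbb
      obtain ⟨S0, hS0⟩ := Finset.nonempty_iff_ne_empty.mpr hemp
      rw [mem_filter] at hS0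
      have hb'0 := hb'S S0 hS0.1 hS0.2
      have hb'N3 : b' ∈ (del R c (del R a N)).erase b :=
        (mem_cmp.mp (hmemS S0 hS0.1 hS0.2)).1 hb'0
      have hb'c : b' ∉ nb R c N := by
        intro h
        have h1 := (mem_erase.mp hb'N3).2
        rw [mem_nb] at h
        rw [mem_del] at h1
        tauto
      set N3 := (del R c (del R a N)).erase b with hN3
      set Z3 := (({b, c} : Finset V).erase c ∪ nb R c (del R a N)).erase b with hZ3
      have hcnt : ((cmp R N ∅).filter
          (fun S => a ∉ S ∧ (∀ s ∈ S, ¬ R s a) ∧ (∃ s ∈ S, R s b) ∧ ∀ s ∈ S, ¬ R s c)).card ≤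
          (cmp R (del R b' N3) (del R b' Z3)).card := by
        refine count {b'} (fun S => a ∉ S ∧ (∀ s ∈ S, ¬ R s a) ∧ (∃ s ∈ S, R s b) ∧
          ∀ s ∈ S, ¬ R s c) ?_
        intro S hS hP
        exact ⟨singleton_subset_iff.mpr (hb'S S hS hP), cmp_in (hmemS S hS hP) (hb'S S hS hP)⟩
      -- sizes
      have hN3sub : N3 ⊆ del R a N := (erase_subset _ _).trans (del_subset _ _)
      have hZ3sub : Z3 ⊆ nb R c (del R a N) := by
        intro v hv
        rw [hZ3, mem_erase, mem_union, mem_erase, mem_insert, mem_singleton] at hv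
        tauto
      have hZ3sub' : Z3 ⊆ del R a N := hZ3sub.trans (filter_subset _ _)
      have hdisj : Disjoint (del R b' N3) (del R b' Z3) := by
        rw [Finset.disjoint_left]
        intro v hv hv'
        have h1 := hZ3sub (del_subset _ _ hv')
        have h2 := (mem_erase.mp (del_subset _ _ hv)).2
        rw [mem_nb] at h1
        rw [mem_del] at h2
        tauto
      have hdelmono : ∀ X : Finset V, X ⊆ del R a N → del R b' X ⊆ del R b' (del R a N) := by
        intro X hX v hv
        rw [mem_del] at hv ⊢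
        exact ⟨hX hv.1, hv.2⟩
      have hunion : (del R b' N3).card + (del R b' Z3).card ≤ (del R b' (del R a N)).card := by
        rw [← card_union_of_disjoint hdisj]
        exact card_le_card (union_subset (hdelmono _ hN3sub) (hdelmono _ hZ3sub'))
      have hdb' := card_del_mem (R := R) hb'd
      -- `b'` has a neighbour in `del R a N`
      have hnb' : 1 ≤ (nb R b' (del R a N)).card := by
        have h2 := hmin b' hb'N
        obtain ⟨b'', hb'', hne⟩ := exists_mem_ne (show 1 < (nb R b' N).card by omega) b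
        rw [Nat.one_le_iff_ne_zero, ← Nat.pos_iff_ne_zero, card_pos]
        refine ⟨b'', ?_⟩
        have h3 : b'' ≠ a := by
          rintro rfl
          rw [mem_nb] at hb''
          rw [mem_del] at hb'd
          tauto
        have h4 : b'' ∉ nb R a N := by
          intro h
          rw [hab, mem_insert, mem_singleton] at h
          rcases h with h | h
          · exact hne h
          · subst h
            exact hb'c (nb_symm hb'' hb'N)
        rw [mem_nb] at hb'' h4 ⊢
        rw [mem_del]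
        tauto
      have hsubN : del R b' N3 ⊆ N :=
        (del_subset _ _).trans (hN3sub.trans (del_subset _ _))
      have h6 := ih (del R b' N3) (del R b' Z3) hsubN (by omega)
      have h7 := B_conv (del R b' N3).card 0 (del R b' Z3).card
      rw [Nat.zero_add] at h7
      refine le_trans (by exact_mod_cast hcnt) (h6.trans (h7.trans (B_mono (by omega) le_rfl)))
    have hle : ((cmp R N ∅).filter (fun S => a ∉ S ∧ ∀ s ∈ S, ¬ R s a)).card ≤
        ((cmp R N ∅).filter
          (fun S => a ∉ S ∧ (∀ s ∈ S, ¬ R s a) ∧ ∀ s ∈ S, ¬ R s b)).card +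
        ((cmp R N ∅).filter
        (fun S => a ∉ S ∧ (∀ s ∈ S, ¬ R s a) ∧ (∃ s ∈ S, R s b) ∧ ∀ s ∈ S, ¬ R s c)).card := by
      refine (card_le_card ?_).trans (card_union_le _ _)
      intro S hS
      rw [mem_union, mem_filter, mem_filter]
      rw [mem_filter] at hS
      obtain ⟨hS, haS, haa⟩ := hS
      by_cases hbb : ∃ s ∈ S, R s b
      · right
        refine ⟨hS, haS, haa, hbb, ?_⟩
        rcases hatt S hS haS haa with h | h
        · obtain ⟨s, hs, hsb⟩ := hbb
          exact absurd hsb (h s hs)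
        · exact h
      · left
        push Not at hbb
        exact ⟨hS, haS, haa, hbb⟩
    have hle' : (((cmp R N ∅).filter (fun S => a ∉ S ∧ ∀ s ∈ S, ¬ R s a)).card : ℚ) ≤
        (((cmp R N ∅).filter
          (fun S => a ∉ S ∧ (∀ s ∈ S, ¬ R s a) ∧ ∀ s ∈ S, ¬ R s b)).card : ℚ) +
        (((cmp R N ∅).filter
        (fun S => a ∉ S ∧ (∀ s ∈ S, ¬ R s a) ∧ (∃ s ∈ S, R s b) ∧ ∀ s ∈ S, ¬ R s c)).card : ℚ) := by
      exact_mod_cast hle
    linarith

/-- **The odd case.** -/
theorem mainOdd (k : ℕ) : ∀ N : Finset V, N.card = 2 * k + 1 → (∀ v ∈ N, ¬ R v v) →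
    ((cmp R N ∅).card : ℚ) ≤ T k := by
  induction k with
  | zero =>
    intro N hN hirr
    obtain ⟨a, ha⟩ : N.Nonempty := card_pos.mp (by omega)
    have hda := card_del_mem (R := R) ha
    have h := isolated hirr ha (card_eq_zero.mp (by omega))
    rw [show N.card - 1 = 0 by omega, B_zz] at h
    simpa [T] using h
  | succ k ihk =>
    intro N hN hirr
    have ih := IH_of_main hirr
    have hN' : N.card = 2 * k + 3 := by omega
    have hNne : N.Nonempty := card_pos.mp (by omega)
    have hTk : T (k + 1) = 4 * B (2 * k) 0 := by rw [B_two_mul]; rfl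
    have hBp := B_pos (2 * k) 0
    obtain ⟨a, ha, hmin⟩ := exists_min_image N (fun v => (nb R v N).card) hNne
    have hda := card_del_mem (R := R) ha
    have hcases : (nb R a N).card = 0 ∨ (nb R a N).card = 1 ∨ (nb R a N).card = 2 ∨
        3 ≤ (nb R a N).card := by omega
    rcases hcases with h0 | h1 | h2 | h3
    · have h := isolated hirr ha (card_eq_zero.mp h0)
      rw [show N.card - 1 = 2 * k + 2 by omega, B_n2] at h
      linarith
    · obtain ⟨c, hac⟩ := card_eq_one.mp h1
      exact (oddOne ihk hirr ha hN' hac).trans (T_step k)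
    · obtain ⟨b, c, hbc, hab⟩ := card_eq_two.mp h2
      have hb : b ∈ nb R a N := by rw [hab]; exact mem_insert_self _ _
      have hc : c ∈ nb R a N := by
        rw [hab]
        exact mem_insert_of_mem (mem_singleton_self _)
      have hbN : b ∈ N := (mem_nb.mp hb).1
      have hcN : c ∈ N := (mem_nb.mp hc).1
      have hdb := card_del_mem (R := R) hbN
      have hdc := card_del_mem (R := R) hcN
      have hmb := hmin b hbN
      have hmc := hmin c hcN
      have hcov := cover (Z := ∅) ha (hirr a ha)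
      rw [hab, sum_pair hbc] at hcov
      have hcov' : ((cmp R N ∅).card : ℚ) ≤ (((cmp R N ∅).filter (fun S => a ∈ S)).card : ℚ) +
          ((((cmp R N ∅).filter (fun S => b ∈ S)).card : ℚ) +
          (((cmp R N ∅).filter (fun S => c ∈ S)).card : ℚ)) +
          (((cmp R N ∅).filter (fun S => a ∉ S ∧ ∀ s ∈ S, ¬ R s a)).card : ℚ) := by
        exact_mod_cast hcov
      have hza : (del R a (∅ : Finset V)).card ≤ 0 := by rw [del_empty, card_empty]
      have hzb : (del R b (∅ : Finset V)).card ≤ 0 := by rw [del_empty, card_empty]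
      have hzc : (del R c (∅ : Finset V)).card ≤ 0 := by rw [del_empty, card_empty]
      have hia : (((cmp R N ∅).filter (fun S => a ∈ S)).card : ℚ) ≤ B (2 * k) 0 :=
        in_bound ih ha (by omega) hza
      have hib : (((cmp R N ∅).filter (fun S => b ∈ S)).card : ℚ) ≤ B (2 * k) 0 :=
        in_bound ih hbN (by omega) hzb
      have hic : (((cmp R N ∅).filter (fun S => c ∈ S)).card : ℚ) ≤ B (2 * k) 0 :=
        in_bound ih hcN (by omega) hzc
      have hun : (((cmp R N ∅).filter (fun S => a ∉ S ∧ ∀ s ∈ S, ¬ R s a)).card : ℚ) ≤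
          B (2 * k) 2 := un_bound ih ha (by omega) (by rw [card_empty]; omega)
      have hB2 : B (2 * k) 2 = 4 / 3 * B (2 * k) 0 := B_s2 _ 0
      rw [hTk]
      by_cases hb2 : (nb R b N).card = 2
      · by_cases hc2 : (nb R c N).card = 2
        · have h := oddTwoUn hirr ha hN' hbc hab hb2 hc2 (fun v hv => h2 ▸ hmin v hv)
          linarith
        · obtain ⟨m', hm'⟩ : ∃ m', 2 * k = m' + 1 := ⟨2 * k - 1, by omega⟩
          have e : B (m' + 1) 0 = 2 * B m' 0 := B_od_n (by omega)
          have hic' : (((cmp R N ∅).filter (fun S => c ∈ S)).card : ℚ) ≤ B m' 0 :=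
            in_bound ih hcN (by omega) hzc
          rw [← hm'] at e
          linarith
      · obtain ⟨m', hm'⟩ : ∃ m', 2 * k = m' + 1 := ⟨2 * k - 1, by omega⟩
        have e : B (m' + 1) 0 = 2 * B m' 0 := B_od_n (by omega)
        have hib' : (((cmp R N ∅).filter (fun S => b ∈ S)).card : ℚ) ≤ B m' 0 :=
          in_bound ih hbN (by omega) hzb
        rw [← hm'] at e
        linarith
    · obtain ⟨m, hm⟩ : ∃ m, N.card = m + 1 + (nb R a N).card :=
        ⟨N.card - 1 - (nb R a N).card, by omega⟩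
      have h := basic (Z := ∅) ih ha (hirr a ha) m _ rfl hm.symm (fun c' hc' =>
        hmin c' (mem_nb.mp hc').1)
      rw [card_empty, Nat.zero_add] at h
      have h2 := B_branch3 m _ h3
      rw [← hm, hN', show 2 * k + 3 = 2 * k + 1 + 2 by omega, B_n2, B_ev_n (by omega)] at h2
      rw [hTk]
      linarith

end Step

end Count

/-! ### The upper bound -/

section Upper

open scoped Classical

lemma complete_iff {V : Type*} [Fintype V] (R : V → V → Prop) (S : Finset V) :
    Complete R (S : Set V) ↔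
      S ∈ cmp R (univ.filter (fun v => ¬ R v v)) (univ.filter (fun v => R v v)) := by
  rw [mem_cmp]
  unfold Complete Admissible ConflictFree Defends
  constructor
  · rintro ⟨⟨h1, h2⟩, h3⟩
    refine ⟨?_, fun s hs t ht => h1 s hs t ht, ?_⟩
    · intro s hs
      rw [mem_filter]
      exact ⟨mem_univ _, h1 s hs s hs⟩
    · intro v _
      constructor
      · intro hvS u _ huv
        exact h2 v hvS u huv
      · intro h
        apply h3 v
        intro u huv
        refine h u ?_ huv
        rw [mem_union, mem_filter, mem_filter]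
        by_cases h4 : R u u
        · exact Or.inr ⟨mem_univ _, h4⟩
        · exact Or.inl ⟨mem_univ _, h4⟩
  · rintro ⟨h1, h2, h3⟩
    have hmem : ∀ u : V, u ∈ (univ.filter (fun v => ¬ R v v)) ∪ (univ.filter (fun v => R v v)) := by
      intro u
      rw [mem_union, mem_filter, mem_filter]
      by_cases h4 : R u u
      · exact Or.inr ⟨mem_univ _, h4⟩
      · exact Or.inl ⟨mem_univ _, h4⟩
    refine ⟨⟨fun s hs t ht => h2 s hs t ht, ?_⟩, ?_⟩
    · intro v hv u huv
      exact (h3 v (h1 hv)).mp hv u (hmem u) huv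
    · intro v hv
      have hvv : ¬ R v v := by
        intro hvv
        obtain ⟨c, hc, hcv⟩ := hv v hvv
        obtain ⟨d, hd, hdc⟩ := hv c hcv
        exact h2 d hd c hc hdc
      exact (h3 v (by rw [mem_filter]; exact ⟨mem_univ _, hvv⟩)).mpr (fun u _ huv => hv u huv)

lemma ncard_com {V : Type*} [Fintype V] (R : V → V → Prop) :
    (com R).ncard =
      (cmp R (univ.filter (fun v => ¬ R v v)) (univ.filter (fun v => R v v))).card := by
  have h : com R = (fun S : Finset V => (S : Set V)) ''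
      (↑(cmp R (univ.filter (fun v => ¬ R v v)) (univ.filter (fun v => R v v))) :
        Set (Finset V)) := by
    ext S
    constructor
    · intro hS
      refine ⟨S.toFinset, ?_, by simp⟩
      rw [Finset.mem_coe, ← complete_iff, Set.coe_toFinset]
      exact hS
    · rintro ⟨T, hT, rfl⟩
      rw [Finset.mem_coe, ← complete_iff] at hT
      exact hT
  rw [h, Set.ncard_image_of_injective _ Finset.coe_injective, Set.ncard_coe_finset]

lemma B_le_conj {n s : ℕ} (hs : 1 ≤ s) : B n s ≤ (conj (n + s) : ℚ) := by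
  obtain ⟨j, rfl⟩ : ∃ j, s = 1 + j := ⟨s - 1, by omega⟩
  have h1 : B n (1 + j) ≤ B (n + j) 1 := B_conv n 1 j
  refine h1.trans ?_
  rw [show n + (1 + j) = n + j + 1 by omega]
  generalize n + j = m
  rcases Nat.even_or_odd' m with ⟨k, rfl | rfl⟩
  · rw [show (1 : ℕ) = 0 + 1 from rfl, B_ev_s (by omega), B_two_mul]
    unfold conj
    split_ifs with h1 h2
    · have : k = 0 := by omega
      subst this
      norm_num
    · omega
    · obtain ⟨k', rfl⟩ : ∃ k', k = k' + 1 := ⟨k - 1, by omega⟩
      rw [show (2 * (k' + 1) + (0 + 1) - 3) / 2 = k' by omega]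
      push_cast
      have : (0 : ℚ) < 3 ^ k' := by positivity
      rw [pow_succ]
      linarith
  · have h2 := B_conv1 (2 * k + 1) 0
    rw [show 2 * k + 1 + 1 = 2 * k + 2 by omega, B_n2, B_two_mul] at h2
    rw [show (1 : ℕ) = 0 + 1 from rfl, h2]
    unfold conj
    rw [if_neg (by omega), if_pos (by omega), show (2 * k + (0 + 1) + (0 + 1)) / 2 = k + 1 by omega]
    push_cast
    have : (0 : ℚ) < 3 ^ k := by positivity
    rw [pow_succ]
    linarith

/-- **Upper bound.** -/
theorem upper {V : Type*} [Fintype V] (R : V → V → Prop) :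
    (com R).ncard ≤ conj (Fintype.card V) := by
  rw [ncard_com]
  set N := univ.filter (fun v => ¬ R v v) with hN
  set Z := univ.filter (fun v => R v v) with hZ
  have hirr : ∀ v ∈ N, ¬ R v v := by
    intro v hv
    rw [hN, mem_filter] at hv
    exact hv.2
  have hcard : N.card + Z.card = Fintype.card V := by
    rw [add_comm, hN, hZ, Finset.card_filter_add_card_filter_not, card_univ]
  rw [← hcard]
  have hq : ((cmp R N Z).card : ℚ) ≤ (conj (N.card + Z.card) : ℚ) := by
    have hm := main N.card N Z rfl hirr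
    rcases Nat.eq_zero_or_pos Z.card with h0 | h0
    · have hZ0 : Z = ∅ := card_eq_zero.mp h0
      rw [h0] at hm ⊢
      rw [Nat.add_zero]
      rcases Nat.even_or_odd' N.card with ⟨k, hk | hk⟩
      · rw [hk, B_two_mul] at hm
        rw [hk]
        refine hm.trans ?_
        unfold conj
        split_ifs with h1 h2
        · have : k = 0 := by omega
          subst this
          norm_num
        · rw [show 2 * k / 2 = k by omega]
          push_cast
          exact le_rfl
        · omega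
      · have h3 := mainOdd k N hk hirr
        rw [← hZ0] at h3
        rw [hk]
        refine h3.trans ?_
        unfold conj
        cases k with
        | zero => norm_num [T]
        | succ k =>
          rw [if_neg (by omega), if_neg (by omega), show (2 * (k + 1) + 1 - 3) / 2 = k by omega]
          simp [T]
    · exact hm.trans (B_le_conj h0)
  exact_mod_cast hq

end Upper

/-! ### The lower bound -/

section Lower

/-- Disjoint union of frameworks. -/
def sumRel {V W : Type*} (R : V → V → Prop) (Q : W → W → Prop) : V ⊕ W → V ⊕ W → Prop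
  | Sum.inl a, Sum.inl b => R a b
  | Sum.inr a, Sum.inr b => Q a b
  | _, _ => False

lemma complete_sum {V W : Type*} (R : V → V → Prop) (Q : W → W → Prop) (S : Set V) (T : Set W)
    (hS : Complete R S) (hT : Complete Q T) :
    Complete (sumRel R Q) (Sum.inl '' S ∪ Sum.inr '' T) := by
  unfold Complete Admissible ConflictFree Defends at *
  obtain ⟨⟨a1, a2⟩, a3⟩ := hS
  obtain ⟨⟨b1, b2⟩, b3⟩ := hT
  refine ⟨⟨?_, ?_⟩, ?_⟩
  · rintro _ (⟨a, ha, rfl⟩ | ⟨a, ha, rfl⟩) _ (⟨b, hb, rfl⟩ | ⟨b, hb, rfl⟩)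
    · exact a1 a ha b hb
    · exact id
    · exact id
    · exact b1 a ha b hb
  · rintro _ (⟨a, ha, rfl⟩ | ⟨a, ha, rfl⟩) (b | b) hb
    · obtain ⟨c, hc, hcb⟩ := a2 a ha b hb
      exact ⟨Sum.inl c, Or.inl ⟨c, hc, rfl⟩, hcb⟩
    · exact hb.elim
    · exact hb.elim
    · obtain ⟨c, hc, hcb⟩ := b2 a ha b hb
      exact ⟨Sum.inr c, Or.inr ⟨c, hc, rfl⟩, hcb⟩
  · rintro (a | a) h
    · left
      refine ⟨a, a3 a ?_, rfl⟩
      intro b hb
      obtain ⟨c, hc, hcb⟩ := h (Sum.inl b) hb
      rcases hc with ⟨c', hc', rfl⟩ | ⟨c', hc', rfl⟩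
      · exact ⟨c', hc', hcb⟩
      · exact hcb.elim
    · right
      refine ⟨a, b3 a ?_, rfl⟩
      intro b hb
      obtain ⟨c, hc, hcb⟩ := h (Sum.inr b) hb
      rcases hc with ⟨c', hc', rfl⟩ | ⟨c', hc', rfl⟩
      · exact hcb.elim
      · exact ⟨c', hc', hcb⟩

lemma ncard_sum {V W : Type*} [Finite V] [Finite W] (R : V → V → Prop) (Q : W → W → Prop) :
    (com R).ncard * (com Q).ncard ≤ (com (sumRel R Q)).ncard := by
  rw [← Set.ncard_prod]
  apply Set.ncard_le_ncard_of_injOn (fun p : Set V × Set W => Sum.inl '' p.1 ∪ Sum.inr '' p.2)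
  · rintro ⟨S, T⟩ ⟨hS, hT⟩
    exact complete_sum R Q S T hS hT
  · rintro ⟨S, T⟩ _ ⟨S', T'⟩ _ h
    have h' := h
    simp only at h h'
    have e1 : S = S' := by
      ext a
      have := congrArg (fun X => Sum.inl a ∈ X) h
      simpa using this
    have e2 : T = T' := by
      ext a
      have := congrArg (fun X => Sum.inr a ∈ X) h'
      simpa using this
    rw [e1, e2]

lemma ncard_clique (W : Type*) [Fintype W] (h : 2 ≤ Fintype.card W) :
    Fintype.card W + 1 ≤ (com (fun x y : W => x ≠ y)).ncard := by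
  classical
  have h1 : Fintype.card (Option W) = Fintype.card W + 1 := Fintype.card_option
  rw [← h1, ← Nat.card_eq_fintype_card, ← Set.ncard_univ]
  apply Set.ncard_le_ncard_of_injOn (fun o : Option W => {x : W | o = some x})
  · rintro (_ | x) _
    · refine ⟨⟨?_, ?_⟩, ?_⟩
      · intro a ha
        simp at ha
      · intro a ha
        simp at ha
      · intro a ha
        exfalso
        obtain ⟨b, hb⟩ := Fintype.exists_ne_of_one_lt_card (by omega : 1 < Fintype.card W) a
        obtain ⟨c, hc, -⟩ := ha b hb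
        simp at hc
    · refine ⟨⟨?_, ?_⟩, ?_⟩
      · intro a ha b hb
        simp only [Set.mem_ofPred_eq, Option.some.injEq] at ha hb
        rw [← ha, ← hb]
        exact fun h => h rfl
      · intro a ha b hb
        simp only [Set.mem_ofPred_eq, Option.some.injEq] at ha
        exact ⟨x, rfl, fun h => hb (by rw [← h, ha])⟩
      · intro a ha
        by_contra hcon
        simp only [Set.mem_ofPred_eq, Option.some.injEq] at hcon
        obtain ⟨c, hc, hcx⟩ := ha x hcon
        simp only [Set.mem_ofPred_eq, Option.some.injEq] at hc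
        exact hcx hc.symm
  · rintro (_ | x) _ (_ | y) _ hxy
    · rfl
    · exfalso
      have := congrArg (fun X => y ∈ X) hxy
      simp at this
    · exfalso
      have := congrArg (fun X => x ∈ X) hxy
      simp at this
    · have := congrArg (fun X => x ∈ X) hxy
      simp at this
      rw [this]

lemma conj_step (n : ℕ) (h : n = 0 ∨ 2 ≤ n) : conj (n + 2) = conj n * 3 := by
  rcases h with rfl | h
  · rfl
  · unfold conj
    rw [if_neg (by omega), if_neg (by omega : ¬ n ≤ 1)]
    split_ifs with h1 h2 h2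
    · rw [show (n + 2) / 2 = n / 2 + 1 by omega, pow_succ]
    · omega
    · omega
    · rw [show (n + 2 - 3) / 2 = (n - 3) / 2 + 1 by omega, pow_succ, mul_assoc]

lemma lower_exists (n : ℕ) : ∃ (V : Type) (_ : Fintype V) (R : V → V → Prop),
    Fintype.card V = n ∧ conj n ≤ (com R).ncard := by
  have hempty : ∀ m : ℕ, m ≤ 1 → ∃ (V : Type) (_ : Fintype V) (R : V → V → Prop),
      Fintype.card V = m ∧ conj m ≤ (com R).ncard := by
    intro m hm
    refine ⟨Fin m, inferInstance, fun _ _ => False, Fintype.card_fin m, ?_⟩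
    have h1 : conj m = 1 := by unfold conj; rw [if_pos hm]
    rw [h1, Nat.one_le_iff_ne_zero, ← Nat.pos_iff_ne_zero, Set.ncard_pos (Set.toFinite _)]
    refine ⟨Set.univ, ⟨⟨fun _ _ _ _ h => h, fun _ _ b h => h.elim⟩, fun _ _ => trivial⟩⟩
  induction n using Nat.strong_induction_on with
  | _ n ih =>
    by_cases hn : n ≤ 1
    · exact hempty n hn
    by_cases hn3 : n = 3
    · subst hn3
      have h := ncard_clique (Fin 3) (by simp)
      rw [Fintype.card_fin] at h
      exact ⟨Fin 3, inferInstance, _, Fintype.card_fin 3, h⟩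
    · obtain ⟨m, rfl⟩ : ∃ m, n = m + 2 := ⟨n - 2, by omega⟩
      obtain ⟨V, hV, R, hc, hR⟩ := ih m (by omega)
      have h := ncard_clique (Fin 2) (by simp)
      rw [Fintype.card_fin] at h
      refine ⟨V ⊕ Fin 2, inferInstance, sumRel R (fun x y => x ≠ y), ?_, ?_⟩
      · rw [Fintype.card_sum, hc, Fintype.card_fin]
      · rw [conj_step m (by omega)]
        exact (Nat.mul_le_mul hR h).trans (ncard_sum _ _)

lemma transport {V W : Type*} [Finite W] (e : V ≃ W) (R : V → V → Prop) :
    (com R).ncard ≤ (com (fun i j => R (e.symm i) (e.symm j))).ncard := by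
  apply Set.ncard_le_ncard_of_injOn (fun S => e '' S)
  · rintro S ⟨⟨h1, h2⟩, h3⟩
    refine ⟨⟨?_, ?_⟩, ?_⟩
    · rintro _ ⟨a, ha, rfl⟩ _ ⟨b, hb, rfl⟩
      simpa using h1 a ha b hb
    · rintro _ ⟨a, ha, rfl⟩ b hb
      simp only [Equiv.symm_apply_apply] at hb
      obtain ⟨c, hc, hcb⟩ := h2 a ha _ hb
      exact ⟨e c, ⟨c, hc, rfl⟩, by simpa using hcb⟩
    · intro a ha
      refine ⟨e.symm a, h3 _ ?_, by simp⟩
      intro b hb
      obtain ⟨c, ⟨c', hc', rfl⟩, hcb⟩ := ha (e b) (by simpa using hb)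
      exact ⟨c', hc', by simpa using hcb⟩
  · intro S _ T _ h
    exact e.injective.image_injective h

end Lower

/-- **The conjecture is true.** For every `n`, the maximal number of complete extensions of an
argumentation framework with `n` arguments is `1` for `n ≤ 1`, `3 ^ (n / 2)` for even `n ≥ 2` and
`4 * 3 ^ ((n - 3) / 2)` for odd `n ≥ 3`. -/
theorem result :
    (∀ n : ℕ, IsGreatest {m : ℕ | ∃ R : Fin n → Fin n → Prop, m = (com R).ncard} (conj n)) ∧
    (∀ n : ℕ, sigmaMax n = conj n) ∧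
    (∀ (A : Type) [Fintype A] (R : A → A → Prop), (com R).ncard ≤ conj (Fintype.card A)) ∧
    (∀ n : ℕ, n ≤ 1 → conj n = 1) ∧
    (∀ n : ℕ, 2 ≤ n → Even n → conj n = 3 ^ (n / 2)) ∧
    (∀ n : ℕ, 3 ≤ n → Odd n → conj n = 4 * 3 ^ ((n - 3) / 2)) := by
  have hup : ∀ n : ℕ, ∀ R : Fin n → Fin n → Prop, (com R).ncard ≤ conj n := by
    intro n R
    have h := upper R
    rwa [Fintype.card_fin] at h
  have hgr : ∀ n : ℕ,
      IsGreatest {m : ℕ | ∃ R : Fin n → Fin n → Prop, m = (com R).ncard} (conj n) := by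
    intro n
    constructor
    · obtain ⟨V, hV, R, hc, hR⟩ := lower_exists n
      have e : V ≃ Fin n := Fintype.equivFinOfCardEq hc
      exact ⟨_, le_antisymm (hR.trans (transport e R)) (hup n _)⟩
    · rintro m ⟨R, rfl⟩
      exact hup n R
  refine ⟨hgr, fun n => (hgr n).csSup_eq, fun A _ R => upper R, ?_, ?_, ?_⟩
  · intro n hn
    unfold conj
    rw [if_pos hn]
  · intro n hn he
    unfold conj
    rw [if_neg (by omega), if_pos (Nat.even_iff.mp he)]
  · intro n hn ho
    unfold conj
    rw [if_neg (by omega), if_neg (by rw [Nat.odd_iff.mp ho]; norm_num)]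

end Pool.Agent.Results.MP_acab80_co.CompleteExtensions
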