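import Mathlib

/-!
Independence number of triangle-free graphs with few repeated degrees: the bound `n / k` is
asymptotically best possible for every `k ≥ 2`.
-/

namespace Pool.Agent.Results.MP_e6c71b_co.FewRepeatedDegrees

open Finset

/-! ### The notions of the problem -/

open Classical in
/-- `f(G)`: the maximum multiplicity of a value in the degree sequence of `G`. -/
noncomputable def maxMult {V : Type*} [Fintype V] (G : SimpleGraph V) : ℕ :=
  (univ : Finset V).sup (fun v => (univ.filter (fun w => G.degree w = G.degree v)).card)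

open Classical in
/-- `g_k(n)`: the least independence number of a triangle-free graph on `n` vertices with minimum
degree at least one and `f(G) ≤ k` (`⊤` if there is no such graph). -/
noncomputable def g (k n : ℕ) : ℕ∞ :=
  ⨅ (G : SimpleGraph (Fin n)) (_ : G.CliqueFree 3) (_ : ∀ v, 1 ≤ G.degree v)
    (_ : maxMult G ≤ k), (G.indepNum : ℕ∞)

/-! ### Counting -/

section Cnt

open Classical in
/-- the number of elements with property `p` -/
noncomputable def cnt {V : Type*} [Fintype V] (p : V → Prop) : ℕ := (univ.filter p).card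

open Classical in
/-- the weight of the elements with property `p` -/
noncomputable def ws {V : Type*} [Fintype V] (w : V → ℕ) (p : V → Prop) : ℕ :=
  ∑ x ∈ univ.filter p, w x

open scoped Classical

variable {V W : Type*} [Fintype V] [Fintype W]

lemma cnt_eq_sum (p : V → Prop) : cnt p = ∑ x, if p x then 1 else 0 := by
  unfold cnt
  rw [card_filter]

lemma ws_eq_sum (w : V → ℕ) (p : V → Prop) : ws w p = ∑ x, if p x then w x else 0 := by
  unfold ws
  rw [sum_filter]

lemma ws_const (c : ℕ) (p : V → Prop) : ws (fun _ => c) p = c * cnt p := by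
  unfold ws cnt
  rw [sum_const, smul_eq_mul, mul_comm]

lemma cnt_eq_ws (p : V → Prop) : cnt p = ws (fun _ => 1) p := by
  rw [ws_const, one_mul]

lemma ws_sum (w : V ⊕ W → ℕ) (p : V ⊕ W → Prop) :
    ws w p = ws (fun x => w (Sum.inl x)) (fun x => p (Sum.inl x)) +
      ws (fun x => w (Sum.inr x)) (fun x => p (Sum.inr x)) := by
  simp only [ws_eq_sum]
  rw [Fintype.sum_sum_type]

lemma cnt_sum (p : V ⊕ W → Prop) :
    cnt p = cnt (fun x => p (Sum.inl x)) + cnt (fun x => p (Sum.inr x)) := by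
  simp only [cnt_eq_ws]
  exact ws_sum _ _

lemma ws_unit_true (w : Unit → ℕ) {p : Unit → Prop} (h : p ()) : ws w p = w () := by
  rw [ws_eq_sum, Fintype.sum_unique]
  exact if_pos h

lemma ws_false (w : V → ℕ) {p : V → Prop} (h : ∀ x, ¬ p x) : ws w p = 0 := by
  rw [ws_eq_sum]
  exact sum_eq_zero (fun x _ => if_neg (h x))

lemma ws_true (w : V → ℕ) {p : V → Prop} (h : ∀ x, p x) : ws w p = ∑ x, w x := by
  rw [ws_eq_sum]
  exact sum_congr rfl (fun x _ => if_pos (h x))

lemma cnt_false {p : V → Prop} (h : ∀ x, ¬ p x) : cnt p = 0 := by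
  rw [cnt_eq_ws]
  exact ws_false _ h

lemma cnt_true {p : V → Prop} (h : ∀ x, p x) : cnt p = Fintype.card V := by
  rw [cnt_eq_ws, ws_true _ h, sum_const, card_univ, smul_eq_mul, mul_one]

lemma cnt_mono {p q : V → Prop} (h : ∀ x, p x → q x) : cnt p ≤ cnt q := by
  unfold cnt
  apply card_le_card
  intro x hx
  rw [mem_filter] at hx ⊢
  exact ⟨hx.1, h x hx.2⟩

lemma cnt_congr {p q : V → Prop} (h : ∀ x, p x ↔ q x) : cnt p = cnt q :=
  le_antisymm (cnt_mono (fun x => (h x).mp)) (cnt_mono (fun x => (h x).mpr))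

lemma cnt_le_card (p : V → Prop) : cnt p ≤ Fintype.card V := by
  unfold cnt
  exact card_le_univ _

/-- inclusion-exclusion for two properties -/
lemma cnt_or_add_and (p q : V → Prop) :
    cnt (fun x => p x ∨ q x) + cnt (fun x => p x ∧ q x) = cnt p + cnt q := by
  simp only [cnt_eq_sum]
  rw [← sum_add_distrib, ← sum_add_distrib]
  apply sum_congr rfl
  intro x _
  by_cases h1 : p x <;> by_cases h2 : q x <;> simp [h1, h2]

lemma cnt_and_add_not (p q : V → Prop) :
    cnt (fun x => p x ∧ ¬ q x) + cnt (fun x => p x ∧ q x) = cnt p := by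
  simp only [cnt_eq_sum]
  rw [← sum_add_distrib]
  apply sum_congr rfl
  intro x _
  by_cases h1 : p x <;> by_cases h2 : q x <;> simp [h1, h2]

lemma cnt_disj {p q : V → Prop} (h : ∀ x, p x → ¬ q x) :
    cnt (fun x => p x ∨ q x) = cnt p + cnt q := by
  rw [← cnt_or_add_and]
  rw [cnt_false (p := fun x => p x ∧ q x) (fun x hx => h x hx.1 hx.2), add_zero]

lemma cnt_add_le {p q : V → Prop} (h : ∀ x, p x → ¬ q x) :
    cnt p + cnt q ≤ Fintype.card V := by
  rw [← cnt_disj h]
  exact cnt_le_card _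

lemma cnt_equiv (e : V ≃ W) (p : W → Prop) : cnt (fun x => p (e x)) = cnt p := by
  simp only [cnt_eq_sum]
  exact Equiv.sum_comp e (fun y => if p y then 1 else 0)

lemma cnt_prod (p : V × W → Prop) : cnt p = ∑ x, cnt (fun y => p (x, y)) := by
  simp only [cnt_eq_sum]
  rw [Fintype.sum_prod_type]

end Cnt

lemma cnt_def {V : Type*} [Fintype V] (p : V → Prop) [DecidablePred p] :
    cnt p = (univ.filter p).card := by
  unfold cnt
  congr

/-! ### Triangle-free graphs whose degrees bound the independence number -/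

/-- Triangle-free regular graphs of degree `D` in which every independent set has at most `D`
elements. -/
structure SG (V : Type) [Fintype V] (D : ℕ) where
  adj : V → V → Prop
  symm : ∀ x y, adj x y → adj y x
  tri : ∀ x y z, adj x y → adj y z → adj x z → False
  deg : ∀ x, cnt (fun y => adj x y) = D
  ind : ∀ p : V → Prop, (∀ x y, p x → p y → ¬ adj x y) → cnt p ≤ D

/-- There is a graph as in `SG` with `N` vertices. -/
def SR (N D : ℕ) : Prop := ∃ (V : Type) (_ : Fintype V), Fintype.card V = N ∧ Nonempty (SG V D)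

section Blow

open scoped Classical

/-- Blow-up of a weighted graph. -/
lemma SR_of_weight {V : Type} [Fintype V] (adj : V → V → Prop) (w : V → ℕ) (D : ℕ)
    (symm : ∀ x y, adj x y → adj y x)
    (tri : ∀ x y z, adj x y → adj y z → adj x z → False)
    (deg : ∀ x, ws w (fun y => adj x y) = D)
    (ind : ∀ p : V → Prop, (∀ x y, p x → p y → ¬ adj x y) → ws w p ≤ D) :
    SR (∑ x, w x) D := by
  refine ⟨Σ x : V, Fin (w x), inferInstance, ?_, ⟨⟨fun p q => adj p.1 q.1, fun p q h => symm _ _ h,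
    fun p q r h1 h2 h3 => tri _ _ _ h1 h2 h3, ?_, ?_⟩⟩⟩
  · rw [Fintype.card_sigma]
    simp
  · intro x
    rw [cnt_eq_sum, Fintype.sum_sigma, ← deg x.1, ws_eq_sum]
    apply Finset.sum_congr rfl
    intro y _
    by_cases h : adj x.1 y
    · simp [h]
    · simp [h]
  · intro p hp
    refine le_trans ?_ (ind (fun x => ∃ i, p ⟨x, i⟩) ?_)
    · rw [cnt_eq_sum, Fintype.sum_sigma, ws_eq_sum]
      apply Finset.sum_le_sum
      intro x _
      split_ifs with h
      · calc ∑ i : Fin (w x), (if p ⟨x, i⟩ then 1 else 0) ≤ ∑ _i : Fin (w x), 1 := by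
              apply sum_le_sum
              intro i _
              split_ifs <;> omega
          _ = w x := by simp
      · apply le_of_eq
        apply sum_eq_zero
        intro i _
        exact if_neg (fun hi => h ⟨i, hi⟩)
    · rintro x y ⟨i, hi⟩ ⟨j, hj⟩
      exact hp _ _ hi hj

/-- Uniform blow-up. -/
lemma SR_mul {N D : ℕ} (h : SR N D) (t : ℕ) : SR (N * t) (D * t) := by
  obtain ⟨V, hV, hc, ⟨S⟩⟩ := h
  have h := SR_of_weight S.adj (fun _ => t) (D * t) S.symm S.tri (by
    intro x
    rw [ws_const, S.deg, mul_comm]) (by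
    intro s hs
    rw [ws_const, mul_comm]
    exact Nat.mul_le_mul_right t (S.ind s hs))
  rwa [sum_const, card_univ, hc, smul_eq_mul] at h

/-- Double counting in a regular graph. -/
lemma double_count {V : Type} [Fintype V] {D : ℕ} (S : SG V D) (q : V → Prop) :
    ∑ v : V, cnt (fun y => S.adj v y ∧ q y) = D * cnt q := by
  have h1 : ∀ v : V, cnt (fun y => S.adj v y ∧ q y) =
      ∑ y, if q y then (if S.adj v y then 1 else 0) else 0 := by
    intro v
    rw [cnt_eq_sum]
    apply sum_congr rfl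
    intro y _
    by_cases h1 : S.adj v y <;> by_cases h2 : q y <;> simp [h1, h2]
  simp_rw [h1]
  rw [sum_comm, cnt_eq_sum, mul_sum]
  apply sum_congr rfl
  intro y _
  by_cases hq : q y
  · simp only [hq, if_true, mul_one]
    refine Eq.trans ?_ (S.deg y)
    rw [cnt_eq_sum]
    apply sum_congr rfl
    intro v _
    by_cases h : S.adj v y
    · rw [if_pos h, if_pos (S.symm _ _ h)]
    · rw [if_neg h, if_neg (fun h' => h (S.symm _ _ h'))]
  · simp [hq]

/-- Expansion of independent sets. -/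
lemma expansion {V : Type} [Fintype V] {D : ℕ} (S : SG V D) (I : V → Prop)
    (hI : ∀ x y, I x → I y → ¬ S.adj x y) :
    Fintype.card V * cnt I ≤ D * cnt (fun y => ∃ x, I x ∧ S.adj x y) + D * cnt I := by
  set NI : V → Prop := fun y => ∃ x, I x ∧ S.adj x y with hNI
  have key : ∀ v : V, cnt I ≤ cnt (fun y => S.adj v y ∧ NI y) + cnt (fun y => S.adj v y ∧ I y) := by
    intro v
    have hind : ∀ x y, ((S.adj v x ∧ ¬ NI x) ∨ I x) → ((S.adj v y ∧ ¬ NI y) ∨ I y) →
        ¬ S.adj x y := by
      intro x y hx hy hxy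
      rcases hx with ⟨hx1, hx2⟩ | hx <;> rcases hy with ⟨hy1, hy2⟩ | hy
      · exact S.tri _ _ _ hx1 hxy hy1
      · exact hx2 ⟨y, hy, S.symm _ _ hxy⟩
      · exact hy2 ⟨x, hx, hxy⟩
      · exact hI x y hx hy hxy
    have h1 := S.ind _ hind
    have h2 := cnt_or_add_and (fun x => S.adj v x ∧ ¬ NI x) I
    have h3 := cnt_and_add_not (fun x => S.adj v x) NI
    have h4 : cnt (fun x => (S.adj v x ∧ ¬ NI x) ∧ I x) ≤ cnt (fun x => S.adj v x ∧ I x) :=
      cnt_mono (fun x hx => ⟨hx.1.1, hx.2⟩)
    have h5 := S.deg v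
    omega
  calc Fintype.card V * cnt I = ∑ _v : V, cnt I := by rw [sum_const, card_univ, smul_eq_mul]
    _ ≤ ∑ v : V, (cnt (fun y => S.adj v y ∧ NI y) + cnt (fun y => S.adj v y ∧ I y)) :=
        sum_le_sum (fun v _ => key v)
    _ = _ := by rw [sum_add_distrib, double_count, double_count]

/-- adjacency of the Mycielskian -/
def mycAdj {V : Type} (adj : V → V → Prop) : V ⊕ (V ⊕ Unit) → V ⊕ (V ⊕ Unit) → Prop
  | Sum.inl x, Sum.inl y => adj x y
  | Sum.inl x, Sum.inr (Sum.inl y) => adj x y
  | Sum.inr (Sum.inl x), Sum.inl y => adj x y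
  | Sum.inr (Sum.inl _), Sum.inr (Sum.inr _) => True
  | Sum.inr (Sum.inr _), Sum.inr (Sum.inl _) => True
  | _, _ => False

/-- weights of the Mycielskian -/
def mycW {V : Type} (N D : ℕ) : V ⊕ (V ⊕ Unit) → ℕ
  | Sum.inl _ => N - D
  | Sum.inr (Sum.inl _) => D
  | Sum.inr (Sum.inr _) => D ^ 2

lemma ws_myc {V : Type} [Fintype V] (D E : ℕ) (p : V ⊕ (V ⊕ Unit) → Prop) :
    ws (mycW (D + E) D) p = E * cnt (fun x => p (Sum.inl x)) +
      (D * cnt (fun x => p (Sum.inr (Sum.inl x))) +
      ws (fun _ => D ^ 2) (fun x => p (Sum.inr (Sum.inr x)))) := by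
  rw [ws_sum, ws_sum, ← ws_const, ← ws_const]
  congr 2
  funext x
  simp [mycW]

/-- **Mycielskian.** -/
lemma SR_myc {N D : ℕ} (hN : 0 < N) (h : SR N D) : SR (N ^ 2 + D ^ 2) (N * D) := by
  obtain ⟨V, hV, hc, ⟨S⟩⟩ := h
  have hne : Nonempty V := by
    rw [← Fintype.card_pos_iff, hc]
    exact hN
  obtain ⟨v0⟩ := hne
  have hDN : D ≤ N := by
    have h1 := cnt_le_card (fun y => S.adj v0 y)
    rw [S.deg, hc] at h1
    exact h1
  obtain ⟨E, rfl⟩ : ∃ E, N = D + E := ⟨N - D, by omega⟩
  have h := SR_of_weight (mycAdj S.adj) (mycW (D + E) D) ((D + E) * D) ?_ ?_ ?_ ?_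
  · have h1 : ∑ x, mycW (D + E) D (x : V ⊕ (V ⊕ Unit)) = (D + E) ^ 2 + D ^ 2 := by
      rw [← ws_true (p := fun _ => True) _ (fun _ => trivial), ws_myc,
        cnt_true (p := fun _ : V => True) (fun _ => trivial), hc,
        ws_unit_true (p := fun _ => True) _ trivial]
      ring
    rwa [h1] at h
  · rintro (x | x | x) (y | y | y) h
    · exact S.symm _ _ h
    · exact S.symm _ _ h
    · exact h
    · exact S.symm _ _ h
    · exact h
    · exact h
    · exact h
    · exact h
    · exact h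
  · rintro (x | x | x) (y | y | y) (z | z | z) h1 h2 h3
    all_goals first
      | exact h1.elim
      | exact h2.elim
      | exact h3.elim
      | exact S.tri _ _ _ h1 h2 h3
  · rintro (x | x | x)
    · have e1 : cnt (fun y => mycAdj S.adj (Sum.inl x) (Sum.inl y)) = D := S.deg x
      have e2 : cnt (fun y => mycAdj S.adj (Sum.inl x) (Sum.inr (Sum.inl y))) = D := S.deg x
      rw [ws_myc, e1, e2, ws_false]
      · ring
      · exact fun y h => h
    · have e1 : cnt (fun y => mycAdj S.adj (Sum.inr (Sum.inl x)) (Sum.inl y)) = D := S.deg x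
      rw [ws_myc, e1, cnt_false, ws_unit_true]
      · ring
      · exact trivial
      · exact fun y h => h
    · rw [ws_myc, cnt_false, cnt_true, ws_false, hc]
      · ring
      · exact fun y h => h
      · exact fun y => trivial
      · exact fun y h => h
  · intro p hp
    rw [ws_myc]
    have hIind : ∀ x y, p (Sum.inl x) → p (Sum.inl y) → ¬ S.adj x y :=
      fun x y hx hy => hp _ _ hx hy
    have hIc := S.ind _ hIind
    by_cases hz : p (Sum.inr (Sum.inr ()))
    · rw [ws_unit_true _ hz, cnt_false (p := fun x => p (Sum.inr (Sum.inl x)))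
        (fun x hx => hp _ _ hx hz trivial)]
      nlinarith
    · rw [ws_false (p := fun x => p (Sum.inr (Sum.inr x))) _ (fun _ => hz)]
      have hexp := expansion S _ hIind
      rw [hc] at hexp
      have hXN : cnt (fun x => p (Sum.inr (Sum.inl x))) +
          cnt (fun y => ∃ x, p (Sum.inl x) ∧ S.adj x y) ≤ D + E := by
        rw [← hc]
        apply cnt_add_le
        rintro y hy ⟨x, hx, hxy⟩
        exact hp _ _ hx hy hxy
      nlinarith

end Blow

/-! ### The base family -/

section Base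

lemma val_add_cases {p : ℕ} [NeZero p] (a b : ZMod p) :
    (a + b).val = a.val + b.val ∨ (a + b).val + p = a.val + b.val := by
  have ha := ZMod.val_lt a
  have hb := ZMod.val_lt b
  rw [ZMod.val_add]
  rcases Nat.lt_or_ge (a.val + b.val) p with h | h
  · left
    exact Nat.mod_eq_of_lt h
  · right
    rw [Nat.mod_eq_sub_mod h, Nat.mod_eq_of_lt (by omega)]
    omega

lemma cnt_val {p : ℕ} [NeZero p] (a b : ℕ) (hb : b ≤ p) :
    cnt (fun z : ZMod p => a ≤ z.val ∧ z.val < b) = b - a := by
  rw [cnt_def, ← Nat.card_Ico a b]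
  apply card_bij (fun z _ => z.val)
  · intro z hz
    rw [mem_filter] at hz
    rw [mem_Ico]
    exact hz.2
  · intro z _ z' _ h
    exact ZMod.val_injective p h
  · intro n hn
    rw [mem_Ico] at hn
    have h1 : ((n : ZMod p)).val = n := ZMod.val_natCast_of_lt (by omega)
    refine ⟨(n : ZMod p), ?_, h1⟩
    rw [mem_filter, h1]
    exact ⟨mem_univ _, hn⟩

/-- adjacency of the base graph -/
def bAdj (p q : ℕ) : ZMod p ⊕ ZMod p → ZMod p ⊕ ZMod p → Prop
  | Sum.inl x, Sum.inl y => q ≤ (y - x).val ∧ (y - x).val < p - q + 1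
  | Sum.inr x, Sum.inr y => q ≤ (y - x).val ∧ (y - x).val < p - q + 1
  | Sum.inl x, Sum.inr y => (x - y).val < q
  | Sum.inr x, Sum.inl y => (y - x).val < q

lemma triA {p q : ℕ} [NeZero p] {a b : ZMod p} (h3 : p < 3 * q)
    (ha : q ≤ a.val ∧ a.val < p - q + 1) (hb : q ≤ b.val ∧ b.val < p - q + 1)
    (hab : q ≤ (a + b).val ∧ (a + b).val < p - q + 1) : False := by
  rcases val_add_cases a b with h | h <;> omega

lemma triB {p q : ℕ} [NeZero p] {a b : ZMod p} (h2 : 2 * q ≤ p)
    (ha : a.val < q) (hb : q ≤ b.val ∧ b.val < p - q + 1)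
    (hab : (a + b).val < q) : False := by
  rcases val_add_cases a b with h | h <;> omega

lemma half {p q : ℕ} [NeZero p] (hq : 1 ≤ q) (h2 : 2 * q ≤ p) (A : ZMod p → Prop)
    (hA : ∀ x y, A x → A y → ¬ (q ≤ (y - x).val ∧ (y - x).val < p - q + 1)) :
    cnt A ≤ p - q + 1 := by
  have h1 : cnt (fun z => A (z - (q : ZMod p))) = cnt A :=
    cnt_equiv (Equiv.subRight (q : ZMod p)) A
  have h2' : cnt A + cnt (fun z => A (z - (q : ZMod p))) ≤ Fintype.card (ZMod p) := by
    apply cnt_add_le
    intro z hz hz'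
    apply hA _ _ hz' hz
    have h3 : (z - (z - (q : ZMod p))) = (q : ZMod p) := by ring
    rw [h3, ZMod.val_natCast_of_lt (by omega)]
    omega
  rw [ZMod.card] at h2'
  omega

lemma both {p q : ℕ} [NeZero p] (hq : 1 ≤ q) (h2 : 2 * q ≤ p) (A B : ZMod p → Prop)
    (hAB : ∀ x y, A x → B y → ¬ (x - y).val < q) (hA : ∃ x, A x) (hB : ∃ y, B y) :
    cnt A + cnt B ≤ p - q + 1 := by
  classical
  obtain ⟨j0, hj0⟩ := hB
  have hne : (univ.filter A).Nonempty := by
    obtain ⟨x, hx⟩ := hA
    exact ⟨x, by rw [mem_filter]; exact ⟨mem_univ _, hx⟩⟩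
  obtain ⟨a0, ha0, hmin⟩ := exists_min_image _ (fun a => (a - j0).val) hne
  rw [mem_filter] at ha0
  have hR : cnt (fun z : ZMod p => 1 ≤ (a0 - z).val ∧ (a0 - z).val < q) = q - 1 := by
    rw [← cnt_val (p := p) 1 q (by omega)]
    exact cnt_equiv (Equiv.subLeft a0) (fun z : ZMod p => 1 ≤ z.val ∧ z.val < q)
  have h1 : cnt (fun z => A z ∨ B z) = cnt A + cnt B := by
    apply cnt_disj
    intro z hz hz'
    apply hAB z z hz hz'
    rw [sub_self, ZMod.val_zero]
    omega
  have h3 : cnt (fun z => A z ∨ B z) + cnt (fun z : ZMod p => 1 ≤ (a0 - z).val ∧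
      (a0 - z).val < q) ≤ Fintype.card (ZMod p) := by
    apply cnt_add_le
    rintro z (hz | hz) ⟨hz1, hz2⟩
    · have h4 := hmin z (by rw [mem_filter]; exact ⟨mem_univ _, hz⟩)
      have h5 := hAB a0 j0 ha0.2 hj0
      have h6 : (z - j0) + (a0 - z) = a0 - j0 := by ring
      have h7 := val_add_cases (z - j0) (a0 - z)
      have h8 := ZMod.val_lt (z - j0)
      rw [h6] at h7
      omega
    · exact hAB a0 z ha0.2 hz hz2
  rw [ZMod.card, h1, hR] at h3
  omega

/-- **The base family.** -/
lemma SR_base {p q : ℕ} (hq : 1 ≤ q) (h2 : 2 * q ≤ p) (h3 : p < 3 * q) :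
    SR (2 * p) (p - q + 1) := by
  have : NeZero p := ⟨by omega⟩
  refine ⟨ZMod p ⊕ ZMod p, inferInstance, ?_, ⟨⟨bAdj p q, ?_, ?_, ?_, ?_⟩⟩⟩
  · rw [Fintype.card_sum, ZMod.card]
    ring
  · have hs : ∀ x y : ZMod p, (q ≤ (y - x).val ∧ (y - x).val < p - q + 1) →
        (q ≤ (x - y).val ∧ (x - y).val < p - q + 1) := by
      intro x y h
      have h1 : (y - x) + (x - y) = 0 := by ring
      have h4 := val_add_cases (y - x) (x - y)
      have h5 := ZMod.val_lt (x - y)
      rw [h1, ZMod.val_zero] at h4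
      omega
    rintro (x | x) (y | y) h
    · exact hs _ _ h
    · exact h
    · exact h
    · exact hs _ _ h
  · rintro (x | x) (y | y) (z | z) h4 h5 h6
    · exact triA (a := y - x) (b := z - y) h3 h4 h5 (by
        rw [show (y - x) + (z - y) = z - x by ring]; exact h6)
    · exact triB (a := x - z) (b := y - x) h2 h6 h4 (by
        rw [show (x - z) + (y - x) = y - z by ring]; exact h5)
    · exact triB (a := x - y) (b := z - x) h2 h4 h6 (by
        rw [show (x - y) + (z - x) = z - y by ring]; exact h5)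
    · exact triB (a := x - z) (b := z - y) h2 h6 h5 (by
        rw [show (x - z) + (z - y) = x - y by ring]; exact h4)
    · exact triB (a := y - x) (b := z - y) h2 h4 h5 (by
        rw [show (y - x) + (z - y) = z - x by ring]; exact h6)
    · exact triB (a := y - z) (b := z - x) h2 h5 h6 (by
        rw [show (y - z) + (z - x) = y - x by ring]; exact h4)
    · exact triB (a := z - y) (b := y - x) h2 h5 h4 (by
        rw [show (z - y) + (y - x) = z - x by ring]; exact h6)
    · exact triA (a := y - x) (b := z - y) h3 h4 h5 (by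
        rw [show (y - x) + (z - y) = z - x by ring]; exact h6)
  · have e1 : ∀ x : ZMod p, cnt (fun y : ZMod p => q ≤ (y - x).val ∧ (y - x).val < p - q + 1) =
        p - q + 1 - q := by
      intro x
      rw [← cnt_val (p := p) q (p - q + 1) (by omega)]
      exact cnt_equiv (Equiv.subRight x) (fun z : ZMod p => q ≤ z.val ∧ z.val < p - q + 1)
    have e2 : ∀ x : ZMod p, cnt (fun y : ZMod p => (x - y).val < q) = q := by
      intro x
      have h := cnt_val (p := p) 0 q (by omega)
      rw [Nat.sub_zero] at h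
      refine Eq.trans ?_ h
      rw [← cnt_equiv (Equiv.subLeft x) (fun z : ZMod p => 0 ≤ z.val ∧ z.val < q)]
      exact cnt_congr (fun z => ⟨fun h => ⟨Nat.zero_le _, h⟩, fun h => h.2⟩)
    have e3 : ∀ x : ZMod p, cnt (fun y : ZMod p => (y - x).val < q) = q := by
      intro x
      have h := cnt_val (p := p) 0 q (by omega)
      rw [Nat.sub_zero] at h
      refine Eq.trans ?_ h
      rw [← cnt_equiv (Equiv.subRight x) (fun z : ZMod p => 0 ≤ z.val ∧ z.val < q)]
      exact cnt_congr (fun z => ⟨fun h => ⟨Nat.zero_le _, h⟩, fun h => h.2⟩)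
    rintro (x | x)
    · rw [cnt_sum]
      have h4 : cnt (fun y => bAdj p q (Sum.inl x) (Sum.inl y)) = p - q + 1 - q := e1 x
      have h5 : cnt (fun y => bAdj p q (Sum.inl x) (Sum.inr y)) = q := e2 x
      rw [h4, h5]
      omega
    · rw [cnt_sum]
      have h4 : cnt (fun y => bAdj p q (Sum.inr x) (Sum.inl y)) = q := e3 x
      have h5 : cnt (fun y => bAdj p q (Sum.inr x) (Sum.inr y)) = p - q + 1 - q := e1 x
      rw [h4, h5]
      omega
  · intro P hP
    rw [cnt_sum]
    by_cases hA : ∃ x, P (Sum.inl x)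
    · by_cases hB : ∃ y, P (Sum.inr y)
      · exact both hq h2 _ _ (fun x y hx hy => hP _ _ hx hy) hA hB
      · rw [cnt_false (p := fun y => P (Sum.inr y)) (fun y hy => hB ⟨y, hy⟩), add_zero]
        exact half hq h2 _ (fun x y hx hy => hP _ _ hx hy)
    · rw [cnt_false (p := fun y => P (Sum.inl y)) (fun y hy => hA ⟨y, hy⟩), zero_add]
      exact half hq h2 _ (fun x y hx hy => hP _ _ hx hy)

end Base

/-! ### The ratios `N / D` approach every real number `x ≥ 3` from below -/

section Density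

/-- the attained ratios -/
def CC : Set ℝ := {c | ∃ N D : ℕ, 0 < N ∧ 0 < D ∧ SR N D ∧ c = (N : ℝ) / D}

lemma CC_myc {c : ℝ} (h : c ∈ CC) : c + 1 / c ∈ CC := by
  obtain ⟨N, D, hN, hD, hs, rfl⟩ := h
  refine ⟨N ^ 2 + D ^ 2, N * D, by positivity, by positivity, SR_myc hN hs, ?_⟩
  have h1 : (N : ℝ) ≠ 0 := by positivity
  have h2 : (D : ℝ) ≠ 0 := by positivity
  push_cast
  field_simp

lemma CC_base {q j : ℕ} (hq : 1 ≤ q) (hj : j < q) :
    (4 * q + 2 * j : ℝ) / (q + j + 1) ∈ CC := by
  have h := SR_base (p := 2 * q + j) (q := q) hq (by omega) (by omega)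
  have h2 : 2 * q + j - q + 1 = q + j + 1 := by omega
  rw [h2] at h
  refine ⟨2 * (2 * q + j), q + j + 1, by omega, by omega, h, ?_⟩
  push_cast
  ring

/-- `x` is approached from below by attained ratios. -/
def PP (x : ℝ) : Prop := ∀ δ : ℝ, 0 < δ → ∃ c ∈ CC, x - δ < c ∧ c < x

lemma PP_base {x : ℝ} (h3 : 3 ≤ x) (h4 : x ≤ 4) : PP x := by
  classical
  intro δ hδ
  obtain ⟨q0, hq0⟩ := exists_nat_gt (4 / δ)
  set q := q0 + 1 with hqdef
  have hq : 1 ≤ q := by omega
  have hqδ : 4 < δ * q := by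
    have h1 : 4 / δ < q := by
      rw [hqdef]
      push_cast
      linarith
    rw [div_lt_iff₀ hδ] at h1
    linarith
  have hq1 : (1 : ℝ) ≤ q := by exact_mod_cast hq
  have hex : ∃ j : ℕ, (4 * q + 2 * j : ℝ) < x * (q + j + 1) := by
    refine ⟨q - 1, ?_⟩
    have h5 : ((q - 1 : ℕ) : ℝ) = q - 1 := by
      rw [Nat.cast_sub hq]; simp
    rw [h5]
    nlinarith
  set j := Nat.find hex with hj
  have hj1 : (4 * q + 2 * j : ℝ) < x * (q + j + 1) := Nat.find_spec hex
  have hjle : j < q := by
    have h6 : j ≤ q - 1 := by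
      apply Nat.find_min' hex
      have h5 : ((q - 1 : ℕ) : ℝ) = q - 1 := by
        rw [Nat.cast_sub hq]; simp
      rw [h5]
      nlinarith
    omega
  refine ⟨_, CC_base hq hjle, ?_, ?_⟩
  · have hpos : (0 : ℝ) < q + j + 1 := by positivity
    rw [lt_div_iff₀ hpos]
    rcases Nat.eq_zero_or_pos j with h0 | h0
    · rw [h0]
      push_cast
      nlinarith
    · obtain ⟨j', hj'⟩ : ∃ j', j = j' + 1 := ⟨j - 1, by omega⟩
      have h7 : ¬ (4 * q + 2 * j' : ℝ) < x * (q + j' + 1) := Nat.find_min hex (by omega)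
      push Not at h7
      rw [hj']
      push_cast
      have hj0 : (0 : ℝ) ≤ j' := by positivity
      nlinarith [mul_nonneg hδ.le hj0]
  · have hpos : (0 : ℝ) < q + j + 1 := by positivity
    rw [div_lt_iff₀ hpos]
    exact hj1

lemma PP_step {y : ℝ} (hy : 3 ≤ y) (h : PP y) : PP (y + 1 / y) := by
  intro δ hδ
  obtain ⟨c, hc, h1, h2⟩ := h (min δ 1) (by positivity)
  have h3 : y - 1 < c := lt_of_le_of_lt (by linarith [min_le_right δ 1]) h1
  have h4 : y - δ < c := lt_of_le_of_lt (by linarith [min_le_left δ 1]) h1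
  have hc2 : 2 < c := by linarith
  refine ⟨c + 1 / c, CC_myc hc, ?_⟩
  have hyc : 1 < y * c := by nlinarith
  have hid : (y + 1 / y) - (c + 1 / c) = (y - c) * (1 - 1 / (y * c)) := by
    field_simp
    ring
  have h5 : 0 < 1 / (y * c) := by positivity
  have h6 : 1 / (y * c) < 1 := by
    rw [div_lt_one (by positivity)]
    exact hyc
  have h7 : 0 < (y - c) * (1 - 1 / (y * c)) := mul_pos (by linarith) (by linarith)
  have h8 : (y - c) * (1 - 1 / (y * c)) < δ := by nlinarith
  constructor <;> linarith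

lemma PP_all (n : ℕ) : ∀ x : ℝ, 3 ≤ x → x ^ 2 ≤ 16 + 2 * n → PP x := by
  induction n with
  | zero =>
    intro x h3 h
    apply PP_base h3
    push_cast at h
    nlinarith
  | succ n ih =>
    intro x h3 h
    rcases le_or_gt x 4 with h4 | h4
    · exact PP_base h3 h4
    · set r := Real.sqrt (x ^ 2 - 4) with hr
      have hr2 : r ^ 2 = x ^ 2 - 4 := Real.sq_sqrt (by nlinarith)
      have hr0 : 0 ≤ r := Real.sqrt_nonneg _
      have hr2' : 2 ≤ r := by nlinarith
      set y := (x + r) / 2 with hy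
      have hy3 : 3 ≤ y := by rw [hy]; linarith
      have hyx : y ^ 2 + 1 = x * y := by rw [hy]; nlinarith
      have hinv : 1 / y = x - y := by
        have : y ≠ 0 := by positivity
        field_simp
        nlinarith
      have hx : x = y + 1 / y := by rw [hinv]; ring
      have h5 : 0 < 1 / y := by positivity
      have h6 : y * (1 / y) = 1 := by
        have : y ≠ 0 := by positivity
        field_simp
      have h7 : x ^ 2 = y ^ 2 + 2 + (1 / y) ^ 2 := by
        rw [hx]
        nlinarith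
      rw [hx]
      apply PP_step hy3
      apply ih y hy3
      push_cast at h
      nlinarith [sq_nonneg (1 / y)]

/-- The parameters used in the final construction. -/
lemma params (k : ℕ) (hk : 3 ≤ k) (ε : ℝ) (hε : 0 < ε) (M : ℕ) :
    ∃ N D : ℕ, SR N D ∧ M ≤ D ∧ 2 ≤ D ∧ 0 < N ∧ N ≤ k * (D - 1) ∧
      (D : ℝ) / N < 1 / k + ε := by
  have hk3 : (3 : ℝ) ≤ k := by exact_mod_cast hk
  obtain ⟨n, hn⟩ := exists_nat_gt ((k : ℝ) ^ 2)
  have hP : PP (k : ℝ) := by
    apply PP_all n k hk3
    have : (0 : ℝ) ≤ n := by positivity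
    linarith
  obtain ⟨c, ⟨N, D, hN, hD, hs, rfl⟩, h1, h2⟩ := hP (min ε 1) (by positivity)
  have hN' : (0 : ℝ) < N := by exact_mod_cast hN
  have hD' : (0 : ℝ) < D := by exact_mod_cast hD
  have hlt : N < k * D := by
    rw [div_lt_iff₀ hD'] at h2
    exact_mod_cast h2
  set t := k + M + 2 with ht
  have ht0 : 0 < t := by omega
  refine ⟨N * t, D * t, SR_mul hs t, ?_, ?_, by positivity, ?_, ?_⟩
  · calc M ≤ 1 * t := by omega
      _ ≤ D * t := Nat.mul_le_mul_right t hD
  · calc 2 ≤ 1 * t := by omega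
      _ ≤ D * t := Nat.mul_le_mul_right t hD
  · have h3 : (N + 1) * t ≤ k * D * t := Nat.mul_le_mul_right t hlt
    have h4 : k * (D * t - 1) = k * D * t - k := by
      rw [Nat.mul_sub, mul_one, mul_assoc]
    rw [h4]
    have h5 : (N + 1) * t = N * t + t := by ring
    omega
  · have ht' : (0 : ℝ) < t := by exact_mod_cast ht0
    have h3 : ((D * t : ℕ) : ℝ) / ((N * t : ℕ) : ℝ) = 1 / ((N : ℝ) / D) := by
      push_cast
      field_simp
    rw [h3]
    set c := (N : ℝ) / D with hc
    have hc1 : (k : ℝ) - ε < c := lt_of_le_of_lt (by linarith [min_le_left ε 1]) h1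
    have hc2 : (k : ℝ) - 1 < c := lt_of_le_of_lt (by linarith [min_le_right ε 1]) h1
    have hc0 : 0 < c := by linarith
    rw [div_lt_iff₀ hc0]
    have h6 : (1 / (k : ℝ) + ε) * c = c / k + ε * c := by ring
    rw [h6]
    have h7 : 1 - ε / k < c / k := by
      rw [lt_div_iff₀ (by positivity)]
      have : (1 - ε / k) * k = k - ε := by field_simp
      rw [this]
      exact hc1
    have h8 : ε / k ≤ ε := div_le_self hε.le (by linarith)
    nlinarith

end Density

/-! ### From relations to graphs on `Fin n` -/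

section Package

lemma cnt_le_of_inj {V W : Type*} [Fintype V] [Fintype W] {p : V → Prop} {q : W → Prop}
    (f : V → W) (h : ∀ x, p x → q (f x)) (hinj : ∀ x y, p x → p y → f x = f y → x = y) :
    cnt p ≤ cnt q := by
  classical
  rw [cnt_def, cnt_def]
  apply card_le_card_of_injOn f
  · intro x hx
    rw [Finset.mem_coe, mem_filter] at hx ⊢
    exact ⟨mem_univ _, h x hx.2⟩
  · intro x hx y hy hxy
    rw [Finset.mem_coe, mem_filter] at hx hy
    exact hinj x y hx.2 hy.2 hxy

lemma cnt_le_one {V : Type*} [Fintype V] {p : V → Prop} (h : ∀ x y, p x → p y → x = y) :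
    cnt p ≤ 1 := by
  classical
  rw [cnt_def, card_le_one]
  intro x hx y hy
  rw [mem_filter] at hx hy
  exact h x y hx.2 hy.2

lemma cnt_fin {n : ℕ} (a b : ℕ) (hb : b ≤ n) :
    cnt (fun i : Fin n => a ≤ i.val ∧ i.val < b) = b - a := by
  rw [cnt_def, ← Nat.card_Ico a b]
  apply card_bij (fun z _ => z.val)
  · intro z hz
    rw [mem_filter] at hz
    rw [mem_Ico]
    exact hz.2
  · intro z _ z' _ h
    exact Fin.ext h
  · intro m hm
    rw [mem_Ico] at hm
    refine ⟨⟨m, by omega⟩, ?_, rfl⟩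
    rw [mem_filter]
    exact ⟨mem_univ _, hm⟩

lemma cnt_fin_le {n : ℕ} (a b : ℕ) :
    cnt (fun i : Fin n => a ≤ i.val ∧ i.val < b) ≤ b - a := by
  rw [cnt_def, ← Nat.card_Ico a b]
  apply card_le_card_of_injOn (fun z => z.val)
  · intro z hz
    rw [Finset.mem_coe, mem_filter] at hz
    rw [Finset.mem_coe, mem_Ico]
    exact hz.2
  · intro z _ z' _ h
    exact Fin.ext h

lemma cnt_prod_and {V W : Type*} [Fintype V] [Fintype W] (p : V → Prop) (q : W → Prop) :
    cnt (fun z : V × W => q z.2 ∧ p z.1) = cnt p * cnt q := by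
  classical
  rw [cnt_prod, cnt_eq_sum p, sum_mul]
  apply sum_congr rfl
  intro x _
  by_cases h : p x
  · rw [if_pos h, one_mul]
    exact cnt_congr (fun y => ⟨fun h' => h'.1, fun h' => ⟨h', h⟩⟩)
  · rw [if_neg h, zero_mul]
    exact cnt_false (fun y h' => h h'.2)

open Classical in
lemma package {W : Type} [Fintype W] (r : W → W → Prop) (symm : ∀ x y, r x y → r y x)
    (tri : ∀ x y z, r x y → r y z → r x z → False) (k β : ℕ)
    (hdeg : ∀ x, 1 ≤ cnt (fun y => r x y))
    (hmult : ∀ d, cnt (fun w => cnt (fun y => r w y) = d) ≤ k)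
    (hind : ∀ p : W → Prop, (∀ x y, p x → p y → ¬ r x y) → cnt p ≤ β) :
    ∃ G : SimpleGraph (Fin (Fintype.card W)), G.CliqueFree 3 ∧ (∀ v, 1 ≤ G.degree v) ∧
      maxMult G ≤ k ∧ G.indepNum ≤ β := by
  obtain ⟨e⟩ : Nonempty (W ≃ Fin (Fintype.card W)) := ⟨Fintype.equivFin W⟩
  let G : SimpleGraph (Fin (Fintype.card W)) :=
    { Adj := fun i j => r (e.symm i) (e.symm j)
      symm := ⟨fun i j h => symm _ _ h⟩
      loopless := ⟨fun i h => tri _ _ _ h h h⟩ }
  have hadj : ∀ i j, G.Adj i j ↔ r (e.symm i) (e.symm j) := fun i j => Iff.rfl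
  have hd : ∀ v, G.degree v = cnt (fun y => r (e.symm v) y) := by
    intro v
    rw [← SimpleGraph.card_neighborFinset_eq_degree, SimpleGraph.neighborFinset_eq_filter,
      ← cnt_equiv e.symm (fun y => r (e.symm v) y), cnt_def]
  refine ⟨G, ?_, ?_, ?_, ?_⟩
  · intro s hs
    rw [SimpleGraph.is3Clique_iff] at hs
    obtain ⟨a, b, c, hab, hac, hbc, -⟩ := hs
    exact tri _ _ _ hab hbc hac
  · intro v
    rw [hd]
    exact hdeg _
  · unfold maxMult
    apply Finset.sup_le
    intro v _
    refine le_trans (le_of_eq ?_) (hmult (cnt (fun y => r (e.symm v) y)))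
    rw [← cnt_def, ← cnt_equiv e.symm (fun w => cnt (fun y => r w y) = _)]
    apply cnt_congr
    intro w
    rw [hd, hd]
  · obtain ⟨s, hs⟩ := G.exists_isNIndepSet_indepNum
    rw [← hs.card_eq]
    have h1 : s.card = cnt (fun x => e x ∈ s) := by
      rw [cnt_equiv e (fun i => i ∈ s), cnt_def]
      congr 1
      ext i
      simp
    rw [h1]
    apply hind
    intro x y hx hy hxy
    have hne : e x ≠ e y := by
      intro h
      have := e.injective h
      subst this
      exact tri _ _ _ hxy hxy hxy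
    apply hs.isIndepSet hx hy hne
    rw [hadj, Equiv.symm_apply_apply, Equiv.symm_apply_apply]
    exact hxy

end Package

/-! ### The construction -/

section Construction

/-- data of the construction -/
structure Data where
  V : Type
  [fV : Fintype V]
  D : ℕ
  S : SG V D
  N : ℕ
  φ : V ≃ Fin N
  k : ℕ
  hk : 1 ≤ k
  hD : 2 ≤ D
  hN : 0 < N
  hNk : N ≤ k * (D - 1)

attribute [instance] Data.fV

namespace Data

variable (X : Data)

/-- an upper bound for the indices -/
def Y0 : ℕ := 4 * X.N * X.D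

/-- half of the number of levels -/
def C : ℕ := 2 * X.D * (X.Y0 + 1) - 2

/-- the offset of a column -/
def off (u : X.V) : ℕ := (X.φ u).val / X.k

/-- the number of layers over a half column -/
def e (p : X.V × Bool) : ℕ := X.off p.1 + (if p.2 then X.D else 0)

/-- layers over half columns -/
abbrev Z : Type := Σ p : X.V × Bool, Fin (X.e p)

/-- the base vertices and the new vertices -/
abbrev W : Type := (Fin (2 * X.C) × X.V) ⊕ (X.Z × Bool)

/-- index of a layer -/
def idx (z : X.Z) : ℕ :=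
  ((X.φ z.1.1).val * 2 + (if z.1.2 then 1 else 0)) * (2 * X.D) + z.2.val

/-- the splitting position of a layer -/
def xv (z : X.Z) : ℕ := X.D * (X.idx z + 1) - 1

/-- the half containing a level -/
def half (i : Fin (2 * X.C)) : Bool := decide (X.C ≤ i.val)

/-- the position of a level in its half -/
def pos (i : Fin (2 * X.C)) : ℕ := if X.C ≤ i.val then i.val - X.C else i.val

/-- adjacency between base and new vertices -/
def att (i : Fin (2 * X.C)) (u : X.V) (y : X.Z × Bool) : Prop :=
  y.1.1 = (u, X.half i) ∧ (if y.2 then X.xv y.1 ≤ X.pos i else X.pos i < X.xv y.1)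

/-- level relation -/
def lev (i j : Fin (2 * X.C)) : Prop := 2 * X.C ≤ i.val + j.val + 1 ∨ i = j

/-- adjacency -/
def r : X.W → X.W → Prop
  | Sum.inl (i, u), Sum.inl (j, v) => X.lev i j ∧ X.S.adj u v
  | Sum.inl (i, u), Sum.inr y => X.att i u y
  | Sum.inr y, Sum.inl (i, u) => X.att i u y
  | Sum.inr _, Sum.inr _ => False

lemma off_le (u : X.V) : X.off u ≤ X.D - 2 := by
  have h1 := (X.φ u).isLt
  have h2 := X.hNk
  have h3 := X.hD
  unfold off
  have h4 : (X.φ u).val / X.k < X.D - 1 := by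
    rw [Nat.div_lt_iff_lt_mul X.hk, mul_comm]
    omega
  omega

lemma e_lt (p : X.V × Bool) : X.e p < 2 * X.D := by
  have h1 := X.off_le p.1
  have h2 := X.hD
  unfold e
  split_ifs <;> omega

lemma idx_lt (z : X.Z) : X.idx z < X.Y0 := by
  have h1 := (X.φ z.1.1).isLt
  have h2 := z.2.isLt
  have h3 := X.e_lt z.1
  unfold idx Y0
  have h4 : (X.φ z.1.1).val * 2 + (if z.1.2 then 1 else 0) + 1 ≤ 2 * X.N := by
    split_ifs <;> omega
  have h5 : ((X.φ z.1.1).val * 2 + (if z.1.2 then 1 else 0) + 1) * (2 * X.D) ≤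
      2 * X.N * (2 * X.D) := Nat.mul_le_mul_right _ h4
  have h6 : ((X.φ z.1.1).val * 2 + (if z.1.2 then 1 else 0) + 1) * (2 * X.D) =
      ((X.φ z.1.1).val * 2 + (if z.1.2 then 1 else 0)) * (2 * X.D) + 2 * X.D := by ring
  have h7 : 2 * X.N * (2 * X.D) = 4 * X.N * X.D := by ring
  omega

lemma idx_inj {z z' : X.Z} (h : X.idx z = X.idx z') : z = z' := by
  obtain ⟨⟨u, b⟩, l⟩ := z
  obtain ⟨⟨u', b'⟩, l'⟩ := z'
  have h1 : l.val < 2 * X.D := lt_trans l.isLt (X.e_lt _)
  have h2 : l'.val < 2 * X.D := lt_trans l'.isLt (X.e_lt _)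
  have hpos : 0 < 2 * X.D := by have := X.hD; omega
  unfold idx at h
  simp only at h
  have h3 : ((X.φ u).val * 2 + (if b then 1 else 0)) = ((X.φ u').val * 2 + (if b' then 1 else 0)) := by
    have e1 : (((X.φ u).val * 2 + (if b then 1 else 0)) * (2 * X.D) + l.val) / (2 * X.D) =
        (((X.φ u').val * 2 + (if b' then 1 else 0)) * (2 * X.D) + l'.val) / (2 * X.D) := by rw [h]
    rw [mul_comm _ (2 * X.D), mul_comm _ (2 * X.D), Nat.mul_add_div hpos, Nat.mul_add_div hpos,
      Nat.div_eq_of_lt h1, Nat.div_eq_of_lt h2] at e1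
    omega
  have h4 : l.val = l'.val := by
    rw [h3] at h
    omega
  have h5 : (X.φ u).val = (X.φ u').val ∧ b = b' := by
    cases b <;> cases b'
    · simp only [Bool.false_eq_true, if_false] at h3
      exact ⟨by omega, rfl⟩
    · simp only [Bool.false_eq_true, if_false, if_true] at h3
      omega
    · simp only [Bool.false_eq_true, if_false, if_true] at h3
      omega
    · simp only [if_true] at h3
      exact ⟨by omega, rfl⟩
  have h6 : u = u' := X.φ.injective (Fin.ext h5.1)
  obtain ⟨-, h7⟩ := h5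
  subst h6
  subst h7
  have h8 : l = l' := Fin.ext h4
  rw [h8]

lemma C_eq : X.C + 2 = 2 * X.D * (X.Y0 + 1) := by
  unfold C
  have h1 := X.hD
  have : 2 ≤ 2 * X.D * (X.Y0 + 1) := by nlinarith [Nat.zero_le X.Y0]
  omega

lemma xv_add (z : X.Z) : X.xv z + 1 = X.D * (X.idx z + 1) := by
  unfold xv
  have h1 := X.hD
  have : 1 ≤ X.D * (X.idx z + 1) := by nlinarith [Nat.zero_le (X.idx z)]
  omega

lemma xv_pos (z : X.Z) : 1 ≤ X.xv z := by
  have h1 := X.hD
  have h2 := X.xv_add z
  have : 2 ≤ X.D * (X.idx z + 1) := by nlinarith [Nat.zero_le (X.idx z)]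
  omega

lemma xv_lt (z : X.Z) : X.xv z < X.C := by
  have h1 := X.hD
  have h2 := X.xv_add z
  have h3 := X.C_eq
  have h4 := X.idx_lt z
  have h5 : X.D * (X.idx z + 1) ≤ X.D * X.Y0 := Nat.mul_le_mul_left _ h4
  have h6 : 2 * X.D * (X.Y0 + 1) = X.D * X.Y0 + X.D * X.Y0 + 2 * X.D := by ring
  omega

/-- complementary position -/
lemma xv_compl (z : X.Z) : (X.C - X.xv z) + 1 + X.D * X.idx z = X.D * (2 * X.Y0 + 1) := by
  have h1 := X.xv_lt z
  have h2 := X.xv_add z
  have h3 := X.C_eq
  have h6 : 2 * X.D * (X.Y0 + 1) = X.D * (2 * X.Y0 + 1) + X.D := by ring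
  have h7 : X.D * (X.idx z + 1) = X.D * X.idx z + X.D := by ring
  omega

lemma cnt_lev (i : Fin (2 * X.C)) :
    cnt (fun j => X.lev i j) = i.val + 1 + (if X.C ≤ i.val then 0 else 1) := by
  have hi := i.isLt
  have h1 : cnt (fun j : Fin (2 * X.C) => 2 * X.C - 1 - i.val ≤ j.val ∧ j.val < 2 * X.C) =
      i.val + 1 := by
    rw [cnt_fin _ _ le_rfl]
    omega
  split_ifs with h
  · rw [add_zero, ← h1]
    apply cnt_congr
    intro j
    have hj := j.isLt
    unfold lev
    constructor
    · rintro (h2 | h2)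
      · omega
      · subst h2; omega
    · intro h2
      left
      omega
  · have h2 : cnt (fun j : Fin (2 * X.C) => i.val ≤ j.val ∧ j.val < i.val + 1) = 1 := by
      rw [cnt_fin _ _ (by omega)]
      omega
    rw [← h1, ← h2, ← cnt_disj]
    · apply cnt_congr
      intro j
      have hj := j.isLt
      unfold lev
      rw [Fin.ext_iff]
      constructor
      · rintro (h3 | h3)
        · left; omega
        · right; omega
      · rintro (h3 | h3)
        · left; omega
        · right; omega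
    · intro j h3 h4
      omega

lemma cnt_att_base (i : Fin (2 * X.C)) (u : X.V) :
    cnt (fun y => X.att i u y) = X.e (u, X.half i) := by
  classical
  rw [cnt_prod]
  have h1 : ∀ z : X.Z, cnt (fun b : Bool => X.att i u (z, b)) =
      if z.1 = (u, X.half i) then 1 else 0 := by
    intro z
    split_ifs with h
    · rcases Nat.lt_or_ge (X.pos i) (X.xv z) with h2 | h2
      · have e1 : cnt (fun b : Bool => X.att i u (z, b)) = cnt (fun b : Bool => b = false) := by
          apply cnt_congr
          intro b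
          unfold att
          cases b
          · simp [h, h2]
          · simp [h2]
        rw [e1, cnt_def]
        rfl
      · have e1 : cnt (fun b : Bool => X.att i u (z, b)) = cnt (fun b : Bool => b = true) := by
          apply cnt_congr
          intro b
          unfold att
          cases b
          · simp [h2]
          · simp [h, h2]
        rw [e1, cnt_def]
        rfl
    · exact cnt_false (fun b hb => h hb.1)
  simp_rw [h1]
  rw [Fintype.sum_sigma]
  have h2 : ∀ p : X.V × Bool, ∑ l : Fin (X.e p),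
      (if (⟨p, l⟩ : X.Z).1 = (u, X.half i) then 1 else 0) =
      if p = (u, X.half i) then X.e p else 0 := by
    intro p
    by_cases h : p = (u, X.half i)
    · simp [h]
    · simp [h]
  rw [sum_congr rfl (fun p _ => h2 p), sum_ite_eq']
  simp

/-- degrees of base vertices -/
lemma deg_base (i : Fin (2 * X.C)) (u : X.V) :
    cnt (fun y => X.r (Sum.inl (i, u)) y) = X.D * (i.val + 2) + X.off u := by
  rw [cnt_sum]
  have h1 : cnt (fun y : Fin (2 * X.C) × X.V => X.r (Sum.inl (i, u)) (Sum.inl y)) =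
      cnt (fun j => X.lev i j) * X.D := by
    rw [← X.S.deg u, ← cnt_prod_and]
    apply cnt_congr
    rintro ⟨j, v⟩
    exact ⟨fun h => ⟨h.2, h.1⟩, fun h => ⟨h.2, h.1⟩⟩
  have h2 : cnt (fun y : X.Z × Bool => X.r (Sum.inl (i, u)) (Sum.inr y)) =
      X.e (u, X.half i) := X.cnt_att_base i u
  rw [h1, h2, X.cnt_lev]
  unfold e half
  by_cases h : X.C ≤ i.val
  · simp only [h, if_true, decide_true]
    ring
  · simp only [h, if_false, decide_false]
    simp
    ring

/-- degrees of new vertices -/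
lemma deg_new (z : X.Z) (b : Bool) :
    cnt (fun y => X.r (Sum.inr (z, b)) y) = if b then X.C - X.xv z else X.xv z := by
  rw [cnt_sum]
  have h2 : cnt (fun y : X.Z × Bool => X.r (Sum.inr (z, b)) (Sum.inr y)) = 0 :=
    cnt_false (fun y h => h)
  rw [h2, add_zero]
  obtain ⟨⟨u, hb⟩, l⟩ := z
  set z : X.Z := ⟨(u, hb), l⟩ with hz
  have hx := X.xv_lt z
  have h3 : cnt (fun y : Fin (2 * X.C) × X.V => X.r (Sum.inr (z, b)) (Sum.inl y)) =
      cnt (fun i : Fin (2 * X.C) => hb = X.half i ∧
        (if b then X.xv z ≤ X.pos i else X.pos i < X.xv z)) * cnt (fun v : X.V => v = u) := by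
    rw [← cnt_prod_and]
    apply cnt_congr
    rintro ⟨i, v⟩
    show ((u, hb) = (v, X.half i) ∧ _) ↔ _
    rw [Prod.mk.injEq]
    constructor
    · rintro ⟨⟨h4, h5⟩, h6⟩
      exact ⟨h4.symm, h5, h6⟩
    · rintro ⟨h4, h5, h6⟩
      exact ⟨⟨h4.symm, h5⟩, h6⟩
  have h4 : cnt (fun v : X.V => v = u) = 1 := by
    classical
    rw [cnt_def, filter_eq' univ u]
    simp
  rw [h3, h4, mul_one]
  cases hb <;> cases b
  · -- lower half, `pos < x`
    have h5 := cnt_fin (n := 2 * X.C) 0 (X.xv z) (by omega)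
    rw [Nat.sub_zero] at h5
    refine Eq.trans ?_ h5
    apply cnt_congr
    intro i
    unfold half pos
    by_cases h : X.C ≤ i.val
    · simp only [h, decide_true, if_true]
      constructor
      · intro h'; exact absurd h'.1 (by simp)
      · intro h'; omega
    · simp only [h, decide_false, if_false]
      simp
  · have h5 := cnt_fin (n := 2 * X.C) (X.xv z) X.C (by omega)
    refine Eq.trans ?_ h5
    apply cnt_congr
    intro i
    unfold half pos
    by_cases h : X.C ≤ i.val
    · simp only [h, decide_true, if_true]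
      constructor
      · intro h'; exact absurd h'.1 (by simp)
      · intro h'; omega
    · simp only [h, decide_false, if_false, if_true]
      constructor
      · intro h'; exact ⟨h'.2, by omega⟩
      · intro h'; exact ⟨trivial, h'.1⟩
  · have h5 := cnt_fin (n := 2 * X.C) X.C (X.C + X.xv z) (by omega)
    rw [Nat.add_sub_cancel_left] at h5
    refine Eq.trans ?_ h5
    apply cnt_congr
    intro i
    unfold half pos
    by_cases h : X.C ≤ i.val
    · simp only [h, decide_true, if_true]
      constructor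
      · intro h'
        have := h'.2
        rw [if_neg Bool.false_ne_true] at this
        exact ⟨trivial, by omega⟩
      · intro h'
        refine ⟨trivial, ?_⟩
        rw [if_neg Bool.false_ne_true]
        omega
    · simp only [h, decide_false, if_false]
      constructor
      · intro h'; exact absurd h'.1 (by simp)
      · intro h'; exact absurd h'.1 (by simp)
  · have h5 := cnt_fin (n := 2 * X.C) (X.C + X.xv z) (2 * X.C) le_rfl
    have h6 : 2 * X.C - (X.C + X.xv z) = X.C - X.xv z := by omega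
    rw [h6] at h5
    refine Eq.trans ?_ h5
    apply cnt_congr
    intro i
    have hi := i.isLt
    unfold half pos
    by_cases h : X.C ≤ i.val
    · simp only [h, decide_true, if_true]
      constructor
      · intro h'
        have := h'.2
        omega
      · intro h'
        exact ⟨trivial, by omega⟩
    · simp only [h, decide_false, if_false]
      constructor
      · intro h'; exact absurd h'.1 (by simp)
      · intro h'; omega

lemma lev_symm {i j : Fin (2 * X.C)} (h : X.lev i j) : X.lev j i := by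
  rcases h with h | h
  · left; omega
  · right; exact h.symm

lemma r_symm : ∀ x y, X.r x y → X.r y x := by
  rintro (⟨i, u⟩ | y) (⟨j, v⟩ | y') h
  · exact ⟨X.lev_symm h.1, X.S.symm _ _ h.2⟩
  · exact h
  · exact h
  · exact h

lemma att_eq {i j : Fin (2 * X.C)} {u v : X.V} {y : X.Z × Bool} (h1 : X.att i u y)
    (h2 : X.att j v y) : u = v := by
  have h := h1.1.symm.trans h2.1
  exact (Prod.mk.inj h).1

lemma S_irr (u : X.V) : ¬ X.S.adj u u := fun h => X.S.tri _ _ _ h h h

lemma r_tri : ∀ x y z, X.r x y → X.r y z → X.r x z → False := by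
  rintro (⟨i, u⟩ | a) (⟨j, v⟩ | b) (⟨l, w⟩ | c) h1 h2 h3
  · exact X.S.tri _ _ _ h1.2 h2.2 h3.2
  · have := X.att_eq h2 h3
    subst this
    exact X.S_irr _ h1.2
  · have := X.att_eq h1 h2
    subst this
    exact X.S_irr _ h3.2
  · exact h2
  · have := X.att_eq h1 h3
    subst this
    exact X.S_irr _ h2.2
  · exact h3
  · exact h1
  · exact h1

lemma r_deg : ∀ x, 1 ≤ cnt (fun y => X.r x y) := by
  have hD := X.hD
  rintro (⟨i, u⟩ | ⟨z, b⟩)
  · rw [X.deg_base]
    nlinarith [Nat.zero_le i.val, Nat.zero_le (X.off u)]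
  · rw [X.deg_new]
    have h1 := X.xv_pos z
    have h2 := X.xv_lt z
    split_ifs <;> omega

lemma new_inj {d : ℕ} {y y' : X.Z × Bool}
    (h : (if y.2 then X.C - X.xv y.1 else X.xv y.1) = d)
    (h' : (if y'.2 then X.C - X.xv y'.1 else X.xv y'.1) = d) : y = y' := by
  obtain ⟨z, b⟩ := y
  obtain ⟨z', b'⟩ := y'
  have hD := X.hD
  have a1 := X.xv_add z
  have a2 := X.xv_compl z
  have b1 := X.xv_add z'
  have b2 := X.xv_compl z'
  have c1 := X.idx_lt z
  have c2 := X.idx_lt z'
  have hD0 : 0 < X.D := by omega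
  cases b <;> cases b'
  · simp only [Bool.false_eq_true, if_false] at h h'
    have h3 : X.D * (X.idx z + 1) = X.D * (X.idx z' + 1) := by omega
    have h4 := Nat.eq_of_mul_eq_mul_left hD0 h3
    rw [X.idx_inj (by omega : X.idx z = X.idx z')]
  · exfalso
    simp only [Bool.false_eq_true, if_false, if_true] at h h'
    have h3 : X.D * (X.idx z + 1 + X.idx z') = X.D * (2 * X.Y0 + 1) := by
      have : X.D * (X.idx z + 1 + X.idx z') = X.D * (X.idx z + 1) + X.D * X.idx z' := by ring
      omega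
    have h4 := Nat.eq_of_mul_eq_mul_left hD0 h3
    omega
  · exfalso
    simp only [Bool.false_eq_true, if_false, if_true] at h h'
    have h3 : X.D * (X.idx z' + 1 + X.idx z) = X.D * (2 * X.Y0 + 1) := by
      have : X.D * (X.idx z' + 1 + X.idx z) = X.D * (X.idx z' + 1) + X.D * X.idx z := by ring
      omega
    have h4 := Nat.eq_of_mul_eq_mul_left hD0 h3
    omega
  · simp only [if_true] at h h'
    have h3 : X.D * X.idx z = X.D * X.idx z' := by omega
    have h4 := Nat.eq_of_mul_eq_mul_left hD0 h3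
    rw [X.idx_inj h4]

lemma new_dvd {d : ℕ} {y : X.Z × Bool}
    (h : (if y.2 then X.C - X.xv y.1 else X.xv y.1) = d) : X.D ∣ d + 1 := by
  obtain ⟨z, b⟩ := y
  have a1 := X.xv_add z
  have a2 := X.xv_compl z
  cases b
  · simp only [Bool.false_eq_true, if_false] at h
    rw [← h, a1]
    exact Dvd.intro _ rfl
  · simp only [if_true] at h
    have h3 : X.D ∣ (d + 1) + X.D * X.idx z := by
      rw [← h, a2]
      exact Dvd.intro _ rfl
    exact (Nat.dvd_add_left (Dvd.intro _ rfl)).mp h3

lemma r_mult (d : ℕ) : cnt (fun w => cnt (fun y => X.r w y) = d) ≤ X.k := by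
  have hD := X.hD
  rw [cnt_sum]
  have e1 : cnt (fun w : Fin (2 * X.C) × X.V => cnt (fun y => X.r (Sum.inl w) y) = d) =
      cnt (fun w : Fin (2 * X.C) × X.V => X.D * (w.1.val + 2) + X.off w.2 = d) :=
    cnt_congr (fun w => by
      obtain ⟨i, u⟩ := w
      rw [X.deg_base])
  have e2 : cnt (fun w : X.Z × Bool => cnt (fun y => X.r (Sum.inr w) y) = d) =
      cnt (fun w : X.Z × Bool => (if w.2 then X.C - X.xv w.1 else X.xv w.1) = d) :=
    cnt_congr (fun w => by
      obtain ⟨z, b⟩ := w
      rw [X.deg_new])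
  rw [e1, e2]
  by_cases hd : X.D ∣ d + 1
  · have h1 : cnt (fun w : Fin (2 * X.C) × X.V => X.D * (w.1.val + 2) + X.off w.2 = d) = 0 := by
      apply cnt_false
      rintro ⟨i, u⟩ h
      simp only at h
      have h2 := X.off_le u
      rw [← h, add_assoc] at hd
      have h3 : X.D ∣ X.off u + 1 := (Nat.dvd_add_right (Dvd.intro _ rfl)).mp hd
      have h4 := Nat.le_of_dvd (by omega) h3
      omega
    have h2 : cnt (fun w : X.Z × Bool => (if w.2 then X.C - X.xv w.1 else X.xv w.1) = d) ≤ 1 :=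
      cnt_le_one (fun y y' h h' => X.new_inj h h')
    have := X.hk
    omega
  · have h1 : cnt (fun w : X.Z × Bool => (if w.2 then X.C - X.xv w.1 else X.xv w.1) = d) = 0 :=
      cnt_false (fun y h => hd (X.new_dvd h))
    rw [h1, add_zero]
    have hmod : ∀ (i : Fin (2 * X.C)) (u : X.V), X.D * (i.val + 2) + X.off u = d →
        X.off u = d % X.D ∧ i.val + 2 = d / X.D := by
      intro i u h
      have h2 := X.off_le u
      rw [← h]
      constructor
      · rw [Nat.mul_add_mod]
        exact (Nat.mod_eq_of_lt (by omega)).symm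
      · rw [Nat.mul_add_div (by omega), Nat.div_eq_of_lt (by omega), add_zero]
    refine le_trans (cnt_le_of_inj (q := fun n : Fin X.N =>
      X.k * (d % X.D) ≤ n.val ∧ n.val < X.k * (d % X.D) + X.k) (fun w => X.φ w.2) ?_ ?_) ?_
    · rintro ⟨i, u⟩ h
      have h3 := (hmod i u h).1
      unfold off at h3
      simp only
      rw [← h3]
      have h4 := Nat.div_add_mod (X.φ u).val X.k
      have h5 := Nat.mod_lt (X.φ u).val X.hk
      omega
    · rintro ⟨i, u⟩ ⟨j, v⟩ h h' huv
      have h3 := X.φ.injective huv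
      simp only at h3
      subst h3
      have h4 := (hmod i u h).2
      have h5 := (hmod j u h').2
      have h6 : i = j := Fin.ext (by omega)
      rw [h6]
    · refine (cnt_fin_le _ _).trans ?_
      omega

lemma card_new : Fintype.card (X.Z × Bool) ≤ 8 * X.N * X.D := by
  rw [Fintype.card_prod, Fintype.card_bool, Fintype.card_sigma]
  have h1 : ∑ p : X.V × Bool, Fintype.card (Fin (X.e p)) ≤ ∑ _p : X.V × Bool, 2 * X.D := by
    apply sum_le_sum
    intro p _
    rw [Fintype.card_fin]
    exact (X.e_lt p).le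
  rw [sum_const, card_univ, Fintype.card_prod, Fintype.card_bool, Fintype.card_congr X.φ,
    Fintype.card_fin, smul_eq_mul] at h1
  calc (∑ p : X.V × Bool, Fintype.card (Fin (X.e p))) * 2 ≤ (X.N * 2 * (2 * X.D)) * 2 :=
        Nat.mul_le_mul_right 2 h1
    _ = 8 * X.N * X.D := by ring

lemma r_ind (p : X.W → Prop) (hp : ∀ x y, p x → p y → ¬ X.r x y) :
    cnt p ≤ 2 * X.C * X.D + 8 * X.N * X.D := by
  rw [cnt_sum]
  apply Nat.add_le_add
  · rw [cnt_prod]
    have h1 : ∀ i ∈ (univ : Finset (Fin (2 * X.C))), cnt (fun u => p (Sum.inl (i, u))) ≤ X.D := by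
      intro i _
      apply X.S.ind
      intro u v hu hv huv
      exact hp _ _ hu hv ⟨Or.inr rfl, huv⟩
    refine (sum_le_sum h1).trans ?_
    rw [sum_const, card_univ, Fintype.card_fin, smul_eq_mul]
  · exact (cnt_le_card _).trans X.card_new

lemma card_W : 2 * X.C * X.N ≤ Fintype.card X.W := by
  rw [Fintype.card_sum, Fintype.card_prod, Fintype.card_fin, Fintype.card_congr X.φ,
    Fintype.card_fin]
  exact Nat.le_add_right _ _

lemma C_ge : 8 * X.N * X.D ^ 2 ≤ X.C := by
  have h1 := X.C_eq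
  have h2 := X.hD
  have h3 : 2 * X.D * (X.Y0 + 1) = 8 * X.N * X.D ^ 2 + 2 * X.D := by
    unfold Y0
    ring
  omega

end Data

end Construction

/-! ### The main results -/

section Main

open Classical in
/-- Existence for `k ≥ 3`. -/
lemma exists_ge_three (k : ℕ) (hk : 3 ≤ k) (ε : ℝ) (hε : 0 < ε) (n₀ : ℕ) :
    ∃ n : ℕ, n₀ ≤ n ∧ ∃ G : SimpleGraph (Fin n), G.CliqueFree 3 ∧ (∀ v, 1 ≤ G.degree v) ∧
      maxMult G ≤ k ∧ (G.indepNum : ℝ) ≤ (1 / k + ε) * n := by
  obtain ⟨M, hM⟩ := exists_nat_gt (1 / ε)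
  obtain ⟨N, D, ⟨V, fV, hc, ⟨S⟩⟩, hMD, hD, hN, hNk, hlt⟩ :=
    params k hk (ε / 2) (by positivity) (M + n₀)
  let X : Data :=
    { V := V, fV := fV, D := D, S := S, N := N, φ := Fintype.equivFinOfCardEq hc, k := k,
      hk := by omega, hD := hD, hN := hN, hNk := hNk }
  obtain ⟨G, h1, h2, h3, h4⟩ := package X.r X.r_symm X.r_tri k _ X.r_deg X.r_mult X.r_ind
  have hW : 2 * X.C * N ≤ Fintype.card X.W := X.card_W
  have hC : 8 * N * D ^ 2 ≤ X.C := X.C_ge
  refine ⟨Fintype.card X.W, ?_, G, h1, h2, h3, ?_⟩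
  · have h5 : D ≤ 2 * X.C * N := by nlinarith
    omega
  · have h5 : (G.indepNum : ℝ) ≤ 2 * X.C * D + 8 * N * D := by exact_mod_cast h4
    have h6 : (2 * X.C * N : ℝ) ≤ Fintype.card X.W := by exact_mod_cast hW
    have h7 : (8 * N * D ^ 2 : ℝ) ≤ X.C := by exact_mod_cast hC
    have hN' : (1 : ℝ) ≤ N := by exact_mod_cast hN
    have hD' : (2 : ℝ) ≤ D := by exact_mod_cast hD
    have hC0 : (0 : ℝ) ≤ X.C := by positivity
    rw [div_lt_iff₀ (by positivity)] at hlt
    have hMD' : (M : ℝ) ≤ D := by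
      have : M ≤ D := by omega
      exact_mod_cast this
    have hεD : 1 ≤ ε * D := by
      have : 1 / ε < D := lt_of_lt_of_le hM hMD'
      rw [div_lt_iff₀ hε] at this
      linarith
    have hk0 : (0 : ℝ) ≤ 1 / k := by positivity
    calc (G.indepNum : ℝ) ≤ 2 * X.C * D + 8 * N * D := h5
      _ ≤ (1 / k + ε) * (2 * X.C * N) := by
          have e1 : 2 * (X.C : ℝ) * D ≤ 2 * X.C * ((1 / k + ε / 2) * N) := by nlinarith
          have e2 : (8 * N * D : ℝ) ≤ ε * X.C * N := by
            have e3 : (8 * D : ℝ) ≤ ε * X.C := by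
              have e4 : (8 * D : ℝ) ≤ 8 * D * (ε * D) := by nlinarith
              have e5 : 8 * D * (ε * D) ≤ ε * (8 * N * D ^ 2) := by
                have : 8 * D * (ε * D) * 1 ≤ 8 * D * (ε * D) * N :=
                  mul_le_mul_of_nonneg_left hN' (by positivity)
                nlinarith
              have e6 : ε * (8 * N * D ^ 2) ≤ ε * X.C := mul_le_mul_of_nonneg_left h7 hε.le
              linarith
            nlinarith
          nlinarith
      _ ≤ (1 / k + ε) * Fintype.card X.W :=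
          mul_le_mul_of_nonneg_left h6 (by positivity)

/-- the half graph -/
def halfR (m : ℕ) : Fin m ⊕ Fin m → Fin m ⊕ Fin m → Prop
  | Sum.inl i, Sum.inr j => m ≤ i.val + j.val + 1
  | Sum.inr i, Sum.inl j => m ≤ i.val + j.val + 1
  | _, _ => False

open Classical in
/-- Existence for `k = 2`. -/
lemma exists_two (m : ℕ) :
    ∃ G : SimpleGraph (Fin (m + m)), G.CliqueFree 3 ∧ (∀ v, 1 ≤ G.degree v) ∧
      maxMult G ≤ 2 ∧ G.indepNum ≤ m := by
  have hdeg : ∀ i : Fin m, cnt (fun j : Fin m => m ≤ i.val + j.val + 1) = i.val + 1 := by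
    intro i
    have hi := i.isLt
    have h1 := cnt_fin (n := m) (m - 1 - i.val) m le_rfl
    rw [show m - (m - 1 - i.val) = i.val + 1 by omega] at h1
    refine Eq.trans ?_ h1
    apply cnt_congr
    intro j
    have hj := j.isLt
    omega
  have hd1 : ∀ x : Fin m ⊕ Fin m, cnt (fun y => halfR m x y) =
      Sum.elim (fun i => i.val + 1) (fun i => i.val + 1) x := by
    rintro (i | i)
    · rw [cnt_sum]
      have h1 : cnt (fun y => halfR m (Sum.inl i) (Sum.inl y)) = 0 := cnt_false (fun y h => h)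
      have h2 : cnt (fun y => halfR m (Sum.inl i) (Sum.inr y)) = i.val + 1 := hdeg i
      rw [h1, h2, zero_add]
      rfl
    · rw [cnt_sum]
      have h1 : cnt (fun y => halfR m (Sum.inr i) (Sum.inl y)) = i.val + 1 := hdeg i
      have h2 : cnt (fun y => halfR m (Sum.inr i) (Sum.inr y)) = 0 := cnt_false (fun y h => h)
      rw [h1, h2, add_zero]
      rfl
  have h := package (halfR m) ?_ ?_ 2 m ?_ ?_ ?_
  · have hc : Fintype.card (Fin m ⊕ Fin m) = m + m := by
      rw [Fintype.card_sum, Fintype.card_fin]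
    rwa [hc] at h
  · rintro (i | i) (j | j) h
    · exact h
    · have h' : m ≤ i.val + j.val + 1 := h
      show m ≤ j.val + i.val + 1
      omega
    · have h' : m ≤ i.val + j.val + 1 := h
      show m ≤ j.val + i.val + 1
      omega
    · exact h
  · rintro (i | i) (j | j) (l | l) h1 h2 h3
    all_goals first
      | exact h1
      | exact h2
      | exact h3
  · intro x
    rw [hd1]
    rcases x with i | i <;> simp
  · intro d
    simp_rw [hd1]
    rw [cnt_sum]
    have h1 : cnt (fun x : Fin m => Sum.elim (fun i : Fin m => i.val + 1)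
        (fun i : Fin m => i.val + 1) (Sum.inl x) = d) ≤ 1 := by
      apply cnt_le_one
      intro x y hx hy
      simp only [Sum.elim_inl] at hx hy
      exact Fin.ext (by omega)
    have h2 : cnt (fun x : Fin m => Sum.elim (fun i : Fin m => i.val + 1)
        (fun i : Fin m => i.val + 1) (Sum.inr x) = d) ≤ 1 := by
      apply cnt_le_one
      intro x y hx hy
      simp only [Sum.elim_inr] at hx hy
      exact Fin.ext (by omega)
    omega
  · intro p hp
    rw [cnt_sum]
    have h1 : cnt (fun i : Fin m => p (Sum.inr (Fin.revPerm i))) =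
        cnt (fun i : Fin m => p (Sum.inr i)) :=
      cnt_equiv Fin.revPerm (fun i => p (Sum.inr i))
    rw [← h1]
    have h2 := cnt_add_le (p := fun i : Fin m => p (Sum.inl i))
      (q := fun i : Fin m => p (Sum.inr (Fin.revPerm i))) (by
      intro i hi hi'
      apply hp _ _ hi hi'
      show m ≤ i.val + (Fin.revPerm i).val + 1
      have h3 : (Fin.revPerm i).val = m - (i.val + 1) := by
        rw [Fin.revPerm_apply, Fin.val_rev]
      have := i.isLt
      omega)
    rw [Fintype.card_fin] at h2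
    exact h2

open Classical in
/-- **Existence** for every `k ≥ 2`. -/
theorem exists_graph (k : ℕ) (hk : 2 ≤ k) (ε : ℝ) (hε : 0 < ε) (n₀ : ℕ) :
    ∃ n : ℕ, n₀ ≤ n ∧ ∃ G : SimpleGraph (Fin n), G.CliqueFree 3 ∧ (∀ v, 1 ≤ G.degree v) ∧
      maxMult G ≤ k ∧ (G.indepNum : ℝ) ≤ (1 / k + ε) * n := by
  rcases Nat.lt_or_ge k 3 with h | h
  · have hk2 : k = 2 := by omega
    subst hk2
    obtain ⟨G, h1, h2, h3, h4⟩ := exists_two n₀
    refine ⟨n₀ + n₀, by omega, G, h1, h2, h3, ?_⟩
    have h5 : (G.indepNum : ℝ) ≤ n₀ := by exact_mod_cast h4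
    have h6 : (0 : ℝ) ≤ n₀ := by positivity
    push_cast
    nlinarith [mul_nonneg hε.le h6]
  · exact exists_ge_three k h ε hε n₀

open Classical in
/-- **The known lower bound** `β(G) ≥ n / k`. -/
theorem lower_bound (k n : ℕ) (G : SimpleGraph (Fin n)) (htri : G.CliqueFree 3)
    (hdeg : ∀ v, 1 ≤ G.degree v) (hmult : maxMult G ≤ k) : n ≤ k * G.indepNum := by
  have hle : ∀ v, G.degree v ≤ G.indepNum := by
    intro v
    rw [← SimpleGraph.card_neighborFinset_eq_degree]
    apply SimpleGraph.IsIndepSet.card_le_indepNum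
    intro x hx y hy hxy hadj
    rw [Finset.mem_coe, SimpleGraph.mem_neighborFinset] at hx hy
    apply htri {v, x, y}
    rw [SimpleGraph.is3Clique_iff]
    exact ⟨v, x, y, hx, hy, hadj, rfl⟩
  have hmaps : ∀ v ∈ (univ : Finset (Fin n)), G.degree v ∈ Icc 1 G.indepNum := by
    intro v _
    rw [mem_Icc]
    exact ⟨hdeg v, hle v⟩
  have hfib : ∀ d ∈ Icc 1 G.indepNum, (univ.filter (fun v => G.degree v = d)).card ≤ k := by
    intro d _
    rcases (univ.filter (fun v => G.degree v = d)).eq_empty_or_nonempty with h | ⟨v, hv⟩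
    · rw [h, card_empty]
      exact Nat.zero_le _
    · rw [mem_filter] at hv
      refine le_trans ?_ hmult
      unfold maxMult
      rw [← hv.2]
      exact Finset.le_sup (f := fun v => (univ.filter (fun w => G.degree w = G.degree v)).card)
        (mem_univ v)
  have h := card_le_mul_card_image_of_maps_to hmaps k hfib
  rw [card_univ, Fintype.card_fin, Nat.card_Icc, Nat.add_sub_cancel] at h
  exact h

open Classical in
lemma g_le (k n : ℕ) (G : SimpleGraph (Fin n)) (h1 : G.CliqueFree 3)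
    (h2 : ∀ v, 1 ≤ G.degree v) (h3 : maxMult G ≤ k) : g k n ≤ (G.indepNum : ℕ∞) :=
  iInf_le_of_le G (iInf_le_of_le h1 (iInf_le_of_le h2 (iInf_le_of_le h3 le_rfl)))

open Classical in
lemma le_g (k n : ℕ) (hk : 1 ≤ k) : (n : ℕ∞) ≤ k * g k n := by
  by_contra hcon
  push Not at hcon
  have hne : g k n ≠ ⊤ := by
    intro h
    rw [h, ENat.mul_top (by
      have : k ≠ 0 := by omega
      exact_mod_cast this)] at hcon
    exact not_top_lt hcon
  obtain ⟨a, ha⟩ := ENat.ne_top_iff_exists.mp hne
  have hlt : g k n < ((a + 1 : ℕ) : ℕ∞) := by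
    rw [← ha]
    exact_mod_cast Nat.lt_succ_self a
  unfold g at hlt
  rw [iInf_lt_iff] at hlt
  obtain ⟨G, hlt⟩ := hlt
  rw [iInf_lt_iff] at hlt
  obtain ⟨h1, hlt⟩ := hlt
  rw [iInf_lt_iff] at hlt
  obtain ⟨h2, hlt⟩ := hlt
  rw [iInf_lt_iff] at hlt
  obtain ⟨h3, hlt⟩ := hlt
  have h4 : G.indepNum < a + 1 := by exact_mod_cast hlt
  have h5 := lower_bound k n G h1 h2 h3
  have h6 : n ≤ k * a := h5.trans (Nat.mul_le_mul_left k (by omega))
  have h7 : (n : ℕ∞) ≤ k * g k n := by
    rw [← ha]
    exact_mod_cast h6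
  exact absurd h7 (not_le.mpr hcon)

open Classical in
/-- **The answer is yes.** For every `k ≥ 2`, `liminf g_k(n) / n = 1 / k`. -/
theorem result :
    (∀ k : ℕ, 2 ≤ k →
      Filter.liminf (fun n : ℕ => ((g k n : ℕ∞) : ENNReal) / (n : ENNReal)) Filter.atTop =
        1 / (k : ENNReal)) ∧
    (∀ k : ℕ, 2 ≤ k → ∀ ε : ℝ, 0 < ε → ∀ n₀ : ℕ, ∃ n : ℕ, n₀ ≤ n ∧
      ∃ G : SimpleGraph (Fin n), G.CliqueFree 3 ∧ (∀ v, 1 ≤ G.degree v) ∧
        maxMult G ≤ k ∧ (G.indepNum : ℝ) ≤ (1 / k + ε) * n) := by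
  refine ⟨?_, exists_graph⟩
  intro k hk
  have hk0 : (k : ENNReal) ≠ 0 := by
    have : k ≠ 0 := by omega
    exact_mod_cast this
  apply le_antisymm
  · apply ENNReal.le_of_forall_pos_le_add
    intro ε hε _
    apply Filter.liminf_le_of_frequently_le'
    rw [Filter.frequently_atTop]
    intro n₀
    obtain ⟨n, hn, G, h1, h2, h3, h4⟩ := exists_graph k hk ε (by exact_mod_cast hε) (n₀ + 1)
    refine ⟨n, by omega, ?_⟩
    have hn0 : (n : ENNReal) ≠ 0 := by
      have : n ≠ 0 := by omega
      exact_mod_cast this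
    apply ENNReal.div_le_of_le_mul
    have h5 : ((g k n : ℕ∞) : ENNReal) ≤ ((G.indepNum : ℕ∞) : ENNReal) :=
      ENat.toENNReal_mono (g_le k n G h1 h2 h3)
    refine h5.trans ?_
    rw [ENat.toENNReal_coe]
    have h7 : ENNReal.ofReal (G.indepNum : ℝ) ≤ ENNReal.ofReal ((1 / (k : ℝ) + ε) * n) :=
      ENNReal.ofReal_le_ofReal h4
    rw [ENNReal.ofReal_natCast, ENNReal.ofReal_mul (by positivity), ENNReal.ofReal_natCast,
      ENNReal.ofReal_add (by positivity) (by positivity),
      ENNReal.ofReal_div_of_pos (by positivity), ENNReal.ofReal_one, ENNReal.ofReal_natCast,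
      ENNReal.ofReal_coe_nnreal] at h7
    exact h7
  · apply Filter.le_liminf_of_le
    · isBoundedDefault
    · rw [Filter.eventually_atTop]
      refine ⟨1, fun n hn => ?_⟩
      have hn0 : (n : ENNReal) ≠ 0 := by
        have : n ≠ 0 := by omega
        exact_mod_cast this
      rw [ENNReal.le_div_iff_mul_le (Or.inl hn0) (Or.inl (ENNReal.natCast_ne_top n))]
      rw [one_div, mul_comm, ← div_eq_mul_inv]
      apply ENNReal.div_le_of_le_mul'
      have h := ENat.toENNReal_mono (le_g k n (by omega))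
      rw [ENat.toENNReal_mul, ENat.toENNReal_coe, ENat.toENNReal_coe] at h
      exact h

end Main

end Pool.Agent.Results.MP_e6c71b_co.FewRepeatedDegrees
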