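import Mathlib

/-!
Two vertices of maximum degree in forests: the sharp threshold N(t).
-/

namespace Pool.Agent.Results.MP_fe24f9_co.ForestThreshold

open Finset

open Classical in
/-- The graph `H` has at least two vertices of maximum degree. -/
def TwoMax {W : Type*} [Fintype W] (H : SimpleGraph W) : Prop :=
  ∃ u v : W, u ≠ v ∧ H.degree u = H.maxDegree ∧ H.degree v = H.maxDegree

open Classical in
/-- In `G - B` at least two vertices have maximum degree, or `G - B` has fewer than two
vertices. -/
def Good {V : Type*} [Fintype V] (G : SimpleGraph V) (B : Finset V) : Prop :=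
  TwoMax (G.induce {v : V | v ∉ B}) ∨ Nat.card {v : V // v ∉ B} < 2

/-- The least size of a deletion set after which `Good` holds. -/
noncomputable def f {V : Type*} [Fintype V] (G : SimpleGraph V) : ℕ :=
  sInf {k : ℕ | ∃ B : Finset V, B.card = k ∧ Good G B}

/-- The threshold. -/
def N (t : ℕ) : ℕ := (t ^ 3 + 6 * t ^ 2 + 17 * t + 12) / 6

/-- triangular numbers -/
def T (i : ℕ) : ℕ := i * (i + 1) / 2

lemma T_succ (i : ℕ) : T (i + 1) = T i + (i + 1) := by
  unfold T
  have : (i + 1) * (i + 1 + 1) = i * (i + 1) + 2 * (i + 1) := by ring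
  rw [this, Nat.add_mul_div_left _ _ (by norm_num)]

lemma T_mono : Monotone T := by
  apply monotone_nat_of_le_succ
  intro n
  rw [T_succ]
  omega

lemma le_T (i : ℕ) : i ≤ T i := by
  induction i with
  | zero => simp
  | succ n ih => rw [T_succ]; omega

lemma N_six (t : ℕ) : 6 * N t = t ^ 3 + 6 * t ^ 2 + 17 * t + 12 := by
  unfold N
  apply Nat.mul_div_cancel'
  induction t with
  | zero => norm_num
  | succ n ih =>
    have h2 : (2 : ℕ) ∣ n * (n + 5) := by
      rcases Nat.even_or_odd n with h | h
      · exact Dvd.dvd.mul_right h.two_dvd _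
      · have : Even (n + 5) := by
          rcases h with ⟨m, rfl⟩
          exact ⟨m + 3, by ring⟩
        exact Dvd.dvd.mul_left this.two_dvd _
    obtain ⟨m, hm⟩ := h2
    have : (n + 1) ^ 3 + 6 * (n + 1) ^ 2 + 17 * (n + 1) + 12
        = (n ^ 3 + 6 * n ^ 2 + 17 * n + 12) + 6 * (m + 4) := by
      have : 6 * (m + 4) = 3 * (n * (n + 5)) + 24 := by rw [hm]; ring
      rw [this]; ring
    rw [this]
    exact dvd_add ih ⟨_, rfl⟩

/-- The sum of `T i + 1` for `1 ≤ i ≤ s`. -/
def S (s : ℕ) : ℕ := ∑ i ∈ range s, (T (i + 1) + 1)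

lemma S_succ (s : ℕ) : S (s + 1) = S s + (T (s + 1) + 1) := by
  unfold S
  rw [sum_range_succ]

lemma S_eq (t : ℕ) : S (t + 1) = N t := by
  have h6 : ∀ t, 6 * S (t + 1) = t ^ 3 + 6 * t ^ 2 + 17 * t + 12 := by
    intro t
    induction t with
    | zero => simp [S, T]
    | succ n ih =>
      rw [S_succ, mul_add, ih]
      have hT : 2 * T (n + 1 + 1) = (n + 2) * (n + 3) := by
        have : ∀ i, 2 * T i = i * (i + 1) := by
          intro i
          induction i with
          | zero => simp [T]
          | succ k ihk => rw [T_succ, mul_add, ihk]; ring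
        rw [this]
      have : 6 * (T (n + 1 + 1) + 1) = 3 * (2 * T (n + 1 + 1)) + 6 := by ring
      rw [this, hT]; ring
  have h1 := h6 t
  have h2 := N_six t
  omega

section General

variable {V : Type*} [Fintype V] [DecidableEq V] (G : SimpleGraph V) [DecidableRel G.Adj]

/-- degree of `v` into `W` -/
def dg (W : Finset V) (v : V) : ℕ := (W.filter (fun u => G.Adj v u)).card

/-- The finset form of `Good`, for the surviving vertex set `W`. -/
def GoodW (W : Finset V) : Prop :=
  (∃ u ∈ W, ∃ v ∈ W, u ≠ v ∧ dg G W u = dg G W v ∧ ∀ w ∈ W, dg G W w ≤ dg G W u) ∨ W.card < 2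

/-- number of edges inside `W` -/
def eW (W : Finset V) : ℕ := (G.edgeFinset.filter (fun e => ∀ x ∈ e, x ∈ W)).card

omit [Fintype V] [DecidableEq V] in
lemma dg_mono {W W' : Finset V} (h : W ⊆ W') (v : V) : dg G W v ≤ dg G W' v := by
  unfold dg
  exact card_le_card (filter_subset_filter _ h)

lemma eW_erase (W : Finset V) (v : V) (hv : v ∈ W) :
    eW G (W.erase v) + dg G W v ≤ eW G W := by
  unfold eW dg
  have hinj : Set.InjOn (fun u => s(v, u)) (W.filter (fun u => G.Adj v u) : Finset V) := by
    intro a ha b hb hab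
    simp only [Sym2.eq_iff] at hab
    rcases hab with h | h
    · exact h.2
    · rw [h.2, ← h.1]
  rw [← card_image_of_injOn hinj, ← card_union_of_disjoint]
  · apply card_le_card
    intro e he
    rw [mem_union] at he
    rcases he with he | he
    · rw [mem_filter] at he ⊢
      exact ⟨he.1, fun x hx => mem_of_mem_erase (he.2 x hx)⟩
    · rw [mem_image] at he
      obtain ⟨u, hu, rfl⟩ := he
      rw [mem_filter] at hu ⊢
      refine ⟨by simpa using hu.2, ?_⟩
      intro x hx
      rw [Sym2.mem_iff] at hx
      rcases hx with rfl | rfl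
      · exact hv
      · exact hu.1
  · rw [disjoint_left]
    intro e he he'
    rw [mem_filter] at he
    rw [mem_image] at he'
    obtain ⟨u, hu, rfl⟩ := he'
    have := he.2 v (by simp)
    simp at this

omit [Fintype V] [DecidableEq V] [DecidableRel G.Adj] in
lemma common (hG : G.IsAcyclic) {v u x y : V} (hvu : v ≠ u) (hx : G.Adj v x) (hy : G.Adj v y)
    (hxu : x = u ∨ G.Adj x u) (hyu : y = u ∨ G.Adj y u) : x = y := by
  have hpath : ∀ z : V, G.Adj v z → (z = u ∨ G.Adj z u) →
      ∃ p : G.Walk v u, p.IsPath ∧ p.snd = z := by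
    intro z hz hzu
    rcases hzu with rfl | hzu
    · exact ⟨SimpleGraph.Walk.cons hz SimpleGraph.Walk.nil, by simp [hvu], by simp⟩
    · refine ⟨SimpleGraph.Walk.cons hz (SimpleGraph.Walk.cons hzu SimpleGraph.Walk.nil), ?_, by simp⟩
      simp [hvu, hzu.ne, hz.ne]
  obtain ⟨p, hp, hpx⟩ := hpath x hx hxu
  obtain ⟨q, hq, hqy⟩ := hpath y hy hyu
  have := (hG.subsingleton_path v u).elim ⟨p, hp⟩ ⟨q, hq⟩
  have h2 : p = q := congrArg Subtype.val this
  rw [← hpx, ← hqy, h2]

omit [Fintype V] [DecidableEq V] in
/-- Not `GoodW` gives a unique vertex of maximum degree. -/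
lemma exists_unique_max {W : Finset V} (h : ¬ GoodW G W) :
    2 ≤ W.card ∧ ∃ v ∈ W, ∀ w ∈ W, w ≠ v → dg G W w < dg G W v := by
  unfold GoodW at h
  push Not at h
  obtain ⟨h1, h2⟩ := h
  refine ⟨h2, ?_⟩
  have hne : W.Nonempty := by
    rw [← card_pos]; omega
  obtain ⟨v, hv, hmax⟩ := exists_max_image W (dg G W) hne
  refine ⟨v, hv, ?_⟩
  intro w hw hwv
  by_contra hcon
  have heq : dg G W v = dg G W w := le_antisymm (by omega) (hmax w hw)
  obtain ⟨z, hz, hz2⟩ := h1 v hv w hw (Ne.symm hwv) heq
  have := hmax z hz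
  omega

lemma main_induction (hG : G.IsAcyclic) (s : ℕ) : ∀ W : Finset V,
    (∀ B ⊆ W, B.card < s + 1 → ¬ GoodW G (W \ B)) →
    S (s + 1) ≤ eW G W ∧ ∃ v ∈ W, T (s + 1) + 1 ≤ dg G W v := by
  induction s with
  | zero =>
    intro W hW
    have h0 := hW ∅ (empty_subset _) (by simp)
    rw [sdiff_empty] at h0
    obtain ⟨hc, v, hv, hmax⟩ := exists_unique_max G h0
    have hdeg : 2 ≤ dg G W v := by
      obtain ⟨w, hw, hwv⟩ := exists_mem_ne (s := W) (by omega) v
      have h1 := hmax w hw hwv
      have h2 : 0 < dg G W v := by omega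
      unfold dg at h2
      rw [card_pos] at h2
      obtain ⟨x, hx⟩ := h2
      rw [mem_filter] at hx
      have h3 : 0 < dg G W x := by
        unfold dg
        rw [card_pos]
        exact ⟨v, by rw [mem_filter]; exact ⟨hv, hx.2.symm⟩⟩
      have h4 := hmax x hx.1 hx.2.ne'
      omega
    have he := eW_erase G W v hv
    refine ⟨?_, v, hv, ?_⟩
    · have : S (0 + 1) = 2 := by simp [S, T]
      omega
    · have : T (0 + 1) = 1 := by simp [T]
      omega
  | succ s ih =>
    intro W hW
    have h0 := hW ∅ (empty_subset _) (by simp)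
    rw [sdiff_empty] at h0
    obtain ⟨hc, v, hv, hmax⟩ := exists_unique_max G h0
    have hIH := ih (W.erase v) (by
      intro B hB hBc
      have : W.erase v \ B = W \ (insert v B) := by
        ext x
        simp only [mem_sdiff, mem_erase, mem_insert, not_or]
        tauto
      rw [this]
      apply hW
      · intro x hx
        rw [mem_insert] at hx
        rcases hx with rfl | hx
        · exact hv
        · exact mem_of_mem_erase (hB hx)
      · have := card_insert_le v B
        omega)
    obtain ⟨he, u, hu, hud⟩ := hIH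
    have hne : (W.erase v).Nonempty := ⟨u, hu⟩
    obtain ⟨u', hu', hu'max⟩ := exists_max_image (W.erase v) (dg G W) hne
    have hu'W : u' ∈ W := mem_of_mem_erase hu'
    have hu'v : u' ≠ v := ne_of_mem_erase hu'
    have hdu' : T (s + 1) + 1 ≤ dg G W u' :=
      hud.trans ((dg_mono G (erase_subset _ _) u).trans (hu'max u hu))
    have hgap : dg G W u' + (s + 2) ≤ dg G W v := by
      by_contra hcon
      have hlt := hmax u' hu'W hu'v
      -- the deletable neighbours
      set A := W.filter (fun x => G.Adj v x) with hA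
      set D := A.filter (fun x => x = u' ∨ G.Adj x u') with hD
      have hDc : D.card ≤ 1 := by
        rw [card_le_one]
        intro a ha b hb
        rw [hD, mem_filter, hA, mem_filter] at ha hb
        exact common G hG (Ne.symm hu'v) ha.1.2 hb.1.2 ha.2 hb.2
      have hAc : A.card = dg G W v := rfl
      have hADc : A.card ≤ (A \ D).card + 1 := by
        have := card_le_card_sdiff_add_card (s := A) (t := D)
        omega
      have hg : dg G W v - dg G W u' ≤ (A \ D).card := by omega
      obtain ⟨R, hR, hRc⟩ := exists_subset_card_eq hg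
      have hRW : R ⊆ W := fun x hx => (mem_filter.1 (mem_sdiff.1 (hR hx)).1).1
      have hRadj : ∀ x ∈ R, G.Adj v x := fun x hx => (mem_filter.1 (mem_sdiff.1 (hR hx)).1).2
      have hRnot : ∀ x ∈ R, x ≠ u' ∧ ¬ G.Adj x u' := by
        intro x hx
        have h1 := (mem_sdiff.1 (hR hx))
        by_contra hcon2
        apply h1.2
        rw [hD, mem_filter]
        refine ⟨h1.1, ?_⟩
        tauto
      apply hW R hRW (by omega)
      left
      have hvR : v ∉ R := fun h => (hRadj v h).ne rfl
      have hu'R : u' ∉ R := fun h => (hRnot u' h).1 rfl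
      have hdv : dg G (W \ R) v = dg G W v - R.card := by
        unfold dg
        have : (W \ R).filter (fun u => G.Adj v u) = (W.filter (fun u => G.Adj v u)) \ R := by
          ext x
          simp only [mem_sdiff, mem_filter]
          tauto
        rw [this, card_sdiff_of_subset]
        intro x hx
        rw [mem_filter]
        exact ⟨hRW hx, hRadj x hx⟩
      have hdu : dg G (W \ R) u' = dg G W u' := by
        unfold dg
        congr 1
        ext x
        simp only [mem_sdiff, mem_filter]
        constructor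
        · rintro ⟨⟨a, b⟩, c⟩
          exact ⟨a, c⟩
        · rintro ⟨a, c⟩
          exact ⟨⟨a, fun h => (hRnot x h).2 c.symm⟩, c⟩
      refine ⟨u', by simp [hu'W, hu'R], v, by simp [hv, hvR], hu'v, ?_, ?_⟩
      · rw [hdv, hdu]
        omega
      · intro w hw
        rw [hdu]
        rw [mem_sdiff] at hw
        by_cases hwv : w = v
        · subst hwv
          rw [hdv]
          omega
        · exact (dg_mono G sdiff_subset w).trans (hu'max w (mem_erase.2 ⟨hwv, hw.1⟩))
    have he2 := eW_erase G W v hv
    have hT : T (s + 1 + 1) = T (s + 1) + (s + 2) := T_succ (s + 1)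
    refine ⟨?_, v, hv, ?_⟩
    · rw [S_succ]
      omega
    · omega

omit [DecidableEq V] in
lemma edge_bound (hG : G.IsAcyclic) [Nonempty V] : G.edgeFinset.card + 1 ≤ Fintype.card V := by
  classical
  obtain ⟨H, hH1, hH2, hH3⟩ := (SimpleGraph.connected_top (V := V)).exists_isTree_le_of_le_of_isAcyclic
    (le_top : G ≤ ⊤) hG
  have := hH3.card_edgeFinset
  rw [← this]
  have := card_le_card (SimpleGraph.edgeFinset_mono hH1)
  omega

lemma twoMax_inst {W : Type*} (i1 i2 : Fintype W) (H : SimpleGraph W) :
    @TwoMax W i1 H ↔ @TwoMax W i2 H := by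
  rw [Subsingleton.elim i1 i2]

open Classical in
lemma twoMax_iff {W : Type*} [Fintype W] (H : SimpleGraph W) [inst : DecidableRel H.Adj] :
    TwoMax H ↔ ∃ u v : W, u ≠ v ∧ H.degree u = H.degree v ∧ ∀ w, H.degree w ≤ H.degree u := by
  have hi : inst = fun a b => Classical.propDecidable (H.Adj a b) := Subsingleton.elim _ _
  subst hi
  unfold TwoMax
  constructor
  · rintro ⟨u, v, huv, h1, h2⟩
    refine ⟨u, v, huv, h1.trans h2.symm, ?_⟩
    intro w
    have := H.degree_le_maxDegree w
    exact this.trans h1.symm.le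
  · rintro ⟨u, v, huv, h1, h2⟩
    have hm : H.maxDegree = H.degree u :=
      le_antisymm (H.maxDegree_le_of_forall_degree_le _ h2) (H.degree_le_maxDegree u)
    exact ⟨u, v, huv, hm.symm, h1.symm.trans hm.symm⟩

lemma degree_induce (B : Finset V) (v : ({v : V | v ∉ B} : Set V)) :
    (G.induce {v : V | v ∉ B}).degree v = dg G (univ \ B) v := by
  unfold dg
  rw [← SimpleGraph.card_neighborFinset_eq_degree, ← card_map (Function.Embedding.subtype _)]
  congr 1
  ext x
  simp only [mem_map, SimpleGraph.mem_neighborFinset, Function.Embedding.coe_subtype,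
    mem_filter, mem_sdiff, mem_univ, true_and]
  constructor
  · rintro ⟨a, ha, rfl⟩
    exact ⟨a.2, ha⟩
  · rintro ⟨h1, h2⟩
    exact ⟨⟨x, h1⟩, h2, rfl⟩

lemma good_iff (B : Finset V) : Good G B ↔ GoodW G (univ \ B) := by
  unfold Good GoodW
  have hc : Nat.card {v : V // v ∉ B} = (univ \ B).card := by
    rw [Nat.card_eq_fintype_card, Fintype.card_subtype]
    congr 1
    ext x
    simp
  rw [hc]
  have h2 : TwoMax (G.induce {v : V | v ∉ B}) ↔
      (∃ u ∈ univ \ B, ∃ v ∈ univ \ B, u ≠ v ∧ dg G (univ \ B) u = dg G (univ \ B) v ∧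
        ∀ w ∈ univ \ B, dg G (univ \ B) w ≤ dg G (univ \ B) u) := by
    have h3 := twoMax_iff (G.induce {v : V | v ∉ B})
    simp only [degree_induce] at h3
    refine Iff.trans (twoMax_inst _ _ _) (h3.trans ?_)
    constructor
    · rintro ⟨u, v, huv, h5, h6⟩
      refine ⟨u, mem_sdiff.2 ⟨mem_univ _, u.2⟩, v, mem_sdiff.2 ⟨mem_univ _, v.2⟩, fun h => huv (Subtype.ext h), h5, ?_⟩
      intro w hw
      exact h6 ⟨w, by simpa using hw⟩
    · rintro ⟨u, hu, v, hv, huv, h5, h6⟩
      refine ⟨⟨u, by simpa using hu⟩, ⟨v, by simpa using hv⟩, ?_, h5, ?_⟩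
      · intro h
        exact huv (congrArg Subtype.val h)
      · intro w
        exact h6 w (mem_sdiff.2 ⟨mem_univ _, w.2⟩)
  exact or_congr (Iff.trans (twoMax_inst _ _ _) h2) Iff.rfl

end General

/-- The upper bound. -/
theorem upper {V : Type*} [Fintype V] (t : ℕ) (G : SimpleGraph V) (hG : G.IsAcyclic)
    (hn : Fintype.card V ≤ N t) : f G ≤ t := by
  classical
  by_contra hcon
  push Not at hcon
  have key : ∀ B : Finset V, B.card < t + 1 → ¬ Good G B := by
    intro B hB hgood
    have : f G ≤ B.card := Nat.sInf_le ⟨B, rfl, hgood⟩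
    omega
  have h := main_induction G hG t univ (by
    intro B _ hB
    rw [← good_iff]
    exact key B hB)
  obtain ⟨he, v, -, -⟩ := h
  have : Nonempty V := ⟨v⟩
  have h1 := edge_bound G hG
  have h2 : eW G univ = G.edgeFinset.card := by
    unfold eW
    congr 1
    ext e
    simp
  rw [h2, S_eq] at he
  omega

/-! ### The extremal tree -/

/-- Non-root vertices: the pair `(j, 0)` is the `j`-th centre, `(j, l)` with `l ≠ 0` are its
leaves. -/
abbrev NR (s : ℕ) : Type := Σ j : Fin s, Fin (T (s - j) + 1)

/-- Vertices: the hub `none`, and the non-root vertices. -/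
abbrev VT (s : ℕ) : Type := Option (NR s)

/-- the parent of a non-root vertex -/
def par {s : ℕ} (a : NR s) : VT s := if a.2 = 0 then none else some ⟨a.1, 0⟩

lemma par_ne {s : ℕ} (a : NR s) : par a ≠ some a := by
  unfold par
  split_ifs with h
  · simp
  · intro h2
    apply h
    obtain ⟨j, l⟩ := a
    simp only [Option.some.injEq, Sigma.mk.injEq, heq_eq_eq, true_and] at h2
    exact h2.symm

/-- the extremal tree -/
def tree (s : ℕ) : SimpleGraph (VT s) where
  Adj x y := (∃ a, x = some a ∧ y = par a) ∨ (∃ a, y = some a ∧ x = par a)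
  symm := ⟨by
    intro x y h
    exact Or.symm h⟩
  loopless := ⟨by
    rintro x (⟨a, h1, h2⟩ | ⟨a, h1, h2⟩)
    · exact par_ne a (h2.symm.trans h1)
    · exact par_ne a (h2.symm.trans h1)⟩

lemma adj_par {s : ℕ} (a : NR s) : (tree s).Adj (some a) (par a) := Or.inl ⟨a, rfl, rfl⟩

lemma adj_none {s : ℕ} (y : VT s) : (tree s).Adj none y ↔ ∃ j, y = some ⟨j, 0⟩ := by
  constructor
  · rintro (⟨a, h1, h2⟩ | ⟨a, h1, h2⟩)
    · simp at h1
    · obtain ⟨j, l⟩ := a
      unfold par at h2
      split_ifs at h2 with h3
      dsimp at h3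
      exact ⟨j, by rw [h1, h3]⟩
  · rintro ⟨j, rfl⟩
    exact Or.inr ⟨⟨j, 0⟩, rfl, by simp [par]⟩

lemma adj_centre {s : ℕ} (j : Fin s) (y : VT s) : (tree s).Adj (some ⟨j, 0⟩) y ↔
    y = none ∨ ∃ l : Fin (T (s - j) + 1), l ≠ 0 ∧ y = some ⟨j, l⟩ := by
  constructor
  · rintro (⟨a, h1, h2⟩ | ⟨a, h1, h2⟩)
    · left
      rw [Option.some.injEq] at h1
      subst h1
      rw [h2]
      simp [par]
    · right
      obtain ⟨i, l⟩ := a
      unfold par at h2
      split_ifs at h2 with h3
      dsimp at h3
      simp only [Option.some.injEq] at h2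
      have h4 : j = i := congrArg Sigma.fst h2
      subst h4
      exact ⟨l, h3, h1⟩
  · rintro (rfl | ⟨l, hl, rfl⟩)
    · exact Or.inl ⟨⟨j, 0⟩, rfl, by simp [par]⟩
    · exact Or.inr ⟨⟨j, l⟩, rfl, by simp [par, hl]⟩

lemma adj_leaf {s : ℕ} (j : Fin s) (l : Fin (T (s - j) + 1)) (hl : l ≠ 0) (y : VT s) :
    (tree s).Adj (some ⟨j, l⟩) y ↔ y = some ⟨j, 0⟩ := by
  constructor
  · rintro (⟨a, h1, h2⟩ | ⟨a, h1, h2⟩)
    · rw [Option.some.injEq] at h1
      subst h1
      rw [h2]
      simp [par, hl]
    · obtain ⟨i, l'⟩ := a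
      unfold par at h2
      split_ifs at h2 with h3
      simp only [Option.some.injEq, Sigma.mk.injEq] at h2
      obtain ⟨h4, h5⟩ := h2
      subst h4
      exact absurd (eq_of_heq h5) hl
  · rintro rfl
    exact Or.inl ⟨⟨j, l⟩, rfl, by simp [par, hl]⟩

lemma card_NR (s : ℕ) : Fintype.card (NR s) = S s := by
  unfold S
  rw [Fintype.card_sigma]
  simp only [Fintype.card_fin]
  rw [Fin.sum_univ_eq_sum_range (fun j => T (s - j) + 1) s, ← sum_range_reflect]
  apply sum_congr rfl
  intro j hj
  rw [mem_range] at hj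
  congr 2
  omega

lemma tree_isTree (s : ℕ) : (tree s).IsTree := by
  rw [SimpleGraph.isTree_iff_connected_and_card]
  have hroot : ∀ x : VT s, (tree s).Reachable x none := by
    have hc : ∀ j : Fin s, (tree s).Reachable (some ⟨j, 0⟩) none := by
      intro j
      apply SimpleGraph.Adj.reachable
      rw [adj_centre]
      exact Or.inl rfl
    intro x
    rcases x with _ | ⟨j, l⟩
    · exact SimpleGraph.Reachable.refl _
    · by_cases hl : l = 0
      · subst hl
        exact hc j
      · have : (tree s).Adj (some ⟨j, l⟩) (some ⟨j, 0⟩) := by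
          rw [adj_leaf j l hl]
        exact this.reachable.trans (hc j)
  have hconn : (tree s).Connected := by
    have : Nonempty (VT s) := ⟨none⟩
    refine SimpleGraph.Connected.mk ?_
    intro x y
    exact (hroot x).trans (hroot y).symm
  refine ⟨hconn, le_antisymm ?_ ?_⟩
  · have h1 : Nat.card (VT s) = Nat.card (NR s) + 1 := by
      rw [Nat.card_eq_fintype_card, Nat.card_eq_fintype_card, Fintype.card_option]
    rw [h1]
    have h2 : (tree s).edgeSet ⊆ Set.range (fun a : NR s => s(some a, par a)) := by
      intro e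
      induction e using Sym2.ind with
      | _ x y =>
        intro he
        rw [SimpleGraph.mem_edgeSet] at he
        rcases he with ⟨a, h3, h4⟩ | ⟨a, h3, h4⟩
        · exact ⟨a, by rw [h3, h4]⟩
        · exact ⟨a, by rw [h3, h4]; exact Sym2.eq_swap⟩
    have h3 : Nat.card (tree s).edgeSet ≤ Nat.card (NR s) := by
      refine (Nat.card_mono (Set.finite_range _) h2).trans ?_
      exact Finite.card_range_le _
    omega
  · exact hconn.card_vert_le_card_edgeSet_add_one

open Classical in
lemma not_goodW (s : ℕ) (B : Finset (VT s)) (hB : B.card < s) :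
    ¬ GoodW (tree s) (univ \ B) := by
  -- the first surviving centre
  have hex : ∃ j : Fin s, (some ⟨j, 0⟩ : VT s) ∉ B := by
    by_contra hcon
    push Not at hcon
    have : s ≤ B.card := by
      have h1 : (univ.image (fun j : Fin s => (some ⟨j, 0⟩ : VT s))).card = s := by
        rw [card_image_of_injective, card_univ, Fintype.card_fin]
        intro i j hij
        simp only [Option.some.injEq] at hij
        exact congrArg Sigma.fst hij
      refine h1.symm.le.trans (card_le_card ?_)
      intro x hx
      rw [mem_image] at hx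
      obtain ⟨j, -, rfl⟩ := hx
      exact hcon j
    omega
  obtain ⟨k, hk, hkmin⟩ : ∃ k : Fin s, (some ⟨k, 0⟩ : VT s) ∉ B ∧
      ∀ j : Fin s, j < k → (some ⟨j, 0⟩ : VT s) ∈ B := by
    have hne : (univ.filter (fun j : Fin s => (some ⟨j, 0⟩ : VT s) ∉ B)).Nonempty := by
      obtain ⟨j, hj⟩ := hex
      exact ⟨j, by simp [hj]⟩
    obtain ⟨k, hk, hmin⟩ := exists_min_image _ (fun j => j) hne
    refine ⟨k, (mem_filter.1 hk).2, ?_⟩
    intro j hj
    by_contra hcon
    have := hmin j (by simp [hcon])
    exact absurd this (not_le.2 hj)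
  have hks : (k : ℕ) < s := k.2
  obtain ⟨q, hq⟩ : ∃ q : ℕ, q + 1 = s - k := ⟨s - k - 1, by omega⟩
  -- degree of the centre k
  have hdk : T q + 2 ≤ dg (tree s) (univ \ B) (some ⟨k, 0⟩) := by
    set φ : Fin (T (s - k) + 1) → VT s := fun l => if l = 0 then none else some ⟨k, l⟩ with hφ
    have hinj : Function.Injective φ := by
      intro a b hab
      simp only [hφ] at hab
      split_ifs at hab with h1 h2 h2
      · rw [h1, h2]
      · simpa using hab
    have hφadj : ∀ l, (tree s).Adj (some ⟨k, 0⟩) (φ l) := by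
      intro l
      rw [adj_centre]
      simp only [hφ]
      split_ifs with h
      · exact Or.inl rfl
      · exact Or.inr ⟨l, h, rfl⟩
    set P := univ.image φ with hP
    have hPc : P.card = T (s - k) + 1 := by
      rw [hP, card_image_of_injective _ hinj, card_univ, Fintype.card_fin]
    set C := (Iio k).image (fun j : Fin s => (some ⟨j, 0⟩ : VT s))
      with hC
    have hCc : C.card = k := by
      rw [hC, card_image_of_injective]
      · rw [Fin.card_Iio]
      · intro i j hij
        simp only [Option.some.injEq] at hij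
        exact congrArg Sigma.fst hij
    have hCB : C ⊆ B := by
      intro x hx
      rw [hC, mem_image] at hx
      obtain ⟨j, hj, rfl⟩ := hx
      exact hkmin j (mem_Iio.1 hj)
    have hPC : Disjoint P C := by
      rw [disjoint_left]
      intro x hx hx2
      rw [hC, mem_image] at hx2
      obtain ⟨j, hj, rfl⟩ := hx2
      rw [hP, mem_image] at hx
      obtain ⟨l, -, hl⟩ := hx
      simp only [hφ] at hl
      split_ifs at hl with h1
      simp only [Option.some.injEq] at hl
      have : k = j := congrArg Sigma.fst hl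
      have h2 := mem_Iio.1 hj
      omega
    have h1 : P \ (B \ C) ⊆ (univ \ B).filter (fun u => (tree s).Adj (some ⟨k, 0⟩) u) := by
      intro x hx
      rw [mem_sdiff, mem_sdiff] at hx
      have hxC : x ∉ C := disjoint_left.1 hPC hx.1
      rw [mem_filter, mem_sdiff]
      refine ⟨⟨mem_univ _, ?_⟩, ?_⟩
      · tauto
      · obtain ⟨l, -, rfl⟩ := mem_image.1 hx.1
        exact hφadj l
    have h2 : (B \ C).card = B.card - k := by
      rw [card_sdiff_of_subset hCB, hCc]
    have h3 : P.card ≤ (P \ (B \ C)).card + (B \ C).card := card_le_card_sdiff_add_card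
    have h4 := card_le_card h1
    have h5 : T (s - k) = T q + (q + 1) := by rw [← hq, T_succ]
    unfold dg
    omega
  -- all other degrees
  have hother : ∀ w ∈ univ \ B, w ≠ some ⟨k, 0⟩ → dg (tree s) (univ \ B) w ≤ T q + 1 := by
    intro w hw hwk
    rcases w with _ | ⟨j, l⟩
    · -- hub
      have h1 : (univ \ B).filter (fun u => (tree s).Adj none u) ⊆
          (Ici k).image (fun j : Fin s => (some ⟨j, 0⟩ : VT s)) := by
        intro x hx
        rw [mem_filter, mem_sdiff, adj_none] at hx
        obtain ⟨⟨-, hxB⟩, j, rfl⟩ := hx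
        rw [mem_image]
        refine ⟨j, ?_, rfl⟩
        rw [mem_Ici]
        by_contra hcon
        exact hxB (hkmin j (not_le.1 hcon))
      have h2 := (card_le_card h1).trans card_image_le
      have h3 : (Ici k).card = s - k := by
        rw [Fin.card_Ici]
      rw [h3] at h2
      have h4 := le_T q
      unfold dg
      omega
    · by_cases hl : l = 0
      · subst hl
        have hjk : k < j := by
          rcases lt_trichotomy j k with h | h | h
          · exact absurd (hkmin j h) (mem_sdiff.1 hw).2
          · subst h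
            exact absurd rfl hwk
          · exact h
        have h1 : (univ \ B).filter (fun u => (tree s).Adj (some ⟨j, 0⟩) u) ⊆
            univ.image (fun l : Fin (T (s - j) + 1) =>
              if l = 0 then (none : VT s) else some ⟨j, l⟩) := by
          intro x hx
          rw [mem_filter, adj_centre] at hx
          rw [mem_image]
          rcases hx.2 with rfl | ⟨l, hl, rfl⟩
          · exact ⟨0, mem_univ _, by simp⟩
          · exact ⟨l, mem_univ _, by simp [hl]⟩
        have h2 := (card_le_card h1).trans card_image_le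
        rw [card_univ, Fintype.card_fin] at h2
        have h3 : T (s - j) ≤ T q := by
          apply T_mono
          have : (k : ℕ) < j := hjk
          omega
        unfold dg
        omega
      · have h1 : (univ \ B).filter (fun u => (tree s).Adj (some ⟨j, l⟩) u) ⊆
            {(some ⟨j, 0⟩ : VT s)} := by
          intro x hx
          rw [mem_filter, adj_leaf j l hl] at hx
          rw [mem_singleton]
          exact hx.2
        have h2 := card_le_card h1
        rw [card_singleton] at h2
        unfold dg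
        omega
  unfold GoodW
  rintro (⟨u, hu, v, hv, huv, h1, h2⟩ | h)
  · have h3 := h2 (some ⟨k, 0⟩) (by simp [hk])
    by_cases huk : u = some ⟨k, 0⟩
    · have := hother v hv (by rw [← huk]; exact huv.symm)
      omega
    · have := hother u hu huk
      omega
  · have h4 : dg (tree s) (univ \ B) (some ⟨k, 0⟩) ≤ (univ \ B).card := by
      unfold dg
      exact card_filter_le _ _
    omega

/-- The lower bound. -/
theorem lower (t : ℕ) : t + 1 ≤ f (tree (t + 1)) := by
  classical
  unfold f
  have hne : {k : ℕ | ∃ B : Finset (VT (t + 1)), B.card = k ∧ Good (tree (t + 1)) B}.Nonempty := by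
    refine ⟨_, univ, rfl, Or.inr ?_⟩
    simp
  have hmem := Nat.sInf_mem hne
  obtain ⟨B, hB, hgood⟩ := hmem
  rw [← hB]
  by_contra hcon
  push Not at hcon
  rw [good_iff] at hgood
  exact not_goodW (t + 1) B hcon hgood

/-- **The full conjecture.** With `N(t) = (t^3 + 6t^2 + 17t + 12)/6` (an integer), for every
`t ≥ 1`: every forest `F` on at most `N(t)` vertices satisfies `f(F) ≤ t`, and there is a forest
(even a tree) on exactly `N(t) + 1` vertices with `f ≥ t + 1`. -/
theorem result : ∀ t : ℕ, 1 ≤ t →
    6 * N t = t ^ 3 + 6 * t ^ 2 + 17 * t + 12 ∧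
    (∀ (V : Type) [Fintype V] (F : SimpleGraph V), F.IsAcyclic → Fintype.card V ≤ N t →
      f F ≤ t) ∧
    (∃ (V : Type) (_ : Fintype V) (F : SimpleGraph V), Fintype.card V = N t + 1 ∧
      F.IsTree ∧ F.IsAcyclic ∧ t + 1 ≤ f F) := by
  intro t _
  refine ⟨N_six t, fun V _ F hF hn => upper t F hF hn, ?_⟩
  refine ⟨VT (t + 1), inferInstance, tree (t + 1), ?_, tree_isTree _, (tree_isTree _).isAcyclic,
    lower t⟩
  rw [Fintype.card_option, card_NR, S_eq]

end Pool.Agent.Results.MP_fe24f9_co.ForestThreshold
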